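import Pool.Agent.MP_a2da35_lc.Defs
import Pool.Agent.Lib.Cx.Graph

/-!
Clocked simulation of a machine, and machines with hard-wired advice.
-/

namespace Pool.Agent.MP_a2da35_lc

open Pool.Agent.Lib.Cx Function Turing Turing.TM2

attribute [local instance] piEnc in
theorem exists_sim (M : TM2ComputableAux Bool Bool) :
    ∃ sim : List Bool × List Bool → List Bool, PT sim ∧
      ∀ x r y, Runs M x y r.length → sim (x, r) = y := by
  obtain ⟨tm, ia, oa⟩ := M
  have := tm.kFin
  have := tm.ΛFin
  have := tm.σFin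
  have := tm.Γk₀Fin
  let T : Set (Σ k, tm.Γ k) := Set.range (fun x => ⟨tm.k₀, x⟩) ∪ ⋃ l, pushed (tm.m l)
  obtain ⟨B, hB, cd, dc, hT⟩ := exists_code T
    ((Set.finite_range _).union (Set.finite_iUnion fun l => pushed_finite _))
  let _ : Enc B := finEnc B
  let _ : Enc tm.Λ := finEnc _
  let _ : Enc tm.σ := finEnc _
  obtain ⟨D, hD⟩ := (Set.finite_range (fun l => pushes (tm.m l))).bddAbove
  obtain ⟨cB, hcB⟩ := exists_size_bound B
  obtain ⟨cL, hcL⟩ := exists_size_bound (Option tm.Λ)
  obtain ⟨cS, hcS⟩ := exists_size_bound tm.σ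
  let ini : List Bool → Option tm.Λ × tm.σ × (tm.K → List B) := fun x =>
    (some tm.main, tm.initialState,
      update (fun _ => []) tm.k₀ (x.map fun b => cd ⟨tm.k₀, ia.symm b⟩))
  have hini : PT ini := PT.prodMk (PT.const _) (PT.prodMk (PT.const _)
    (PT.piUpdate (PT.const _) _ (PT.map
      ((PT.of_finite (fun b => cd ⟨tm.k₀, ia.symm b⟩)).comp' (by fun_prop)) PT.id')))
  have hstep : PT (simStep cd dc tm.m) := by
    refine (PT.finCases (c := fun c : Option tm.Λ × tm.σ × (tm.K → List B) => c.1)
      (f := fun o c => o.elim c (fun l => simStmt cd dc (tm.m l) c.2)) (by fun_prop) ?_)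
    rintro (_ | l)
    · exact PT.id'
    · exact (simStmt_pt cd dc (tm.m l)).comp' (by fun_prop)
  have hrun : PT (fun x : List Bool × List Bool =>
      (simStep cd dc tm.m)^[x.2.length] (ini x.1)) := by
    refine PT.iterate (f := fun _ => simStep cd dc tm.m) (hstep.comp' (by fun_prop))
      (by fun_prop) (by fun_prop) (hini.comp' (by fun_prop))
      (fun x => 2 * cL + 1 + (2 * cS + 1 + Fintype.card tm.K *
        (2 * ((x.1.length + x.2.length * D) * (2 * cB + 1)) + 1))) (by fun_prop)
      fun x i hi => ?_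
    have h1 := simStep_length cd dc tm.m D (fun l => hD ⟨l, rfl⟩) i (ini x.1)
    generalize (simStep cd dc tm.m)^[i] (ini x.1) = c at h1
    have h2 := size_pi_le c.2.2 ((x.1.length + x.2.length * D) * (2 * cB + 1)) fun k => by
      refine (size_list_le _ cB (fun a _ => hcB a)).trans (Nat.mul_le_mul_right _ ?_)
      refine (h1 k).trans (Nat.add_le_add ?_ (Nat.mul_le_mul_right _ hi))
      simp only [ini, update_apply]
      split_ifs <;> simp
    have h3 := hcL c.1
    have h4 := hcS c.2.1
    simp only [size_prod]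
    omega
  refine ⟨fun x => ((((simStep cd dc tm.m)^[x.2.length] (ini x.1)).2.2 tm.k₁).map
      (fun y => ((dc tm.k₁ y).map oa).getD false)),
    PT.map ((PT.of_finite (fun y => ((dc tm.k₁ y).map oa).getD false)).comp' (by fun_prop))
      (hrun.snd.snd.piApply _), ?_⟩
  rintro x r y ⟨s, hs, ⟨⟨⟨n, hn⟩, hle⟩⟩⟩
  simp only at hle hn ⊢
  have hle' : n ≤ r.length := hle.trans (by exact_mod_cast hs)
  have hv : ∀ k, ∀ z ∈ (initList tm (List.map ia.symm x)).stk k,
      (⟨k, z⟩ : Σ k, tm.Γ k) ∈ T := by
    intro k z hz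
    by_cases hk : k = tm.k₀
    · subst hk; exact Or.inl ⟨z, rfl⟩
    · simp [initList, hk] at hz
  obtain ⟨e1, e2⟩ := simStep_iter cd dc T hT tm.m
    (fun l => (Set.subset_iUnion (fun l => pushed (tm.m l)) l).trans Set.subset_union_right)
    n _ _ hv hn
  have e3 : ini x = ((initList tm (List.map ia.symm x)).l,
      (initList tm (List.map ia.symm x)).var,
      codeStk cd (initList tm (List.map ia.symm x)).stk) := by
    refine Prod.ext rfl (Prod.ext rfl ?_)
    funext k
    by_cases hk : k = tm.k₀
    · subst hk; simp [ini, initList, codeStk]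
    · simp [ini, initList, codeStk, hk]
  obtain ⟨d, hd⟩ := Nat.exists_eq_add_of_le hle'
  rw [hd, add_comm, Function.iterate_add_apply, e3, e1, Function.iterate_fixed rfl]
  have e4 : (haltList tm (List.map oa.symm y)).stk tm.k₁ = List.map oa.symm y := by
    simp [haltList]
  have e5 := e2 tm.k₁
  simp only [codeStk]
  rw [e4] at e5 ⊢
  rw [List.map_map, List.map_map]
  conv_rhs => rw [← List.map_id y]
  refine List.map_congr_left fun b hb => ?_
  have := hT _ _ (e5 (oa.symm b) (List.mem_map_of_mem hb))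
  simp only [Function.comp, this]
  simp

theorem Runs.mono {M : TM2ComputableAux Bool Bool} {x y : List Bool} {T T' : ℝ}
    (h : Runs M x y T) (hT : T ≤ T') : Runs M x y T' := by
  obtain ⟨s, hs, h⟩ := h
  exact ⟨s, hs.trans hT, h⟩

theorem Runs.unique {M : TM2ComputableAux Bool Bool} {x y y' : List Bool} {T T' : ℝ}
    (h : Runs M x y T) (h' : Runs M x y' T') : y = y' := by
  obtain ⟨sim, -, hs⟩ := exists_sim M
  obtain ⟨n, hn⟩ := exists_nat_ge (max T T')
  have e : ((List.replicate n true).length : ℝ) = n := by simp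
  rw [← hs x (List.replicate n true) y (h.mono (by rw [e]; exact (le_max_left _ _).trans hn)),
    ← hs x (List.replicate n true) y' (h'.mono (by rw [e]; exact (le_max_right _ _).trans hn))]

theorem eval_le_pow (p : Polynomial ℕ) (x : ℕ) :
    p.eval x ≤ p.eval 1 * (x + 1) ^ p.natDegree := by
  rw [Polynomial.eval_eq_sum_range, Polynomial.eval_eq_sum_range, Finset.sum_mul]
  refine Finset.sum_le_sum fun i hi => ?_
  rw [one_pow, mul_one]
  refine Nat.mul_le_mul_left _ ((Nat.pow_le_pow_left (Nat.le_succ x) i).trans ?_)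
  exact Nat.pow_le_pow_right (by omega) (by simpa [Nat.lt_succ_iff] using hi)

/-- The exponent of the running time does not depend on the advice. -/
theorem exists_machine {A X : Type} [Enc A] [Enc X] (F : A × X → Bool) (hF : PT F) :
    ∃ e : ℕ, ∀ a, ∃ (M : TM2ComputableAux Bool Bool) (C : ℕ),
      ∀ x, Runs M (enc x) [F (a, x)] (C * (size x + 1 : ℝ) ^ e) := by
  obtain ⟨P, p, hp⟩ := hF
  refine ⟨p.natDegree, fun a => ?_⟩
  let c := N487b59b3.delimit (enc a)
  let Q : Proc Unit := (Proc.pushList () c).seq P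
  have key : ∀ z : List Bool, ext0 Q.L (fun _ : Unit => z) = single (Sum.inl ()) z := by
    intro z; funext k
    rcases k with k | k
    · simp
    · simp [single]
  refine ⟨⟨toTM Q.B (Sum.inl ()) (Sum.inl ()), Equiv.refl Bool, Equiv.refl Bool⟩,
    c.length + 1 + p.eval 1 * (c.length + 1) ^ p.natDegree, fun x => ?_⟩
  have h1 : Q.Runs (fun _ => enc x) (fun _ => [F (a, x)])
      (c.length + p.eval (enc (a, x)).length) :=
    ((Proc.runs_pushList () c _).congr rfl (by funext r; simp [enc_prod, c]) le_rfl).seq (hp (a, x))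
  unfold Proc.Runs at h1
  rw [key, key] at h1
  have h2 := toTM_outputs Q.B (Sum.inl ()) (Sum.inl ()) _ _ _ h1
  have e1 : ∀ l : List Bool, List.map (Equiv.refl Bool).symm l = l := fun l => List.map_id l
  refine ⟨c.length + p.eval (enc (a, x)).length + 1, ?_, by erw [e1, e1]; exact h2⟩
  have h3 := eval_le_pow p (enc (a, x)).length
  have h4 : (enc (a, x)).length + 1 ≤ (c.length + 1) * (size x + 1) := by
    rw [enc_prod, List.length_append]
    change c.length + size x + 1 ≤ _
    nlinarith
  have h5 := Nat.pow_le_pow_left h4 p.natDegree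
  rw [mul_pow] at h5
  have h6 : 1 ≤ (size x + 1) ^ p.natDegree := Nat.one_le_pow _ _ (by omega)
  have h7 : c.length + p.eval (enc (a, x)).length + 1 ≤
      (c.length + 1 + p.eval 1 * (c.length + 1) ^ p.natDegree) * (size x + 1) ^ p.natDegree := by
    have := Nat.mul_le_mul_left (p.eval 1) h5
    nlinarith
  exact_mod_cast h7

end Pool.Agent.MP_a2da35_lc
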