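import Pool.Agent.MP_a2da35_lc.Build
import Pool.Agent.MP_a2da35_lc.Time

/-!
The reduction as a polynomial-time function of advice, formula and coins.
-/

namespace Pool.Agent.MP_a2da35_lc

open Pool.Agent.Lib.Cx

abbrev Adv : Type := List (List Unit) × List ℕ × List (List Bool) × List (List ℕ) ×
  List (List (List ℕ)) × List (List Bool)

abbrev Inp : Type := Adv × (ℕ × List Clause) × List Bool

def un (a : Adv) (i : ℕ) : ℕ := (a.1.getD i []).length

def lit (c : Clause) (p : ℕ) : ℕ × Bool := if p = 0 then c.1 else if p = 1 then c.2.1 else c.2.2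

def gad (a : Adv) : Gad where
  t := un a 0
  k1 := un a 1
  w := un a 2
  β := un a 3
  QA := a.2.1.getD 0 0
  QS := a.2.1.getD 1 0
  inc i m := (a.2.2.1.getD i []).getD m false
  route i m := (a.2.2.2.1.getD i []).getD m 0
  ev i m l := ((a.2.2.2.2.1.getD i []).getD m []).getD l 0
  raw l p := (a.2.2.2.2.2.getD l []).getD p false

def datT (a : Adv) (f : ℕ × List Clause) (T : ℕ) : Dat where
  G := gad a
  n := min f.1 T
  m := f.2.length
  var j p := (lit (f.2.getD j ((0, false), (0, false), (0, false))) p).1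
  sgn j p := (lit (f.2.getD j ((0, false), (0, false), (0, false))) p).2
  d := un a 4
  Γ := un a 5

def Dat.rnd (D : Dat) (r : List Bool) : Rnd where
  o1 a c := if a < D.G.k * D.B ∧ c < 4 then blk r D.W (3 * (4 * a + c)) else 0
  o2 u := if u < D.G.k * D.M then blk r D.W (3 * u + 1) else 0
  o3 v p := if v < D.Rn ∧ p < D.G.ν * D.MS then blk r D.W (3 * (v * (D.G.ν * D.MS) + p) + 2) else 0

def dat (x : Inp) : Dat := datT x.1 x.2.1 x.2.2.length

def rnd (x : Inp) : Rnd := (dat x).rnd x.2.2

def Dat.Adj (D : Dat) (o : Rnd) (u v : ℕ) : Prop :=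
  (u < D.G.k * D.M ∧ D.G.k * D.M ≤ v ∧ D.AdjLR o u (v - D.G.k * D.M)) ∨
  (v < D.G.k * D.M ∧ D.G.k * D.M ≤ u ∧ D.AdjLR o v (u - D.G.k * D.M))

open Classical in
noncomputable def Dat.mat (D : Dat) (o : Rnd) (T : ℕ) : List (List Bool) :=
  (List.range (min D.N T)).map fun u => (List.range (min D.N T)).map fun v => decide (D.Adj o u v)

/-- The output `y` marks a copy of `K_{h,h}`. -/
def Ver (A : List (List Bool)) (h : ℕ) (y : List Bool) : Prop :=
  h ≤ ((List.range A.length).filter fun u => y.getD u false).length ∧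
  h ≤ ((List.range A.length).filter fun v => y.getD (A.length + v) false).length ∧
  ∀ u < A.length, ∀ v < A.length, y.getD u false = true → y.getD (A.length + v) false = true →
    ent A u v = true

/-- The assignment coded by `j`. -/
def asg (L j u : ℕ) : Bool := decide (j / 2 ^ min u (size L) % 2 = 1)

def Brute (L : ℕ) (φ : List Clause) : Prop :=
  ∃ j < L, ∀ c ∈ φ, asg L j c.1.1 = c.1.2 ∨ asg L j c.2.1.1 = c.2.1.2 ∨ asg L j c.2.2.1 = c.2.2.2

def lb (x : Inp) : ℕ := un x.1 6 + x.2.1.2.length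

def Small (x : Inp) : Prop := x.2.1.2 = [] ∨ x.2.1.1 < size (lb x)

/-- Some prefix of `ρ`, used as coins, makes the simulated machine find a biclique. -/
def Core (sim : List Bool × List Bool → List Bool) (x : Inp) (ρ : List Bool) : Prop :=
  ∃ l < x.2.2.length + 1, Ver ((dat x).mat (rnd x) x.2.2.length) (un x.1 7)
    (sim (enc (((dat x).mat (rnd x) x.2.2.length, (dat x).G.k), ρ.take l), x.2.2))

/-- Third number `j` of the tape. -/
def part (r : List Bool) (j : ℕ) : List Bool := (r.drop (j * (r.length / 3))).take (r.length / 3)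

open Classical in
noncomputable def alg (sim : List Bool × List Bool → List Bool) (x : Inp) : Bool :=
  if Small x then decide (Brute (lb x) x.2.1.2) else
    decide (Core sim (x.1, x.2.1, part x.2.2 0) (part x.2.2 1) ∨
      Core sim (x.1, x.2.1, part x.2.2 0) (part x.2.2 2))

section pt

variable {α : Type} [Enc α] {f : α → Inp} {i j l q : α → ℕ}

@[fun_prop] theorem un_pt {a : α → Adv} (ha : PT a) (hi : PT i) : PT (fun x => un (a x) (i x)) := by
  unfold un; fun_prop
@[fun_prop] theorem un_pb {a : α → Adv} (ha : PT a) (hi : PT i) : PB (fun x => un (a x) (i x)) := by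
  unfold un; fun_prop
@[fun_prop] theorem lit_pt {c : α → Clause} (hc : PT c) (hi : PT i) :
    PT (fun x => lit (c x) (i x)) := by unfold lit; fun_prop
@[fun_prop] theorem blk_pt {r : α → List Bool} (hr : PT r) (hi : PT i) (hj : PT j) :
    PT (fun x => blk (r x) (i x) (j x)) := by unfold blk; fun_prop

theorem t_pt (hf : PT f) : PT (fun x => (dat (f x)).G.t) := by
  change PT (fun x => un (f x).1 0); fun_prop
theorem t_pb (hf : PT f) : PB (fun x => (dat (f x)).G.t) := by
  change PB (fun x => un (f x).1 0); fun_prop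
theorem k1_pt (hf : PT f) : PT (fun x => (dat (f x)).G.k1) := by
  change PT (fun x => un (f x).1 1); fun_prop
theorem k1_pb (hf : PT f) : PB (fun x => (dat (f x)).G.k1) := by
  change PB (fun x => un (f x).1 1); fun_prop
theorem w_pt (hf : PT f) : PT (fun x => (dat (f x)).G.w) := by
  change PT (fun x => un (f x).1 2); fun_prop
theorem w_pb (hf : PT f) : PB (fun x => (dat (f x)).G.w) := by
  change PB (fun x => un (f x).1 2); fun_prop
theorem β_pt (hf : PT f) : PT (fun x => (dat (f x)).G.β) := by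
  change PT (fun x => un (f x).1 3); fun_prop
theorem β_pb (hf : PT f) : PB (fun x => (dat (f x)).G.β) := by
  change PB (fun x => un (f x).1 3); fun_prop
theorem d_pt (hf : PT f) : PT (fun x => (dat (f x)).d) := by
  change PT (fun x => un (f x).1 4); fun_prop
theorem d_pb (hf : PT f) : PB (fun x => (dat (f x)).d) := by
  change PB (fun x => un (f x).1 4); fun_prop
theorem Γ_pt (hf : PT f) : PT (fun x => (dat (f x)).Γ) := by
  change PT (fun x => un (f x).1 5); fun_prop
theorem Γ_pb (hf : PT f) : PB (fun x => (dat (f x)).Γ) := by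
  change PB (fun x => un (f x).1 5); fun_prop
theorem QA_pt (hf : PT f) : PT (fun x => (dat (f x)).G.QA) := by
  change PT (fun x => (f x).1.2.1.getD 0 0); fun_prop
theorem QS_pt (hf : PT f) : PT (fun x => (dat (f x)).G.QS) := by
  change PT (fun x => (f x).1.2.1.getD 1 0); fun_prop
theorem n_pt (hf : PT f) : PT (fun x => (dat (f x)).n) := by
  change PT (fun x => min (f x).2.1.1 (f x).2.2.length); fun_prop
theorem n_pb (hf : PT f) : PB (fun x => (dat (f x)).n) := by
  change PB (fun x => min (f x).2.1.1 (f x).2.2.length); fun_prop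
theorem m_pt (hf : PT f) : PT (fun x => (dat (f x)).m) := by
  change PT (fun x => (f x).2.1.2.length); fun_prop
theorem m_pb (hf : PT f) : PB (fun x => (dat (f x)).m) := by
  change PB (fun x => (f x).2.1.2.length); fun_prop
theorem var_pt (hf : PT f) (hi : PT i) (hj : PT j) :
    PT (fun x => (dat (f x)).var (i x) (j x)) := by
  change PT (fun x => (lit ((f x).2.1.2.getD (i x) _) (j x)).1); fun_prop
theorem sgn_pt (hf : PT f) (hi : PT i) (hj : PT j) :
    PT (fun x => (dat (f x)).sgn (i x) (j x)) := by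
  change PT (fun x => (lit ((f x).2.1.2.getD (i x) _) (j x)).2); fun_prop
theorem inc_pt (hf : PT f) (hi : PT i) (hj : PT j) :
    PT (fun x => (dat (f x)).G.inc (i x) (j x)) := by
  change PT (fun x => ((f x).1.2.2.1.getD (i x) []).getD (j x) false); fun_prop
theorem route_pt (hf : PT f) (hi : PT i) (hj : PT j) :
    PT (fun x => (dat (f x)).G.route (i x) (j x)) := by
  change PT (fun x => ((f x).1.2.2.2.1.getD (i x) []).getD (j x) 0); fun_prop
theorem ev_pt (hf : PT f) (hi : PT i) (hj : PT j) (hl : PT l) :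
    PT (fun x => (dat (f x)).G.ev (i x) (j x) (l x)) := by
  change PT (fun x => (((f x).1.2.2.2.2.1.getD (i x) []).getD (j x) []).getD (l x) 0); fun_prop
theorem raw_pt (hf : PT f) (hi : PT i) (hj : PT j) :
    PT (fun x => (dat (f x)).G.raw (i x) (j x)) := by
  change PT (fun x => ((f x).1.2.2.2.2.2.getD (i x) []).getD (j x) false); fun_prop

attribute [local irreducible] dat

attribute [fun_prop] t_pt t_pb k1_pt k1_pb w_pt w_pb β_pt β_pb d_pt d_pb Γ_pt Γ_pb
  QA_pt QS_pt n_pt n_pb m_pt m_pb var_pt sgn_pt inc_pt route_pt ev_pt raw_pt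

@[fun_prop] theorem k_pt (hf : PT f) : PT (fun x => (dat (f x)).G.k) := by
  unfold Gad.k; fun_prop
@[fun_prop] theorem k_pb (hf : PT f) : PB (fun x => (dat (f x)).G.k) := by
  unfold Gad.k; fun_prop
@[fun_prop] theorem ν_pt (hf : PT f) : PT (fun x => (dat (f x)).G.ν) := by
  unfold Gad.ν; fun_prop
@[fun_prop] theorem ν_pb (hf : PT f) : PB (fun x => (dat (f x)).G.ν) := by
  unfold Gad.ν; fun_prop
@[fun_prop] theorem B_pt (hf : PT f) : PT (fun x => (dat (f x)).B) := by
  unfold Dat.B; fun_prop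
@[fun_prop] theorem B_pb (hf : PT f) : PB (fun x => (dat (f x)).B) := by
  unfold Dat.B; fun_prop
@[fun_prop] theorem cap_pt (hf : PT f) : PT (fun x => (dat (f x)).cap) := by
  unfold Dat.cap; fun_prop
@[fun_prop] theorem cap_pb (hf : PT f) : PB (fun x => (dat (f x)).cap) := by
  unfold Dat.cap; fun_prop
@[fun_prop] theorem s0_pt (hf : PT f) : PT (fun x => (dat (f x)).s0) := by
  unfold Dat.s0; fun_prop
@[fun_prop] theorem s0_pb (hf : PT f) : PB (fun x => (dat (f x)).s0) := by
  unfold Dat.s0; fun_prop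
@[fun_prop] theorem s_pt (hf : PT f) : PT (fun x => (dat (f x)).s) := by
  unfold Dat.s; fun_prop
@[fun_prop] theorem s_pb (hf : PT f) : PB (fun x => (dat (f x)).s) := by
  unfold Dat.s; fun_prop
@[fun_prop] theorem M_pt (hf : PT f) : PT (fun x => (dat (f x)).M) := by
  unfold Dat.M; fun_prop
@[fun_prop] theorem MS_pt (hf : PT f) : PT (fun x => (dat (f x)).MS) := by
  unfold Dat.MS; fun_prop
@[fun_prop] theorem b1_pt (hf : PT f) : PT (fun x => (dat (f x)).b1) := by
  unfold Dat.b1; fun_prop
@[fun_prop] theorem b1_pb (hf : PT f) : PB (fun x => (dat (f x)).b1) := by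
  unfold Dat.b1; fun_prop
@[fun_prop] theorem b_pt (hf : PT f) : PT (fun x => (dat (f x)).b) := by
  unfold Dat.b; fun_prop
@[fun_prop] theorem b_pb (hf : PT f) : PB (fun x => (dat (f x)).b) := by
  unfold Dat.b; fun_prop
@[fun_prop] theorem Rn_pt (hf : PT f) : PT (fun x => (dat (f x)).Rn) := by
  unfold Dat.Rn; fun_prop
@[fun_prop] theorem W_pt (hf : PT f) : PT (fun x => (dat (f x)).W) := by
  unfold Dat.W; fun_prop
@[fun_prop] theorem N_pt (hf : PT f) : PT (fun x => (dat (f x)).N) := by
  unfold Dat.N; fun_prop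
@[fun_prop] theorem nq_pt (hf : PT f) : PT (fun x => (dat (f x)).nq) := by
  unfold Dat.nq; fun_prop
@[fun_prop] theorem nq_pb (hf : PT f) : PB (fun x => (dat (f x)).nq) := by
  unfold Dat.nq; fun_prop
@[fun_prop] theorem deg_pt (hf : PT f) (hi : PT i) : PT (fun x => (dat (f x)).deg (i x)) := by
  unfold Dat.deg; fun_prop
@[fun_prop] theorem dn_pt (hf : PT f) (hi : PT i) : PT (fun x => (dat (f x)).dn (i x)) := by
  unfold Dat.dn; fun_prop
@[fun_prop] theorem off_pt (hf : PT f) (hi : PT i) : PT (fun x => (dat (f x)).off (i x)) := by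
  unfold Dat.off; fun_prop

theorem o1_pt (hf : PT f) (hi : PT i) (hj : PT j) :
    PT (fun x => (rnd (f x)).o1 (i x) (j x)) := by
  unfold rnd Dat.rnd; fun_prop
theorem o2_pt (hf : PT f) (hi : PT i) : PT (fun x => (rnd (f x)).o2 (i x)) := by
  unfold rnd Dat.rnd; fun_prop
theorem o3_pt (hf : PT f) (hi : PT i) (hj : PT j) :
    PT (fun x => (rnd (f x)).o3 (i x) (j x)) := by
  unfold rnd Dat.rnd; fun_prop

attribute [local irreducible] rnd

attribute [fun_prop] o1_pt o2_pt o3_pt

@[fun_prop] theorem cl_pt (hf : PT f) (hi : PT i) :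
    PT (fun x => (dat (f x)).cl ((rnd (f x)).o1 (i x))) := by
  unfold Dat.cl; fun_prop
@[fun_prop] theorem uu_pt (hf : PT f) (hi : PT i) (hj : PT j) :
    PT (fun x => (dat (f x)).uu ((rnd (f x)).o1 (i x)) (j x)) := by
  unfold Dat.uu; fun_prop
@[fun_prop] theorem yy_pt (hf : PT f) (hi : PT i) (hj : PT j) :
    PT (fun x => (dat (f x)).yy ((rnd (f x)).o1 (i x)) (j x)) := by
  unfold Dat.yy; fun_prop
@[fun_prop] theorem cls_pt (hf : PT f) (hi : PT i) : PT (fun x => (dat (f x)).cls (i x)) := by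
  unfold Dat.cls; fun_prop
@[fun_prop] theorem y_pt (hf : PT f) (hi : PT i) :
    PT (fun x => (dat (f x)).y (rnd (f x)) (i x)) := by
  unfold Dat.y; fun_prop
@[fun_prop] theorem cell_pt (hf : PT f) (hi : PT i) :
    PT (fun x => (dat (f x)).cell (rnd (f x)) (i x)) := by
  unfold Dat.cell; fun_prop
@[fun_prop] theorem slot_pt (hf : PT f) (hi : PT i) :
    PT (fun x => (dat (f x)).slot (rnd (f x)) (i x)) := by
  unfold Dat.slot; fun_prop
@[fun_prop] theorem dig_pt {Q s : α → ℕ} (hQ : PT Q) (hs : PT s) (hb : PB s) (hi : PT i)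
    (hj : PT j) : PT (fun x => dig (Q x) (s x) (i x) (j x)) := by
  unfold dig; fun_prop
@[fun_prop] theorem symN_pt (hf : PT f) (hi : PT i) (hj : PT j) (hl : PT l) :
    PT (fun x => (dat (f x)).G.symN (dat (f x)).s (i x) (j x) (l x)) := by
  unfold Gad.symN pack; fun_prop
@[fun_prop] theorem bit_pt (hf : PT f) (hi : PT i) (hj : PT j) :
    PT (fun x => (dat (f x)).bit (i x) (j x)) := by
  unfold Dat.bit; fun_prop
@[fun_prop] theorem rd_pt (hf : PT f) (hi : PT i) (hl : PT l) (hq : PT q) :
    PT (fun x => (dat (f x)).rd (rnd (f x)) (i x) (l x) (q x)) := by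
  unfold Dat.rd; fun_prop
@[fun_prop] theorem valid_pp (hf : PT f) (hi : PT i) (hl : PT l) :
    PP (fun x => (dat (f x)).Valid (rnd (f x)) (i x) (l x)) := by
  unfold Dat.Valid; fun_prop
@[fun_prop] theorem kept_pp (hf : PT f) (hi : PT i) :
    PP (fun x => (dat (f x)).Kept (rnd (f x)) (i x)) := by
  unfold Dat.Kept; fun_prop
@[fun_prop] theorem tok_pt (hf : PT f) (hi : PT i) (hj : PT j) :
    PT (fun x => (dat (f x)).tok (i x) (j x)) := by
  unfold Dat.tok; fun_prop
@[fun_prop] theorem adjLR_pp (hf : PT f) (hi : PT i) (hj : PT j) :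
    PP (fun x => (dat (f x)).AdjLR (rnd (f x)) (i x) (j x)) := by
  unfold Dat.AdjLR; fun_prop
@[fun_prop] theorem adj_pp (hf : PT f) (hi : PT i) (hj : PT j) :
    PP (fun x => (dat (f x)).Adj (rnd (f x)) (i x) (j x)) := by
  unfold Dat.Adj; fun_prop
@[fun_prop] theorem mat_pt (hf : PT f) :
    PT (fun x => (dat (f x)).mat (rnd (f x)) (f x).2.2.length) := by
  unfold Dat.mat; fun_prop
@[fun_prop] theorem ver_pp {A : α → List (List Bool)} {y : α → List Bool} (hA : PT A) (hi : PT i)
    (hy : PT y) : PP (fun x => Ver (A x) (i x) (y x)) := by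
  unfold Ver; fun_prop
@[fun_prop] theorem asg_pt (hl : PT l) (hi : PT i) (hj : PT j) :
    PT (fun x => asg (l x) (i x) (j x)) := by
  unfold asg; fun_prop
@[fun_prop] theorem lb_pt (hf : PT f) : PT (fun x => lb (f x)) := by unfold lb; fun_prop
@[fun_prop] theorem lb_pb (hf : PT f) : PB (fun x => lb (f x)) := by unfold lb; fun_prop
@[fun_prop] theorem brute_pp (hf : PT f) : PP (fun x => Brute (lb (f x)) (f x).2.1.2) := by
  unfold Brute; fun_prop
@[fun_prop] theorem small_pp (hf : PT f) : PP (fun x => Small (f x)) := by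
  unfold Small; fun_prop

@[fun_prop] theorem part_pt {r : α → List Bool} (hr : PT r) (hi : PT i) :
    PT (fun x => part (r x) (i x)) := by unfold part; fun_prop

theorem core_pp {sim : List Bool × List Bool → List Bool} (hs : PT sim) {ρ : α → List Bool}
    (hf : PT f) (hρ : PT ρ) : PP (fun x => Core sim (f x) (ρ x)) := by
  have h1 := mat_pt (f := fun x : α × ℕ => f x.1) (by fun_prop)
  have h2 := k_pt (f := fun x : α × ℕ => f x.1) (by fun_prop)
  refine PP.exists_lt (by fun_prop) (by fun_prop) (ver_pp h1 (by fun_prop) ?_)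
  exact hs.comp' (PT.prodMk (PT.enc' (PT.prodMk (PT.prodMk h1 h2) (by fun_prop))) (by fun_prop))

theorem alg_pt {sim : List Bool × List Bool → List Bool} (hs : PT sim) : PT (alg sim) := by
  have h3 := brute_pp (f := fun x : Inp => x) PT.id'
  have h4 := small_pp (f := fun x : Inp => x) PT.id'
  exact PT.ite h4 (PT.decide h3) (PT.decide (PP.or (core_pp hs (by fun_prop) (by fun_prop))
    (core_pp hs (by fun_prop) (by fun_prop))))

end pt

end Pool.Agent.MP_a2da35_lc
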