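import Pool.Agent.MP_a2da35_lc.No
import Pool.Agent.MP_a2da35_lc.Red

/-!
From the tape to the random graph, and from the graph to the answer of the algorithm.
-/

namespace Pool.Agent.MP_a2da35_lc

open Finset Pool.Agent.Lib.Cx

namespace Dat

variable (D : Dat)

/-- Number of tape cells used. -/
def tape : ℕ := 3 * (4 * (D.G.k * D.B) + D.G.k * D.M + D.Rn * (D.G.ν * D.MS) + 1) * D.W

theorem pr_rnd {T : ℕ} (hT : D.tape ≤ T) (Q : Rnd → Prop) :
    pr (fun r : Fin T → Bool => Q (D.rnd (List.ofFn r))) =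
      pr (fun ω : D.Ω1 × D.Ω2 × D.Ω3 => Q (D.mk3 ω.1 ω.2.1 ω.2.2)) := by
  let J := (Fin (D.G.k * D.B) × Fin 4) ⊕ Fin (D.G.k * D.M) ⊕ (Fin D.Rn × Fin (D.G.ν * D.MS))
  let ι : J → ℕ := Sum.elim (fun p => 3 * (4 * p.1 + p.2))
    (Sum.elim (fun u => 3 * u + 1) (fun p => 3 * (p.1 * (D.G.ν * D.MS) + p.2) + 2))
  have hι : Function.Injective ι := by
    rintro (⟨a, b⟩ | u | ⟨a, b⟩) (⟨a', b'⟩ | u' | ⟨a', b'⟩) e <;>
      simp only [ι, Sum.elim_inl, Sum.elim_inr] at e
    · have := b.2
      have := b'.2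
      rw [show a = a' from Fin.ext (by omega), show b = b' from Fin.ext (by omega)]
    · omega
    · omega
    · omega
    · rw [show u = u' from Fin.ext (by omega)]
    · omega
    · omega
    · omega
    · have e1 : a * (D.G.ν * D.MS) + b = a' * (D.G.ν * D.MS) + b' := by omega
      have e2 := congrArg (· / (D.G.ν * D.MS)) e1
      have e3 := congrArg (· % (D.G.ν * D.MS)) e1
      simp only [div_vertex b.2, div_vertex b'.2, mod_vertex b.2, mod_vertex b'.2] at e2 e3
      rw [Fin.ext e2, Fin.ext e3]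
  have hb : ∀ j, (ι j + 1) * D.W ≤ T := by
    intro j
    refine le_trans (Nat.mul_le_mul_right _ ?_) hT
    rcases j with ⟨a, b⟩ | u | ⟨a, b⟩ <;> simp only [ι, Sum.elim_inl, Sum.elim_inr]
    · have := a.2
      have := b.2
      omega
    · have := u.2
      omega
    · have := vertex_lt a.2 b.2
      omega
  let e : (J → Fin (2 ^ D.W)) ≃ D.Ω1 × D.Ω2 × D.Ω3 :=
    (Equiv.sumArrowEquivProdArrow _ _ _).trans (Equiv.prodCongr (Equiv.curry _ _ _)
      ((Equiv.sumArrowEquivProdArrow _ _ _).trans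
        (Equiv.prodCongr (Equiv.refl _) (Equiv.curry _ _ _))))
  rw [← pr_equiv e, ← pr_blocks T D.W ι hι hb]
  congr 1
  funext r
  congr 1
  simp only [rnd, mk3, Rnd.mk.injEq]
  refine ⟨?_, ?_, ?_⟩
  · funext a c
    by_cases ha : a < D.G.k * D.B <;> by_cases hc : c < 4 <;> simp [nx, xt, ha, hc] <;> rfl
  · funext u
    by_cases hu : u < D.G.k * D.M <;> simp [nx, xt, hu] <;> rfl
  · funext a c
    by_cases ha : a < D.Rn <;> by_cases hc : c < D.G.ν * D.MS <;> simp [nx, xt, ha, hc] <;> rfl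

/-- The graph. -/
def graph (o : Rnd) : SimpleGraph (Fin D.N) where
  Adj u v := D.Adj o u v
  symm := ⟨fun _ _ h => Or.symm h⟩
  loopless := ⟨fun u h => by rcases h with h | h <;> omega⟩

theorem adjRows_graph (o : Rnd) {T : ℕ} (hT : D.N ≤ T) : adjRows (D.graph o) = D.mat o T := by
  rw [adjRows, mat, min_eq_left hT]
  refine List.ext_getElem (by simp) fun i h1 h2 => ?_
  rw [List.getElem_ofFn, List.getElem_map, List.getElem_range]
  refine List.ext_getElem (by simp) fun j h3 h4 => ?_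
  rw [List.getElem_ofFn, List.getElem_map, List.getElem_range]
  rfl

theorem graph_bipartite (o : Rnd) : (D.graph o).IsBipartite := by
  refine ⟨SimpleGraph.Coloring.mk (fun u => if (u : ℕ) < D.G.k * D.M then 0 else 1) ?_⟩
  rintro u v (h | h)
  · rw [if_pos h.1, if_neg (not_lt.2 h.2.1)]; decide
  · rw [if_pos h.1, if_neg (not_lt.2 h.2.1)]; decide

theorem HasK.contained {o : Rnd} {a : ℕ} (h : D.HasK o a) :
    (completeBipartiteGraph (Fin a) (Fin a)).IsContained (D.graph o) := by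
  classical
  obtain ⟨A, B, h1, h2, h3, h4, h5⟩ := h
  rw [SimpleGraph.completeBipartiteGraph_isContained_iff]
  refine ⟨A.attachFin fun u hu => (h3 u hu).trans_le (Nat.le_add_right _ _),
    (B.image fun v => D.G.k * D.M + v).attachFin fun u hu => ?_, by simpa using h1, ?_, ?_⟩
  · obtain ⟨v, hv, rfl⟩ := mem_image.1 hu
    exact Nat.add_lt_add_left (h4 v hv) _
  · rw [card_attachFin, card_image_of_injective _ (add_right_injective _), h2, Fintype.card_fin]
  · intro u hu v hv
    rw [mem_coe, mem_attachFin] at hu hv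
    obtain ⟨v', hv', e⟩ := mem_image.1 hv
    refine Or.inl ⟨h3 u hu, by omega, ?_⟩
    rw [← e, Nat.add_sub_cancel_left]
    exact h5 u hu v' hv'

theorem hasK_of_sides {o : Rnd} {a : ℕ} (A B : Finset ℕ) (h1 : a ≤ A.card) (h2 : a ≤ B.card)
    (h3 : ∀ u ∈ A, u < D.G.k * D.M) (h4 : ∀ v ∈ B, v < D.N)
    (h5 : ∀ u ∈ A, ∀ v ∈ B, D.Adj o u v) (ha : 0 < a) : D.HasK o a := by
  obtain ⟨A', a1, a2⟩ := Finset.exists_subset_card_eq h1
  obtain ⟨B', b1, b2⟩ := Finset.exists_subset_card_eq h2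
  obtain ⟨u0, hu0⟩ := card_pos.1 (ha.trans_le h1)
  have key : ∀ u ∈ A, ∀ v ∈ B, D.G.k * D.M ≤ v ∧ D.AdjLR o u (v - D.G.k * D.M) := by
    intro u hu v hv
    rcases h5 u hu v hv with h | h
    · exact h.2
    · have := h3 u hu
      omega
  refine ⟨A', B'.image (· - D.G.k * D.M), a2, ?_, fun u hu => h3 u (a1 hu), fun v hv => ?_,
    fun u hu v hv => ?_⟩
  · rw [card_image_of_injOn, b2]
    intro v hv v' hv' e
    have := (key u0 hu0 v (b1 hv)).1
    have := (key u0 hu0 v' (b1 hv')).1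
    simp only at e
    omega
  · obtain ⟨v', hv', rfl⟩ := mem_image.1 hv
    have := (key u0 hu0 v' (b1 hv')).1
    have := h4 v' (b1 hv')
    unfold N at this
    omega
  · obtain ⟨v', hv', rfl⟩ := mem_image.1 hv
    exact (key u (a1 hu) v' (b1 hv')).2

theorem hasK_of_ver {o : Rnd} {a : ℕ} (ha : 0 < a) {y : List Bool}
    (h : Ver (adjRows (D.graph o)) a y) : D.HasK o a := by
  obtain ⟨h1, h2, h3⟩ := h
  rw [length_adjRows] at h1 h2 h3
  let A := (range D.N).filter fun u => y.getD u false = true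
  let B := (range D.N).filter fun v => y.getD (D.N + v) false = true
  have a1 : a ≤ A.card := by
    rw [← length_filter_range]; simpa using h1
  have b1 : a ≤ B.card := by
    rw [← length_filter_range]; simpa using h2
  have key : ∀ u ∈ A, ∀ v ∈ B, D.Adj o u v := by
    intro u hu v hv
    obtain ⟨u1, u2⟩ := mem_filter.1 hu
    obtain ⟨v1, v2⟩ := mem_filter.1 hv
    rw [mem_range] at u1 v1
    exact (ent_adjRows' _ u1 v1).1 (h3 u u1 v v1 u2 v2)
  obtain ⟨u0, hu0⟩ := card_pos.1 (ha.trans_le a1)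
  obtain ⟨v0, hv0⟩ := card_pos.1 (ha.trans_le b1)
  by_cases hv : v0 < D.G.k * D.M
  · refine D.hasK_of_sides B A b1 a1 (fun v hv' => ?_)
      (fun u hu => mem_range.1 (mem_filter.1 hu).1) (fun v hv' u hu => (key u hu v hv').symm) ha
    rcases key u0 hu0 v0 hv0 with h | h <;> rcases key u0 hu0 v hv' with h' | h' <;> omega
  · refine D.hasK_of_sides A B a1 b1 (fun u hu => ?_)
      (fun u hu => mem_range.1 (mem_filter.1 hu).1) key ha
    rcases key u hu v0 hv0 with h | h <;> omega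

end Dat

theorem card_marked (N p : ℕ) (y : List Bool) :
    (marked N p y).card = ((List.range N).filter fun u => y.getD (p + u) false).length := by
  have := length_filter_range N (fun u => y.getD (p + u) false = true)
  simp only [Bool.decide_eq_true] at this
  rw [this, marked, card_filter, card_filter,
    ← Fin.sum_univ_eq_sum_range (fun u => if y.getD (p + u) false = true then 1 else 0)]

theorem ver_of_marked {N a : ℕ} (G : SimpleGraph (Fin N)) {y : List Bool}
    (h1 : (marked N 0 y).card = (marked N N y).card) (h2 : a ≤ (marked N 0 y).card)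
    (h3 : ∀ u ∈ marked N 0 y, ∀ v ∈ marked N N y, G.Adj u v) : Ver (adjRows G) a y := by
  unfold Ver
  rw [length_adjRows]
  refine ⟨by simpa [card_marked] using h2, by rw [← card_marked, ← h1]; exact h2,
    fun u hu v hv e1 e2 => (ent_adjRows' _ hu hv).2 (h3 _ ?_ _ ?_)⟩
  · simpa [marked] using e1
  · simpa [marked] using e2

theorem Brute.sat {L : ℕ} {φ : List Clause} (h : Brute L φ) : Satisfiable φ := by
  obtain ⟨j, -, hj⟩ := h
  exact ⟨asg L j, hj⟩

theorem brute_of_sat {L n : ℕ} {φ : List Clause} (hn : OnVars n φ) (hL : n < size L)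
    (h : Satisfiable φ) : Brute L φ := by
  obtain ⟨a, ha⟩ := h
  have h1 : ∀ u < n, (a u).toNat < 2 := fun u _ => by cases a u <;> simp
  have h2 : ∀ u < n, asg L (pack 2 n fun u => (a u).toNat) u = a u := by
    intro u hu
    have := dig_pack h1 hu
    rw [dig_eq hu.le] at this
    rw [asg, min_eq_left (by omega), this]
    cases a u <;> simp
  refine ⟨pack 2 n fun u => (a u).toNat, (pack_lt h1).trans_le ?_, fun c hc => ?_⟩
  · by_contra hlt
    have := size_nat_le_iff.2 (not_le.1 hlt)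
    omega
  · obtain ⟨b1, b2, b3⟩ := hn c hc
    rw [h2 _ b1, h2 _ b2, h2 _ b3]
    exact ha c hc

theorem Far.not_sat {ε : ℝ} (hε : 0 < ε) {φ : List Clause} (h : Far ε φ) : ¬ Satisfiable φ := by
  rintro ⟨a, ha⟩
  have h1 := h a
  rw [List.countP_eq_zero.2 (fun c hc => by simpa using ha c hc)] at h1
  have : (0 : ℝ) ≤ ε * φ.length := by positivity
  simp at h1
  linarith

theorem holds_iff (a : ℕ → Bool) (c : Clause) :
    Holds a c ↔ ∃ p < 3, a (lit c p).1 = (lit c p).2 := by
  refine ⟨?_, ?_⟩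
  · rintro (h | h | h)
    exacts [⟨0, by norm_num, h⟩, ⟨1, by norm_num, h⟩, ⟨2, by norm_num, h⟩]
  · rintro ⟨p, hp, h⟩
    interval_cases p
    exacts [Or.inl h, Or.inr (Or.inl h), Or.inr (Or.inr h)]

theorem getD_mem {φ : List Clause} {j : ℕ} (hj : j < φ.length) (d : Clause) : φ.getD j d ∈ φ := by
  rw [List.getD_eq_getElem _ _ hj]; exact List.getElem_mem hj

theorem isFar_datT {ε : ℝ} {E : ℕ} (hE : 1 ≤ E * ε) (a : Adv) (n T : ℕ) {φ : List Clause}
    (h : Far ε φ) : (datT a (n, φ) T).IsFar E := by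
  classical
  intro x
  have h1 := h x
  have h2 : (φ.countP fun c => decide (¬ Holds x c)) = ((range φ.length).filter fun j =>
      ∀ p < 3, x ((datT a (n, φ) T).var j p) ≠ (datT a (n, φ) T).sgn j p).card := by
    rw [← length_filter_range, ← List.countP_eq_length_filter]
    have e : φ = (List.range φ.length).map
        (fun j => φ.getD j ((0, false), (0, false), (0, false))) :=
      List.ext_getElem (by simp) fun j h1 h2 => by simp [List.getElem?_eq_getElem h1]
    conv_lhs => rw [e, List.countP_map]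
    refine List.countP_congr fun j _ => ?_
    simp only [Function.comp, holds_iff, datT, decide_eq_true_eq, not_exists, not_and, ne_eq]
  rw [h2] at h1
  have h3 : ((φ.length : ℕ) : ℝ) ≤ E * (((range φ.length).filter fun j =>
      ∀ p < 3, x ((datT a (n, φ) T).var j p) ≠ (datT a (n, φ) T).sgn j p).card : ℕ) := by
    have := mul_le_mul_of_nonneg_left h1.le (Nat.cast_nonneg (α := ℝ) E)
    nlinarith [Nat.cast_nonneg (α := ℝ) φ.length]
  change φ.length ≤ _
  convert (Nat.cast_le (α := ℝ)).1 (h3.trans_eq (Nat.cast_mul _ _).symm)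
  rfl

theorem sat_datT (a : Adv) (n T : ℕ) {φ : List Clause} (h : Satisfiable φ) :
    ∃ x : ℕ → Bool, ∀ j < (datT a (n, φ) T).m, ∃ p < 3,
      x ((datT a (n, φ) T).var j p) = (datT a (n, φ) T).sgn j p := by
  obtain ⟨x, hx⟩ := h
  exact ⟨x, fun j hj => (holds_iff _ _).1 (hx _ (getD_mem hj _))⟩

theorem wf_datT (a : Adv) {n T : ℕ} {φ : List Clause} (h : OnVars n φ) (hT : n ≤ T) (hn : 0 < n)
    (h1 : φ ≠ []) (h2 : φ.length ≤ 2 ^ n) : (datT a (n, φ) T).Wf := by
  have e : (datT a (n, φ) T).n = n := min_eq_left hT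
  refine ⟨List.length_pos_iff.2 h1, e.symm ▸ hn, e.symm ▸ h2, fun j hj p hp => ?_⟩
  rw [e]
  obtain ⟨b1, b2, b3⟩ := h _ (getD_mem hj ((0, false), (0, false), (0, false)))
  interval_cases p
  exacts [b1, b2, b3]

theorem pr_and {α β : Type} [Fintype α] [Fintype β] (p : α → Prop) (q : β → Prop) :
    pr (fun z : α × β => p z.1 ∧ q z.2) = pr p * pr q := by
  classical
  rw [pr_prod_type, pr_eq_ex p, mul_comm, ← ex_mul_left]
  congr 1
  funext a
  by_cases h : p a
  · simp [h]
  · simp [h, pr_false]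

theorem pr_parts (T : ℕ) (Q : List Bool → List Bool → List Bool → Prop) :
    pr (fun r : Fin T → Bool =>
      Q (part (List.ofFn r) 0) (part (List.ofFn r) 1) (part (List.ofFn r) 2)) =
    pr (fun z : (Fin (T / 3) → Bool) × (Fin (T / 3) → Bool) × (Fin (T / 3) → Bool) =>
      Q (List.ofFn z.1) (List.ofFn z.2.1) (List.ofFn z.2.2)) := by
  let ι : Fin (T / 3) ⊕ Fin (T / 3) ⊕ Fin (T / 3) → Fin T :=
    Sum.elim (fun i => ⟨i, by omega⟩) (Sum.elim (fun i => ⟨T / 3 + i, by omega⟩)
      (fun i => ⟨2 * (T / 3) + i, by omega⟩))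
  have hι : Function.Injective ι := by
    rintro (a | a | a) (b | b | b) e <;>
      simp only [ι, Sum.elim_inl, Sum.elim_inr, Fin.mk.injEq] at e <;>
      first
        | omega
        | rw [show a = b from Fin.ext (by omega)]
  let e := (Equiv.sumArrowEquivProdArrow (Fin (T / 3)) (Fin (T / 3) ⊕ Fin (T / 3)) Bool).trans
    (Equiv.prodCongr (Equiv.refl _) (Equiv.sumArrowEquivProdArrow _ _ _))
  rw [← pr_equiv e, ← pr_restrict ι hι]
  congr 1
  funext r
  congr 1 <;> refine List.ext_getElem (by simp [part]; omega) fun j h1 h2 => ?_ <;>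
    simp [part, e, ι, Equiv.sumArrowEquivProdArrow]

theorem pr_take {T l : ℕ} (h : l ≤ T) (Q : List Bool → Prop) :
    pr (fun r : Fin T → Bool => Q ((List.ofFn r).take l)) =
      pr (fun r : Fin l → Bool => Q (List.ofFn r)) := by
  rw [← pr_restrict (Fin.castLE h) (Fin.castLE_injective h)]
  congr 1
  funext r
  congr 1
  exact List.ext_getElem (by simpa using h) fun j h1 h2 => by simp

/-- Correctness of the algorithm on a large formula. -/
theorem alg_large {M : Turing.TM2ComputableAux Bool Bool} {c' : ℝ} {τ : ℕ → ℕ → ℝ}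
    (hM : Approximates M c' τ) {sim : List Bool × List Bool → List Bool}
    (hs : ∀ x r y, Runs M x y r.length → sim (x, r) = y) (a : Adv) (n T0 T : ℕ) (hT : T0 / 3 = T)
    (φ : List Clause)
    {c E g R : ℕ} (hc : 0 < c') (hc' : c' ≤ c) (H : (datT a (n, φ) T).Good c E (un a 7) g R)
    (h1 : ¬ (φ = [] ∨ n < size (un a 6 + φ.length))) (h2 : (datT a (n, φ) T).N ≤ T)
    (h3 : (datT a (n, φ) T).tape ≤ T) (h4 : τ (datT a (n, φ) T).N (datT a (n, φ) T).G.k ≤ T) :
    (Satisfiable φ → 2 / 3 ≤ pr fun r : Fin T0 → Bool => alg sim (a, (n, φ), List.ofFn r) = true) ∧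
    ((datT a (n, φ) T).IsFar E →
      (pr fun r : Fin T0 → Bool => alg sim (a, (n, φ), List.ofFn r) = true) ≤ 1 / 3) := by
  classical
  set D := datT a (n, φ) T with hD
  have key0 : (pr fun r : Fin T0 → Bool => alg sim (a, (n, φ), List.ofFn r) = true) =
      pr (fun z : (Fin T → Bool) × (Fin T → Bool) × (Fin T → Bool) =>
        Core sim (a, (n, φ), List.ofFn z.1) (List.ofFn z.2.1) ∨
        Core sim (a, (n, φ), List.ofFn z.1) (List.ofFn z.2.2)) := by
    subst hT
    rw [← pr_parts T0 (fun r0 r1 r2 => Core sim (a, (n, φ), r0) r1 ∨ Core sim (a, (n, φ), r0) r2)]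
    refine pr_congr fun r => ?_
    rw [alg, if_neg (show ¬ Small (a, (n, φ), List.ofFn r) from h1), decide_eq_true_eq]
  have key : ∀ (r : Fin T → Bool) ρ, Core sim (a, (n, φ), List.ofFn r) ρ ↔
      ∃ l < T + 1, Ver (adjRows (D.graph (D.rnd (List.ofFn r)))) (un a 7)
        (sim (enc ((adjRows (D.graph (D.rnd (List.ofFn r))), D.G.k), ρ.take l), List.ofFn r)) := by
    intro r ρ
    rw [Core, D.adjRows_graph _ h2]
    simp only [rnd, dat, List.length_ofFn, hD]
  rw [key0]
  refine ⟨fun hsat => ?_, fun hfar => ?_⟩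
  · obtain ⟨x, hx⟩ := sat_datT a n T hsat
    have h5 := Dat.yes H x hx
    rw [← D.pr_rnd h3 (fun o => ¬ D.HasK o D.G.k)] at h5
    have h6 := pr_prod_le (fun r : Fin T → Bool => ¬ D.HasK (D.rnd (List.ofFn r)) D.G.k)
      (fun z : (Fin T → Bool) × (Fin T → Bool) × (Fin T → Bool) =>
        ¬ (Core sim (a, (n, φ), List.ofFn z.1) (List.ofFn z.2.1) ∨
        Core sim (a, (n, φ), List.ofFn z.1) (List.ofFn z.2.2))) (1 / 9) (by norm_num) ?_
    · rw [pr_not] at h6
      linarith
    intro r hr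
    obtain ⟨l, l1, l2⟩ := hM _ _ _ H.k_pos (D.graph_bipartite _) (not_not.1 hr).contained
    have l3 : l ≤ T := by exact_mod_cast l1.trans h4
    have h7 : 2 / 3 ≤ pr fun ρ : Fin T → Bool =>
        Core sim (a, (n, φ), List.ofFn r) (List.ofFn ρ) := by
      refine le_trans ?_ (pr_mono (p := fun ρ : Fin T → Bool =>
        ∃ y, Runs M (enc ((adjRows (D.graph (D.rnd (List.ofFn r))), D.G.k), (List.ofFn ρ).take l))
          y (τ D.N D.G.k) ∧ Marks (D.graph (D.rnd (List.ofFn r))) D.G.k c' y) ?_)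
      · rw [pr_take l3 (fun ρ => ∃ y,
          Runs M (enc ((adjRows (D.graph (D.rnd (List.ofFn r))), D.G.k), ρ))
            y (τ D.N D.G.k) ∧ Marks (D.graph (D.rnd (List.ofFn r))) D.G.k c' y), pr,
          show ((Fintype.card (Fin l → Bool) : ℕ) : ℝ) = 2 ^ l by simp]
        exact l2
      · rintro ρ ⟨y, y1, y2, y3, y4⟩
        refine (key r _).2 ⟨l, by omega, ?_⟩
        rw [hs (enc _) (List.ofFn r) y (y1.mono (by simpa using h4))]
        refine ver_of_marked _ y2 ?_ y4
        have e : ((un a 7 : ℕ) : ℝ) ≤ D.G.k / c' := by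
          rw [le_div_iff₀ hc, H.k_eq]
          push_cast
          nlinarith [Nat.cast_nonneg (α := ℝ) (un a 7)]
        exact_mod_cast e.trans y3
    simp only [not_or]
    rw [pr_and (fun ρ : Fin T → Bool => ¬ Core sim (a, (n, φ), List.ofFn r) (List.ofFn ρ))
      (fun ρ : Fin T → Bool => ¬ Core sim (a, (n, φ), List.ofFn r) (List.ofFn ρ)), pr_not]
    nlinarith [pr_le_one fun ρ : Fin T → Bool => Core sim (a, (n, φ), List.ofFn r) (List.ofFn ρ)]
  · have h5 := Dat.no H hfar
    rw [← D.pr_rnd h3 (fun o => D.HasK o (un a 7))] at h5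
    refine (pr_prod_le (fun r : Fin T → Bool => D.HasK (D.rnd (List.ofFn r)) (un a 7)) _ 0 le_rfl
      fun r hr => (pr_false fun z hz => hr ?_).le).trans (by linarith)
    rcases hz with hz | hz <;> obtain ⟨l, -, hl⟩ := (key r _).1 hz <;>
      exact D.hasK_of_ver H.h_pos hl

end Pool.Agent.MP_a2da35_lc
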