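import Pool.Agent.Lib.Cx.Nat

/-!
Uniform probability on finite types.
-/

namespace Pool.Agent.MP_a2da35_lc

open Finset

noncomputable def ex {α : Type} [Fintype α] (f : α → ℝ) : ℝ := (∑ a, f a) / Fintype.card α

open Classical in
noncomputable def pr {α : Type} [Fintype α] (p : α → Prop) : ℝ :=
  ((univ.filter p).card : ℝ) / Fintype.card α

/-- Extension of a finite sequence by the default value. -/
def xt {X : Type} [Inhabited X] {N : ℕ} (ω : Fin N → X) (j : ℕ) : X :=
  if h : j < N then ω ⟨j, h⟩ else default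

theorem xt_val {X : Type} [Inhabited X] {N : ℕ} (ω : Fin N → X) (j : Fin N) : xt ω j = ω j := by
  simp [xt]

section basic

variable {α β ι : Type} [Fintype α] [Fintype β]

theorem pr_eq_ex (p : α → Prop) [DecidablePred p] :
    pr p = ex (fun a => if p a then 1 else 0) := by
  simp only [pr, ex, Finset.sum_boole]
  congr

theorem ex_mono {f g : α → ℝ} (h : ∀ a, f a ≤ g a) : ex f ≤ ex g :=
  div_le_div_of_nonneg_right (Finset.sum_le_sum fun a _ => h a) (Nat.cast_nonneg _)

theorem ex_nonneg {f : α → ℝ} (h : ∀ a, 0 ≤ f a) : 0 ≤ ex f :=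
  div_nonneg (Finset.sum_nonneg fun a _ => h a) (Nat.cast_nonneg _)

theorem ex_add (f g : α → ℝ) : ex (fun a => f a + g a) = ex f + ex g := by
  simp [ex, Finset.sum_add_distrib, add_div]

theorem ex_sub (f g : α → ℝ) : ex (fun a => f a - g a) = ex f - ex g := by
  simp [ex, Finset.sum_sub_distrib, sub_div]

theorem ex_mul_left (c : ℝ) (f : α → ℝ) : ex (fun a => c * f a) = c * ex f := by
  simp [ex, ← Finset.mul_sum, mul_div_assoc]

theorem ex_const [Nonempty α] (c : ℝ) : ex (fun _ : α => c) = c := by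
  have : (Fintype.card α : ℝ) ≠ 0 := by simp
  simp [ex]

theorem ex_const_le {c : ℝ} (hc : 0 ≤ c) : ex (fun _ : α => c) ≤ c := by
  cases isEmpty_or_nonempty α with
  | inl h => simpa [ex] using hc
  | inr h => exact (ex_const c).le

theorem ex_sum (T : Finset ι) (f : ι → α → ℝ) :
    ex (fun a => ∑ j ∈ T, f j a) = ∑ j ∈ T, ex (f j) := by
  simp only [ex]
  rw [Finset.sum_comm, Finset.sum_div]

theorem ex_prod_type (f : α × β → ℝ) : ex f = ex (fun a => ex (fun b => f (a, b))) := by
  simp only [ex, Fintype.sum_prod_type, Fintype.card_prod, Nat.cast_mul, ← Finset.sum_div]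
  rw [div_div, mul_comm]

theorem ex_equiv (e : α ≃ β) (f : β → ℝ) : ex (fun a => f (e a)) = ex f := by
  simp only [ex]
  rw [Equiv.sum_comp e f, Fintype.card_congr e]

theorem pr_nonneg (p : α → Prop) : 0 ≤ pr p := by
  unfold pr; positivity

theorem pr_le_one (p : α → Prop) : pr p ≤ 1 := by
  classical
  rw [pr_eq_ex]
  refine (ex_mono (g := fun _ => 1) fun a => ?_).trans (ex_const_le zero_le_one)
  split_ifs <;> norm_num

theorem pr_le_ex {p : α → Prop} {f : α → ℝ} (h0 : ∀ a, 0 ≤ f a) (h1 : ∀ a, p a → 1 ≤ f a) :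
    pr p ≤ ex f := by
  classical
  rw [pr_eq_ex]
  refine ex_mono fun a => ?_
  split_ifs with h
  exacts [h1 a h, h0 a]

theorem pr_mono {p q : α → Prop} (h : ∀ a, p a → q a) : pr p ≤ pr q := by
  classical
  rw [pr_eq_ex q]
  refine pr_le_ex (fun a => ?_) fun a ha => ?_
  · split_ifs <;> norm_num
  · rw [if_pos (h a ha)]

theorem pr_congr {p q : α → Prop} (h : ∀ a, p a ↔ q a) : pr p = pr q := by
  rw [show p = q from funext fun a => propext (h a)]

theorem pr_or (p q : α → Prop) : pr (fun a => p a ∨ q a) ≤ pr p + pr q := by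
  classical
  rw [pr_eq_ex p, pr_eq_ex q, ← ex_add]
  refine pr_le_ex (fun a => ?_) fun a ha => ?_
  · split_ifs <;> norm_num
  · split_ifs <;> simp_all

theorem pr_not [Nonempty α] (p : α → Prop) : pr (fun a => ¬ p a) = 1 - pr p := by
  classical
  rw [pr_eq_ex p, pr_eq_ex, ← ex_const (α := α) 1, ← ex_sub]
  congr 1
  funext a
  by_cases h : p a <;> simp [h, ex_const]

theorem pr_false {p : α → Prop} (h : ∀ a, ¬ p a) : pr p = 0 := by
  simp [pr, h]

theorem pr_exists_le (T : Finset ι) (p : ι → α → Prop) :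
    pr (fun a => ∃ j ∈ T, p j a) ≤ ∑ j ∈ T, pr (p j) := by
  classical
  simp only [fun j => pr_eq_ex (p j)]
  rw [← ex_sum]
  have h0 : ∀ a, ∀ j ∈ T, (0 : ℝ) ≤ if p j a then 1 else 0 := fun a j _ => by
    split_ifs <;> norm_num
  refine pr_le_ex (fun a => Finset.sum_nonneg (h0 a)) ?_
  rintro a ⟨j, hj, ha⟩
  have := Finset.single_le_sum (h0 a) hj
  rwa [if_pos ha] at this

theorem pr_exists_le' (T : Finset ι) (p : ι → α → Prop) (η : ℝ) (h : ∀ j ∈ T, pr (p j) ≤ η) :
    pr (fun a => ∃ j ∈ T, p j a) ≤ T.card * η := by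
  refine (pr_exists_le T p).trans ?_
  simpa using Finset.sum_le_card_nsmul T _ η h

theorem pr_prod_type (q : α × β → Prop) : pr q = ex (fun a => pr (fun b => q (a, b))) := by
  classical
  simp only [pr_eq_ex]
  rw [ex_prod_type]

/-- Conditioning on the first coordinate. -/
theorem pr_prod_le (bad : α → Prop) (q : α × β → Prop) (η : ℝ) (hη : 0 ≤ η)
    (h : ∀ a, ¬ bad a → pr (fun b => q (a, b)) ≤ η) : pr q ≤ pr bad + η := by
  classical
  rw [pr_prod_type, pr_eq_ex bad]
  refine le_trans (ex_mono (g := fun a => (if bad a then 1 else 0) + η) fun a => ?_) ?_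
  · split_ifs with ha
    · linarith [pr_le_one (fun b => q (a, b))]
    · simpa using h a ha
  · rw [ex_add]
    linarith [ex_const_le (α := α) hη]

theorem pr_equiv (e : α ≃ β) (p : β → Prop) : pr (fun a => p (e a)) = pr p := by
  classical
  rw [pr_eq_ex, pr_eq_ex, ← ex_equiv e]

theorem ex_prod [Fintype ι] [DecidableEq ι] (f : ι → α → ℝ) :
    ex (fun ω : ι → α => ∏ j, f j (ω j)) = ∏ j, ex (f j) := by
  simp only [ex]
  rw [Finset.prod_div_distrib, Finset.prod_univ_sum]
  simp

end basic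

section indep

variable {X : Type} [Fintype X] [Inhabited X] {N : ℕ}

theorem ex_prod_xt (T : Finset ℕ) (hT : ∀ j ∈ T, j < N) (f : ℕ → X → ℝ) :
    ex (fun ω : Fin N → X => ∏ j ∈ T, f j (xt ω j)) = ∏ j ∈ T, ex (f j) := by
  have key : ∀ F : ℕ → ℝ, ∏ j ∈ T, F j = ∏ j : Fin N, if (j : ℕ) ∈ T then F j else 1 := by
    intro F
    rw [Fin.prod_univ_eq_prod_range (fun j => if j ∈ T then F j else 1), Finset.prod_ite_mem,
      Finset.inter_eq_right.2 (fun j hj => mem_range.2 (hT j hj))]
  simp only [key, xt_val]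
  rw [ex_prod (fun (j : Fin N) x => if (j : ℕ) ∈ T then f j x else 1)]
  refine Finset.prod_congr rfl fun j _ => ?_
  split_ifs
  · rfl
  · exact ex_const 1

theorem pr_all (T : Finset ℕ) (hT : ∀ j ∈ T, j < N) (p : ℕ → X → Prop) :
    pr (fun ω : Fin N → X => ∀ j ∈ T, p j (xt ω j)) = ∏ j ∈ T, pr (p j) := by
  classical
  simp only [pr_eq_ex]
  rw [← ex_prod_xt T hT]
  congr 1
  funext ω
  rw [Finset.prod_ite_zero]
  simp

open Classical in
theorem ex_exp_count (T : Finset ℕ) (hT : ∀ j ∈ T, j < N) (p : ℕ → X → Prop) (s : ℝ) :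
    ex (fun ω : Fin N → X => Real.exp (s * (T.filter fun j => p j (xt ω j)).card)) =
      ∏ j ∈ T, (1 + (Real.exp s - 1) * pr (p j)) := by
  have h1 : ∀ j, 1 + (Real.exp s - 1) * pr (p j) =
      ex (fun x => if p j x then Real.exp s else 1) := by
    intro j
    rw [pr_eq_ex, ← ex_mul_left, ← ex_const (α := X) 1, ← ex_add]
    congr 1
    funext x
    split_ifs <;> simp [ex_const]
  simp only [h1]
  rw [← ex_prod_xt T hT]
  congr 1
  funext ω
  rw [Finset.prod_ite, Finset.prod_const, Finset.prod_const_one, mul_one, mul_comm,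
    Real.exp_nat_mul]

open Classical in
theorem tail_up (T : Finset ℕ) (hT : ∀ j ∈ T, j < N) (p : ℕ → X → Prop) (μ a : ℝ)
    (hp : ∀ j ∈ T, pr (p j) ≤ μ) :
    pr (fun ω : Fin N → X => a ≤ ((T.filter fun j => p j (xt ω j)).card : ℝ)) ≤
      Real.exp (2 * μ * T.card - a) := by
  refine (pr_le_ex (f := fun ω => Real.exp (-a) *
    Real.exp (1 * (T.filter fun j => p j (xt ω j)).card)) (fun ω => by positivity)
    fun ω h => ?_).trans ?_
  · rw [← Real.exp_add]
    exact Real.one_le_exp (by linarith)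
  rw [ex_mul_left, ex_exp_count T hT, sub_eq_neg_add _ a, Real.exp_add]
  refine mul_le_mul_of_nonneg_left ?_ (Real.exp_pos _).le
  rw [mul_comm, Real.exp_nat_mul, ← Finset.prod_const]
  have he := Real.exp_one_lt_d9
  have he' := Real.add_one_le_exp (1 : ℝ)
  refine Finset.prod_le_prod (fun j _ => ?_) fun j hj => ?_
  · have := pr_nonneg (p j)
    nlinarith
  · have := pr_nonneg (p j)
    have := hp j hj
    have := Real.add_one_le_exp (2 * μ)
    nlinarith

open Classical in
theorem tail_lo (T : Finset ℕ) (hT : ∀ j ∈ T, j < N) (p : ℕ → X → Prop) (μ a : ℝ)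
    (hp : ∀ j ∈ T, μ ≤ pr (p j)) :
    pr (fun ω : Fin N → X => ((T.filter fun j => p j (xt ω j)).card : ℝ) ≤ a) ≤
      Real.exp (a - μ * T.card / 2) := by
  refine (pr_le_ex (f := fun ω => Real.exp a *
    Real.exp (-1 * (T.filter fun j => p j (xt ω j)).card)) (fun ω => by positivity)
    fun ω h => ?_).trans ?_
  · rw [← Real.exp_add]
    exact Real.one_le_exp (by linarith)
  rw [ex_mul_left, ex_exp_count T hT, sub_eq_add_neg a, Real.exp_add]
  refine mul_le_mul_of_nonneg_left ?_ (Real.exp_pos _).le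
  rw [show -(μ * T.card / 2) = T.card * (-(μ / 2)) by ring, Real.exp_nat_mul, ← Finset.prod_const]
  have he : Real.exp (-1) ≤ 1 / 2 := by
    rw [Real.exp_neg, inv_eq_one_div]
    exact one_div_le_one_div_of_le (by norm_num) (by linarith [Real.add_one_le_exp (1 : ℝ)])
  have he' := Real.exp_pos (-1 : ℝ)
  refine Finset.prod_le_prod (fun j _ => ?_) fun j hj => ?_
  · have := pr_nonneg (p j)
    have := pr_le_one (p j)
    nlinarith
  · have := pr_nonneg (p j)
    have := hp j hj
    have := Real.add_one_le_exp (-(μ / 2))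
    nlinarith

open Classical in
theorem tail_choose (p : X → Prop) (μ : ℝ) (hp : pr p ≤ μ) (h : ℕ) :
    pr (fun ω : Fin N → X => h ≤ ((range N).filter fun j => p (xt ω j)).card) ≤ (N * μ) ^ h := by
  have h0 := pr_nonneg p
  refine le_trans (pr_mono (q := fun ω => ∃ T ∈ powersetCard h (range N), ∀ j ∈ T, p (xt ω j))
    fun ω hω => ?_) ((pr_exists_le' _ _ (μ ^ h) fun T hT => ?_).trans ?_)
  · obtain ⟨T, h1, h2⟩ := Finset.exists_subset_card_eq hω
    exact ⟨T, mem_powersetCard.2 ⟨h1.trans (filter_subset _ _), h2⟩,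
      fun j hj => (mem_filter.1 (h1 hj)).2⟩
  · obtain ⟨h1, h2⟩ := mem_powersetCard.1 hT
    rw [pr_all T (fun j hj => mem_range.1 (h1 hj)) (fun _ => p), Finset.prod_const, h2]
    exact pow_le_pow_left₀ h0 hp h
  · rw [card_powersetCard, card_range, mul_pow]
    refine mul_le_mul_of_nonneg_right ?_ (pow_nonneg (h0.trans hp) h)
    exact_mod_cast Nat.choose_le_pow N h

/-- Second moment method. -/
theorem second_moment {Z : Type} [Fintype Z] [Nonempty Z] (F : Z → Finset ℕ) (k : ℕ)
    (hF : ∀ z, ∀ j ∈ F z, j < N) (hk : ∀ z, (F z).card = k) (p : X → Prop) (hp : 0 < pr p) :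
    pr (fun ω : Fin N → X => ∀ z, ¬ ∀ j ∈ F z, p (xt ω j)) ≤
      ex (fun z : Z × Z => (1 / pr p) ^ (F z.1 ∩ F z.2).card) - 1 := by
  classical
  set π := pr p with hπ
  let I : Z → (Fin N → X) → ℝ := fun z ω => if ∀ j ∈ F z, p (xt ω j) then (1 / π) ^ k else 0
  have h1 : ∀ z, ex (I z) = 1 := by
    intro z
    have : I z = fun ω => (1 / π) ^ k * if ∀ j ∈ F z, p (xt ω j) then 1 else 0 := by
      funext ω; simp [I]
    rw [this, ex_mul_left]
    have e := pr_all (F z) (hF z) (fun _ => p)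
    rw [pr_eq_ex] at e
    rw [show (ex fun ω : Fin N → X => if ∀ j ∈ F z, p (xt ω j) then (1 : ℝ) else 0) = π ^ k by
      rw [← hk z, ← Finset.prod_const, ← e], ← mul_pow, one_div_mul_cancel hp.ne', one_pow]
  have h2 : ∀ z z', ex (fun ω => I z ω * I z' ω) = (1 / π) ^ (F z ∩ F z').card := by
    intro z z'
    have : (fun ω => I z ω * I z' ω) = fun ω => (1 / π) ^ (k + k) *
        if ∀ j ∈ F z ∪ F z', p (xt ω j) then 1 else 0 := by
      funext ω
      simp only [I, Finset.forall_mem_union]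
      by_cases a : ∀ j ∈ F z, p (xt ω j) <;> by_cases b : ∀ j ∈ F z', p (xt ω j)
      · rw [if_pos a, if_pos b, if_pos ⟨a, b⟩, pow_add, mul_one]
      · rw [if_neg b, if_neg (fun h : _ ∧ _ => b h.2), mul_zero, mul_zero]
      · rw [if_neg a, if_neg (fun h : _ ∧ _ => a h.1), zero_mul, mul_zero]
      · rw [if_neg a, if_neg (fun h : _ ∧ _ => a h.1), zero_mul, mul_zero]
    rw [this, ex_mul_left]
    have e := pr_all (F z ∪ F z') (fun j hj => (mem_union.1 hj).elim (hF z j) (hF z' j))
      (fun _ => p)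
    rw [pr_eq_ex] at e
    rw [show (ex fun ω : Fin N → X => if ∀ j ∈ F z ∪ F z', p (xt ω j) then (1 : ℝ) else 0) =
      π ^ (F z ∪ F z').card by rw [← Finset.prod_const, ← e]]
    have hc := Finset.card_union_add_card_inter (F z) (F z')
    rw [hk, hk] at hc
    rw [← hc, pow_add, mul_right_comm, ← mul_pow, one_div_mul_cancel hp.ne', one_pow, one_mul]
  let Y : (Fin N → X) → ℝ := fun ω => ex (fun z => I z ω)
  have hc : (Fintype.card Z : ℝ) ≠ 0 := by simp
  have h3 : ex Y = 1 := by
    have : Y = fun ω => (Fintype.card Z : ℝ)⁻¹ * ∑ z, I z ω := by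
      funext ω; simp [Y, ex, div_eq_inv_mul]
    rw [this, ex_mul_left, ex_sum]
    simp [h1]
  have h4 : ex (fun ω => Y ω * Y ω) =
      ex (fun z : Z × Z => (1 / π) ^ (F z.1 ∩ F z.2).card) := by
    have : (fun ω => Y ω * Y ω) = fun ω => (Fintype.card (Z × Z) : ℝ)⁻¹ *
        ∑ z : Z × Z, I z.1 ω * I z.2 ω := by
      funext ω
      simp only [Y, ex, Fintype.sum_prod_type, ← Finset.sum_mul_sum, Fintype.card_prod,
        Nat.cast_mul]
      field_simp
    rw [this, ex_mul_left, ex_sum]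
    simp only [h2]
    rw [ex, div_eq_inv_mul (∑ _, _)]
  refine (pr_le_ex (f := fun ω => (Y ω * Y ω - 2 * Y ω) + 1)
    (fun ω => by nlinarith [sq_nonneg (Y ω - 1)]) fun ω hω => ?_).trans ?_
  · have : Y ω = 0 := by simp [Y, I, ex, hω]
    simp [this]
  · rw [ex_add, ex_sub, ex_mul_left, h3, h4, ex_const]
    linarith

open Classical in
theorem ex_agree {Y : Type} [Fintype Y] [Nonempty Y] (ν : ℕ) (θ : ℝ) (hθ : 1 ≤ θ)
    (hY : θ ^ 2 ≤ Fintype.card Y) :
    ex (fun z : (Fin ν → Y) × (Fin ν → Y) =>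
      θ ^ (univ.filter fun m => z.1 m = z.2 m).card) ≤ Real.exp (ν / θ) := by
  rw [← ex_equiv (Equiv.arrowProdEquivProdArrow (Fin ν) (fun _ => Y) (fun _ => Y))]
  have h1 : ∀ ω : Fin ν → Y × Y, θ ^ (univ.filter fun m => (ω m).1 = (ω m).2).card =
      ∏ m, if (ω m).1 = (ω m).2 then θ else 1 := by
    intro ω
    rw [Finset.prod_ite, Finset.prod_const, Finset.prod_const_one, mul_one]
  have h2 : ex (fun y : Y × Y => if y.1 = y.2 then θ else 1) ≤ Real.exp (1 / θ) := by
    have hc : (0 : ℝ) < Fintype.card Y := by exact_mod_cast Fintype.card_pos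
    have e : ex (fun y : Y × Y => if y.1 = y.2 then θ else 1) = 1 + (θ - 1) / Fintype.card Y := by
      rw [ex_prod_type, ← ex_const (α := Y) (1 + (θ - 1) / Fintype.card Y)]
      congr 1
      funext a
      have : (fun b : Y => if a = b then θ else 1) =
          fun b => 1 + if a = b then θ - 1 else 0 := by
        funext b; split_ifs <;> ring
      simp only [this]
      rw [ex_add, ex_const]
      simp [ex]
    rw [e]
    refine le_trans ?_ (Real.add_one_le_exp _)
    rw [add_comm, add_le_add_iff_right, div_le_div_iff₀ hc (by linarith)]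
    nlinarith
  refine le_trans (le_of_eq ?_) (le_trans (Finset.prod_le_prod (s := univ)
    (f := fun _ : Fin ν => ex (fun y : Y × Y => if y.1 = y.2 then θ else 1))
    (fun _ _ => ex_nonneg fun y => by split_ifs <;> linarith) fun _ _ => h2) (le_of_eq ?_))
  · rw [← ex_prod]
    congr 1
    funext ω
    exact h1 ω
  · rw [Finset.prod_const, ← Real.exp_nat_mul]
    simp [div_eq_mul_inv]

end indep

instance (W : ℕ) : Inhabited (Fin (2 ^ W)) := ⟨⟨0, Nat.two_pow_pos W⟩⟩

/-- Entry `j` of a finite sequence of blocks, as a number. -/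
def nx {W N : ℕ} (ω : Fin N → Fin (2 ^ W)) (j : ℕ) : ℕ := (xt ω j).val

theorem pr_fin (N : ℕ) (p : ℕ → Prop) [DecidablePred p] :
    pr (fun x : Fin N => p x) = (((range N).filter p).card : ℝ) / N := by
  rw [pr_eq_ex, ex, Fintype.card_fin, Fin.sum_univ_eq_sum_range (fun j => if p j then 1 else 0),
    Finset.sum_boole]

theorem card_mod {N m j : ℕ} (hj : j < m) :
    N / m ≤ ((range N).filter fun x => x % m = j).card ∧
      ((range N).filter fun x => x % m = j).card ≤ N / m + 1 := by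
  have h := Nat.count_modEq_card N (by omega : 0 < m) j
  rw [Nat.count_eq_card_filter_range] at h
  simp only [Nat.ModEq, Nat.mod_eq_of_lt hj] at h
  rw [h]
  split_ifs <;> omega

theorem pr_mod_pow {W b : ℕ} (hb : b ≤ W) :
    pr (fun x : Fin (2 ^ W) => (x : ℕ) % 2 ^ b = 0) = 1 / 2 ^ b := by
  rw [pr_fin (2 ^ W) (fun x => x % 2 ^ b = 0)]
  have h := Nat.count_modEq_card (2 ^ W) (Nat.two_pow_pos b) 0
  rw [Nat.count_eq_card_filter_range] at h
  obtain ⟨d, rfl⟩ := Nat.exists_eq_add_of_le hb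
  simp only [Nat.ModEq, Nat.zero_mod, pow_add, Nat.mul_mod_right, lt_self_iff_false, if_false,
    Nat.mul_div_cancel_left _ (Nat.two_pow_pos b), add_zero] at h
  rw [pow_add, h]
  push_cast
  field_simp

theorem pr_mod_le {W m : ℕ} (hm : 0 < m) (hW : m ≤ 2 ^ W) (j : ℕ) :
    pr (fun x : Fin (2 ^ W) => (x : ℕ) % m = j) ≤ 2 / m := by
  by_cases hj : j < m
  · rw [pr_fin (2 ^ W) (fun x => x % m = j), div_le_div_iff₀ (by positivity) (by positivity)]
    have h1 := (card_mod (N := 2 ^ W) hj).2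
    have h2 := Nat.div_mul_le_self (2 ^ W) m
    have h3 : ((range (2 ^ W)).filter fun x => x % m = j).card * m ≤ 2 * 2 ^ W := by nlinarith
    exact_mod_cast h3
  · rw [pr_false fun (x : Fin (2 ^ W)) (hx : (x : ℕ) % m = j) => hj (hx ▸ Nat.mod_lt _ hm)]
    positivity

open Classical in
theorem le_pr_mod {W m : ℕ} (hm : 0 < m) (hW : m ≤ 2 ^ W) (p : ℕ → Prop) :
    (((range m).filter p).card : ℝ) / (2 * m) ≤ pr (fun x : Fin (2 ^ W) => p ((x : ℕ) % m)) := by
  rw [pr_fin (2 ^ W) (fun x => p (x % m)), div_le_div_iff₀ (by positivity) (by positivity)]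
  have h1 : ((range m).filter p).card * (2 ^ W / m) ≤
      ((range (2 ^ W)).filter fun x => p (x % m)).card := by
    rw [Finset.card_eq_sum_card_fiberwise (f := fun x => x % m) (t := (range m).filter p)
      (s := (range (2 ^ W)).filter fun x => p (x % m)) (fun x hx => by
        simp only [coe_filter, mem_range, Set.mem_ofPred_eq] at hx ⊢
        exact ⟨Nat.mod_lt _ hm, hx.2⟩), ← smul_eq_mul]
    refine Finset.card_nsmul_le_sum _ _ _ fun j hj => ?_
    obtain ⟨hj1, hj2⟩ := mem_filter.1 hj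
    refine (card_mod (N := 2 ^ W) (mem_range.1 hj1)).1.trans (card_le_card fun x hx => ?_)
    simp only [mem_filter] at hx ⊢
    exact ⟨⟨hx.1, hx.2 ▸ hj2⟩, hx.2⟩
  have h2 : 2 ^ W ≤ 2 ^ W / m * (2 * m) := by
    have := Nat.div_add_mod (2 ^ W) m
    have := Nat.mod_lt (2 ^ W) hm
    have := Nat.div_pos hW hm
    nlinarith
  have h3 : ((range m).filter p).card * 2 ^ W ≤
      ((range (2 ^ W)).filter fun x => p (x % m)).card * (2 * m) :=
    (Nat.mul_le_mul_left _ h2).trans (by rw [← mul_assoc]; exact Nat.mul_le_mul_right _ h1)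
  exact_mod_cast h3

/-- Block `j` of width `W` of the tape, read as a number. -/
def blk (r : List Bool) (W j : ℕ) : ℕ := Lib.Cx.ofBits ((r.drop (j * W)).take W)

theorem ofBits_lt (l : List Bool) : Lib.Cx.ofBits l < 2 ^ l.length :=
  Lib.Cx.size_nat_le_iff.1 (Lib.Cx.size_ofBits_le l)

theorem blk_lt (r : List Bool) (W j : ℕ) : blk r W j < 2 ^ W :=
  (ofBits_lt _).trans_le (Nat.pow_le_pow_right (by norm_num) (List.length_take_le _ _))

theorem ofBits_inj {l l' : List Bool} (h : l.length = l'.length)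
    (e : Lib.Cx.ofBits l = Lib.Cx.ofBits l') : l = l' := by
  induction l generalizing l' with
  | nil => exact (List.length_eq_zero_iff.1 h.symm).symm
  | cons a l ih =>
    cases l' with
    | nil => simp at h
    | cons b l' =>
      simp only [Lib.Cx.ofBits_cons, Lib.Cx.bit_val'] at e
      have : a = b := by cases a <;> cases b <;> simp at e ⊢ <;> omega
      subst this
      rw [ih (by simpa using h) (by omega)]

theorem pr_restrict {A B Y : Type} [Fintype A] [Fintype B] [DecidableEq A] [DecidableEq B]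
    [Fintype Y] [Nonempty Y] (ι : A → B) (hι : Function.Injective ι) (p : (A → Y) → Prop) :
    pr (fun r : B → Y => p fun a => r (ι a)) = pr p := by
  classical
  let e1 := Equiv.piEquivPiSubtypeProd (fun b => b ∈ Set.range ι) (fun _ => Y)
  let e2 : (A → Y) ≃ ({b // b ∈ Set.range ι} → Y) :=
    Equiv.arrowCongr (Equiv.ofInjective ι hι) (Equiv.refl Y)
  rw [← pr_equiv e1.symm, pr_prod_type, ← ex_equiv e2, pr_eq_ex p]
  congr 1
  funext a
  have : ∀ b, (fun x => e1.symm (e2 a, b) (ι x)) = a := by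
    intro b
    funext x
    simp [e1, e2, Equiv.piEquivPiSubtypeProd]
  simp only [this]
  rw [pr_eq_ex, ex_const]

/-- Distinct blocks of a uniform tape are uniform and independent. -/
theorem pr_blocks {J : Type} [Fintype J] [DecidableEq J] (T W : ℕ) (ι : J → ℕ)
    (hι : Function.Injective ι) (hT : ∀ j, (ι j + 1) * W ≤ T) (p : (J → Fin (2 ^ W)) → Prop) :
    pr (fun r : Fin T → Bool => p fun j => ⟨blk (List.ofFn r) W (ι j), blk_lt _ _ _⟩) = pr p := by
  let f : (Fin W → Bool) → Fin (2 ^ W) := fun x =>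
    ⟨Lib.Cx.ofBits (List.ofFn x), by simpa using ofBits_lt (List.ofFn x)⟩
  have hf : Function.Bijective f := by
    rw [Fintype.bijective_iff_injective_and_card]
    refine ⟨fun x y h => List.ofFn_injective (ofBits_inj (by simp) (congrArg Fin.val h)), by simp⟩
  let e : (J × Fin W → Bool) ≃ (J → Fin (2 ^ W)) :=
    (Equiv.curry J (Fin W) Bool).trans (Equiv.piCongrRight fun _ => Equiv.ofBijective f hf)
  let κ : J × Fin W → Fin T := fun q => ⟨ι q.1 * W + q.2, by
    have := hT q.1
    have := q.2.2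
    nlinarith⟩
  have hκ : Function.Injective κ := by
    rintro ⟨a, b⟩ ⟨a', b'⟩ h
    have h1 : ι a * W + b = ι a' * W + b' := congrArg Fin.val h
    have hW : 0 < W := b.pos
    have h2 : ι a = ι a' := by
      have := congrArg (· / W) h1
      simp only [mul_comm _ W, Nat.mul_add_div hW, Nat.div_eq_of_lt b.2,
        Nat.div_eq_of_lt b'.2] at this
      omega
    rw [h2] at h1
    rw [hι h2, Fin.ext (Nat.add_left_cancel h1)]
  rw [← pr_equiv e p, ← pr_restrict κ hκ]
  congr 1
  funext r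
  congr 1
  funext j
  refine Fin.ext ?_
  change blk _ _ _ = Lib.Cx.ofBits (List.ofFn fun l => r (κ (j, l)))
  unfold blk
  congr 1
  have := hT j
  refine List.ext_getElem (by rw [add_mul] at this; simp; omega) fun l h1 h2 => ?_
  simp [κ]

end Pool.Agent.MP_a2da35_lc
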