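import Pool.Agent.MP_a2da35_lc.GadDefs
import Pool.Agent.MP_a2da35_lc.Pr

/-!
The random bipartite graph built from a gadget and a formula.
-/

namespace Pool.Agent.MP_a2da35_lc

open Finset

/-- Gadget, formula (`m` clauses on `n` variables) and two parameters. -/
structure Dat where
  G : Gad
  n : ℕ
  m : ℕ
  var : ℕ → ℕ → ℕ
  sgn : ℕ → ℕ → Bool
  d : ℕ
  Γ : ℕ

/-- The random numbers. -/
structure Rnd where
  o1 : ℕ → ℕ → ℕ
  o2 : ℕ → ℕ
  o3 : ℕ → ℕ → ℕ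

namespace Dat

variable (D : Dat)

def B : ℕ := D.n / D.G.k1 + 1
def cap : ℕ := 1500 * (D.n / D.G.ν + 1)
def s0 : ℕ := D.G.t * D.cap / D.G.β + 1
def s : ℕ := 2 * D.s0
def M : ℕ := D.G.QA ^ D.s
def MS : ℕ := D.G.QS ^ D.s
def b1 : ℕ := D.G.β * D.G.w * D.s0 / (2 * D.G.t)
def b : ℕ := D.Γ * (D.d * D.s + 20 * D.G.k * (2 * D.G.k + 6)) / D.G.ν + 1
def Rn : ℕ := (2 * D.G.k + 6) * 2 ^ (D.b * D.G.ν)
def W : ℕ := D.n + D.b1 + D.b
def N : ℕ := D.G.k * D.M + D.Rn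
/-- Number of requests: three for each of the `B` samples of each class. -/
def nq : ℕ := 3 * (D.G.k * D.B)

/-- Number of occurrences of variable `u`. -/
def deg (u : ℕ) : ℕ := ((List.range (3 * D.m)).filter fun p => D.var (p / 3) (p % 3) = u).length
/-- Number of clones of variable `u`. -/
def dn (u : ℕ) : ℕ := D.n * D.deg u / (3 * D.m) + 1
/-- The first clone of variable `u`. -/
def off (u : ℕ) : ℕ := ((List.range (min u D.n)).map D.dn).sum
/-- The clause chosen by a sample. -/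
def cl (e : ℕ → ℕ) : ℕ := e 3 % D.m
def uu (e : ℕ → ℕ) (c : ℕ) : ℕ := D.var (D.cl e) c
/-- The clone chosen by a sample for position `c`. -/
def yy (e : ℕ → ℕ) (c : ℕ) : ℕ := D.off (D.uu e c) + e c % D.dn (D.uu e c)

def cls (q : ℕ) : ℕ := q / 3 / D.B
def y (o : Rnd) (q : ℕ) : ℕ := D.yy (o.o1 (q / 3)) (q % 3)
def cell (o : Rnd) (q : ℕ) : ℕ := D.G.route (D.cls q) (D.y o q % D.G.ν)
def slot (o : Rnd) (q : ℕ) : ℕ :=
  ((List.range (min q D.nq)).filter fun q' => D.cell o q' = D.cell o q).length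
/-- Raw bit number `p` of a symbol. -/
def bit (a p : ℕ) : Bool := D.G.raw (dig D.G.QS D.s (p / D.G.β) a) (p % D.G.β)
/-- The value that label `l` of class `i` gives to request `q`. -/
def rd (o : Rnd) (i l q : ℕ) : Bool := D.bit (D.G.symN D.s i (D.cell o q) l) (D.slot o q)

def Valid (o : Rnd) (i l : ℕ) : Prop :=
  (∀ a < D.G.k * D.B, a / D.B = i → ∃ c < 3, D.rd o i l (3 * a + c) = D.sgn (D.cl (o.o1 a)) c) ∧
  ∀ q < D.nq, ∀ q' < D.nq, D.G.inc i (D.cell o q) = true → D.G.inc i (D.cell o q') = true →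
    D.y o q = D.y o q' → D.rd o i l q = D.rd o i l q'

def Kept (o : Rnd) (u : ℕ) : Prop := o.o2 u % 2 ^ D.b1 = 0

/-- The token of left vertex `u` in cell `m`. -/
def tok (u m : ℕ) : ℕ := m * D.MS + D.G.symN D.s (u / D.M) m (u % D.M)

def AdjLR (o : Rnd) (u v : ℕ) : Prop :=
  D.Valid o (u / D.M) (u % D.M) ∧ D.Kept o u ∧
    ∀ m < D.G.ν, D.G.inc (u / D.M) m = true → o.o3 v (D.tok u m) % 2 ^ D.b = 0

def HasK (o : Rnd) (a : ℕ) : Prop :=
  ∃ A B : Finset ℕ, A.card = a ∧ B.card = a ∧ (∀ u ∈ A, u < D.G.k * D.M) ∧ (∀ v ∈ B, v < D.Rn) ∧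
    ∀ u ∈ A, ∀ v ∈ B, D.AdjLR o u v

abbrev Ω1 : Type := Fin (D.G.k * D.B) → Fin 4 → Fin (2 ^ D.W)
abbrev Ω2 : Type := Fin (D.G.k * D.M) → Fin (2 ^ D.W)
abbrev Ω3 : Type := Fin D.Rn → Fin (D.G.ν * D.MS) → Fin (2 ^ D.W)

def mk3 (ω1 : D.Ω1) (ω2 : D.Ω2) (ω3 : D.Ω3) : Rnd where
  o1 a := nx (xt ω1 a)
  o2 := nx ω2
  o3 v := nx (xt ω3 v)

/-- The formula is well formed and not too long. -/
structure Wf : Prop where
  m_pos : 0 < D.m
  n_pos : 0 < D.n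
  m_le : D.m ≤ 2 ^ D.n
  var_lt : ∀ j < D.m, ∀ c < 3, D.var j c < D.n

/-- All the requirements on the parameters. -/
structure Good (c E h g R : ℕ) : Prop where
  wf : D.Wf
  geo : D.G.Geo
  code : D.G.Code h g
  c_pos : 0 < c
  E_pos : 0 < E
  R_pos : 0 < R
  QA_eq : D.G.QA = 2 ^ D.d
  d_eq : D.d = R * D.G.w * D.G.β
  g_ge : 12 * R * D.G.t ≤ g
  Γ_eq : D.Γ = 393216000 * c * E
  t_eq : D.G.t = 2048 * c * D.Γ
  k_eq : D.G.k = c * h
  big : 2 * (D.G.k + D.G.ν) ^ 2 ≤ D.n / D.G.ν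

open Classical in
/-- Every assignment violates at least a `1 / E` fraction of the clauses. -/
def IsFar (E : ℕ) : Prop :=
  ∀ a : ℕ → Bool, D.m ≤ E * ((range D.m).filter fun j => ∀ c < 3, a (D.var j c) ≠ D.sgn j c).card

/-- No class sends too many requests to one cell. -/
def Load (o : Rnd) : Prop :=
  ∀ i < D.G.k, ∀ m, ((range D.nq).filter fun q => D.cls q = i ∧ D.cell o q = m).card ≤ D.cap

open Classical in
/-- Every assignment of the clones violates many samples of every large set of classes. -/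
def Viol (c E : ℕ) (o : Rnd) : Prop :=
  ∀ val : ℕ → Bool, ∀ I ⊆ range D.G.k, D.G.k ≤ 1024 * c * I.card →
    D.B * I.card ≤ 64 * E * ((range (D.G.k * D.B)).filter fun a => a / D.B ∈ I ∧
      ∀ p < 3, val (D.yy (o.o1 a) p) ≠ D.sgn (D.cl (o.o1 a)) p).card

end Dat

end Pool.Agent.MP_a2da35_lc
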