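import Pool.Agent.MP_a2da35_lc.GadDefs

/-!
Lower bounds for the number of (cell, symbol) pairs used by a set of labels.
-/

namespace Pool.Agent.MP_a2da35_lc

open Finset

namespace Gad

variable (G : Gad)

/-- The (cell, symbol) pairs used by the pairs (class, label) in `P`. -/
def cov (sy : ℕ → ℕ → ℕ → ℕ) (P : Finset (ℕ × ℕ)) : Finset (ℕ × ℕ) :=
  P.biUnion fun p => (G.cells p.1).image fun m => (m, sy p.1 m p.2)

open Classical in
/-- Cells on which two of the labels `lam i`, `i ∈ I`, disagree. -/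
noncomputable def conf (sy : ℕ → ℕ → ℕ → ℕ) (I : Finset ℕ) (lam : ℕ → ℕ) : Finset ℕ :=
  (range G.ν).filter fun m => ∃ i ∈ I, ∃ o ∈ I, m ∈ G.cells i ∧ m ∈ G.cells o ∧
    sy i m (lam i) ≠ sy o m (lam o)

variable {G}

theorem cover_cells_sub (i : ℕ) : G.cells i ⊆ range G.ν := filter_subset _ _

theorem cover_fib_sum (C : Finset (ℕ × ℕ)) (n : ℕ) :
    ∑ m ∈ range n, (C.filter fun p => p.1 = m).card ≤ C.card := by
  rw [sum_card_fiberwise_eq_card_filter]
  exact card_filter_le _ _

theorem cover_fib (sy : ℕ → ℕ → ℕ → ℕ) (P : Finset (ℕ × ℕ)) {i m : ℕ} (hm : m ∈ G.cells i) :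
    (((P.filter fun p => p.1 = i).image Prod.snd).image (sy i m)).card ≤
      ((G.cov sy P).filter fun p => p.1 = m).card := by
  refine card_le_card_of_injOn (fun a => (m, a)) ?_ fun a _ b _ h => (Prod.mk.inj h).2
  intro a ha
  simp only [coe_image, Set.mem_image, mem_coe, mem_filter] at ha
  obtain ⟨l, ⟨p, ⟨hp, rfl⟩, rfl⟩, rfl⟩ := ha
  simp only [coe_filter, cov, mem_biUnion, mem_image, Set.mem_ofPred_eq, and_true]
  exact ⟨p, hp, m, hm, rfl⟩

theorem cover_swap (I : Finset ℕ) (T : Finset ℕ) (f : ℕ → ℕ) :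
    ∑ i ∈ I, ∑ m ∈ T.filter (fun m => m ∈ G.cells i), f m =
      ∑ m ∈ T, (I.filter fun i => m ∈ G.cells i).card * f m := by
  simp only [sum_filter, card_filter, sum_mul]
  rw [sum_comm]
  refine sum_congr rfl fun m _ => sum_congr rfl fun i _ => ?_
  split_ifs <;> simp

theorem cover_deg (hG : G.Geo) (I : Finset ℕ) (hI : ∀ i ∈ I, i < G.k) {i : ℕ} (hi : i < G.k) :
    G.k1 * ∑ m ∈ G.cells i, (I.filter fun o => m ∈ G.cells o).card ≤ G.w * (G.k1 + I.card) := by
  have h := cover_swap (G := G) I (G.cells i) fun _ => 1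
  simp only [mul_one, sum_const, smul_eq_mul, filter_mem_eq_inter] at h
  rw [← h, mul_sum]
  calc ∑ o ∈ I, G.k1 * (G.cells i ∩ G.cells o).card
      ≤ ∑ o ∈ I, ((if o = i then G.k1 * G.w else 0) + G.w) := by
        refine sum_le_sum fun o ho => ?_
        by_cases h : o = i
        · subst h
          rw [inter_self, hG.card_cells o hi, if_pos rfl]
          omega
        · rw [if_neg h, zero_add]
          exact hG.inter i hi o (hI o ho) (Ne.symm h)
    _ ≤ G.w * (G.k1 + I.card) := by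
        rw [sum_add_distrib, sum_const, smul_eq_mul, sum_ite_eq']
        split_ifs <;> nlinarith

/-- Few classes are used. -/
theorem coverA (hG : G.Geo) (sy : ℕ → ℕ → ℕ → ℕ) (P : Finset (ℕ × ℕ)) (hP : ∀ p ∈ P, p.1 < G.k)
    (hloc : ∀ i < G.k, G.w * ((P.filter fun p => p.1 = i).image Prod.snd).card ≤
      8 * ∑ m ∈ G.cells i, (((P.filter fun p => p.1 = i).image Prod.snd).image (sy i m)).card) :
    G.w * G.k1 * P.card ≤ 256 * (G.k1 + (P.image Prod.fst).card) * (G.cov sy P).card := by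
  set I := P.image Prod.fst with hI
  have hIk : ∀ i ∈ I, i < G.k := by
    intro i hi
    obtain ⟨p, hp, rfl⟩ := mem_image.1 hi
    exact hP p hp
  set d : ℕ → ℕ := fun m => (I.filter fun o => m ∈ G.cells o).card with hd
  set fib : ℕ → ℕ := fun m => ((G.cov sy P).filter fun p => p.1 = m).card with hfib
  set L := (range G.ν).filter fun m => G.k1 * d m ≤ 16 * (G.k1 + I.card) with hL
  have h1 : ∀ i ∈ I, G.w * (P.filter fun p => p.1 = i).card ≤
      16 * ∑ m ∈ L.filter (fun m => m ∈ G.cells i), fib m := by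
    intro i hi
    have hc : ((P.filter fun p => p.1 = i).image Prod.snd).card =
        (P.filter fun p => p.1 = i).card := by
      refine card_image_of_injOn fun p hp q hq h => ?_
      simp only [coe_filter, Set.mem_ofPred_eq] at hp hq
      exact Prod.ext (hp.2.trans hq.2.symm) h
    have h2 := hloc i (hIk i hi)
    set H := (G.cells i).filter fun m => ¬ G.k1 * d m ≤ 16 * (G.k1 + I.card) with hH
    have h3 : 16 * H.card ≤ G.w := by
      have h4 := cover_deg hG I hIk (hIk i hi)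
      have h5 : H.card * (16 * (G.k1 + I.card)) ≤ G.k1 * ∑ m ∈ G.cells i, d m := by
        rw [mul_sum, ← smul_eq_mul]
        refine (card_nsmul_le_sum _ _ _ fun m hm => (not_le.1 (mem_filter.1 hm).2).le).trans ?_
        exact sum_le_sum_of_subset (filter_subset _ _)
      have h6 : 0 < G.k1 + I.card := by have := hG.k1_pos; omega
      have h7 : 16 * H.card * (G.k1 + I.card) ≤ G.w * (G.k1 + I.card) := by
        calc _ = H.card * (16 * (G.k1 + I.card)) := by ring
          _ ≤ _ := h5.trans h4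
      exact Nat.le_of_mul_le_mul_right h7 h6
    have h8 : L.filter (fun m => m ∈ G.cells i) =
        (G.cells i).filter fun m => G.k1 * d m ≤ 16 * (G.k1 + I.card) := by
      ext m
      simp only [hL, mem_filter]
      exact ⟨fun h => ⟨h.2, h.1.2⟩, fun h => ⟨⟨cover_cells_sub i h.1, h.2⟩, h.1⟩⟩
    rw [← sum_filter_add_sum_filter_not (G.cells i)
      (fun m => G.k1 * d m ≤ 16 * (G.k1 + I.card)), ← h8, ← hH] at h2
    have h9 : ∑ m ∈ H, (((P.filter fun p => p.1 = i).image Prod.snd).image (sy i m)).card ≤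
        H.card * (P.filter fun p => p.1 = i).card := by
      rw [← smul_eq_mul]
      exact sum_le_card_nsmul _ _ _ fun m _ => card_image_le.trans hc.le
    have h10 : ∑ m ∈ L.filter (fun m => m ∈ G.cells i),
        (((P.filter fun p => p.1 = i).image Prod.snd).image (sy i m)).card ≤
        ∑ m ∈ L.filter (fun m => m ∈ G.cells i), fib m :=
      sum_le_sum fun m hm => cover_fib sy P (mem_filter.1 hm).2
    rw [hc] at h2
    nlinarith [Nat.mul_le_mul_right (P.filter fun p => p.1 = i).card h3]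
  have h2 : G.w * P.card ≤ 16 * ∑ m ∈ L, d m * fib m := by
    rw [card_eq_sum_card_image Prod.fst P, mul_sum, ← cover_swap I L fib, mul_sum]
    exact sum_le_sum h1
  have h3 : G.k1 * ∑ m ∈ L, d m * fib m ≤ 16 * (G.k1 + I.card) * (G.cov sy P).card := by
    refine le_trans ?_ (Nat.mul_le_mul_left _ (cover_fib_sum (G.cov sy P) G.ν))
    rw [mul_sum, mul_sum]
    refine le_trans (sum_le_sum fun m hm => ?_) (sum_le_sum_of_subset (filter_subset
      (fun m => G.k1 * d m ≤ 16 * (G.k1 + I.card)) _))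
    rw [← mul_assoc]
    exact Nat.mul_le_mul_right _ (mem_filter.1 hm).2
  nlinarith [Nat.mul_le_mul_left G.k1 h2]

/-- Many classes are used. -/
theorem coverB (hG : G.Geo) (sy : ℕ → ℕ → ℕ → ℕ) (P : Finset (ℕ × ℕ)) (I : Finset ℕ)
    (hI : ∀ i ∈ I, i < G.k) (lam : ℕ → ℕ) (hlam : ∀ i ∈ I, (i, lam i) ∈ P) :
    G.ν * I.card + (G.k1 + I.card) * (G.conf sy I lam).card ≤
      (G.k1 + I.card) * (G.cov sy P).card := by
  set d : ℕ → ℕ := fun m => (I.filter fun o => m ∈ G.cells o).card with hd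
  set C := (range G.ν).filter fun m => ∃ i ∈ I, m ∈ G.cells i with hC
  have hmem : ∀ i ∈ I, ∀ m ∈ G.cells i,
      (m, sy i m (lam i)) ∈ (G.cov sy P).filter fun p => p.1 = m := by
    intro i hi m hm
    simp only [cov, mem_filter, mem_biUnion, mem_image, and_true]
    exact ⟨(i, lam i), hlam i hi, m, hm, rfl⟩
  have h1 : C.card + (G.conf sy I lam).card ≤ (G.cov sy P).card := by
    refine le_trans ?_ (cover_fib_sum (G.cov sy P) G.ν)
    rw [hC, conf, card_filter, card_filter, ← sum_add_distrib]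
    refine sum_le_sum fun m _ => ?_
    split_ifs with h1 h2 h2
    · obtain ⟨i, hi, o, ho, hmi, hmo, hne⟩ := h2
      exact one_lt_card.2 ⟨_, hmem i hi m hmi, _, hmem o ho m hmo, fun h => hne (Prod.mk.inj h).2⟩
    · obtain ⟨i, hi, hmi⟩ := h1
      exact card_pos.2 ⟨_, hmem i hi m hmi⟩
    · obtain ⟨i, hi, o, ho, hmi, hmo, hne⟩ := h2
      exact absurd ⟨i, hi, hmi⟩ h1
    · exact le_rfl.trans (Nat.zero_le _)
  have hf : ∀ i ∈ I, C.filter (fun m => m ∈ G.cells i) = G.cells i := by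
    intro i hi
    ext m
    simp only [hC, mem_filter]
    exact ⟨fun h => h.2, fun h => ⟨⟨cover_cells_sub i h, i, hi, h⟩, h⟩⟩
  have h2 : ∑ m ∈ C, d m = I.card * G.w := by
    have h := cover_swap (G := G) I C fun _ => 1
    simp only [mul_one] at h
    rw [← h, ← smul_eq_mul, ← sum_const]
    refine sum_congr rfl fun i hi => ?_
    rw [hf i hi, sum_const, smul_eq_mul, mul_one, hG.card_cells i (hI i hi)]
  have h3 : G.k1 * ∑ m ∈ C, d m ^ 2 ≤ I.card * (G.w * (G.k1 + I.card)) := by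
    have h := cover_swap (G := G) I C d
    simp only [sq]
    rw [← h, mul_sum, ← smul_eq_mul, ← sum_const]
    refine sum_le_sum fun i hi => ?_
    rw [hf i hi]
    exact cover_deg hG I hI (hI i hi)
  have h4 : (∑ m ∈ C, d m) ^ 2 ≤ C.card * ∑ m ∈ C, d m ^ 2 := sq_sum_le_card_mul_sum_sq
  have h5 : G.ν * I.card ≤ (G.k1 + I.card) * C.card := by
    rcases Nat.eq_zero_or_pos I.card with h0 | h0
    · simp [h0]
    refine Nat.le_of_mul_le_mul_right ?_ (Nat.mul_pos h0 hG.w_pos)
    rw [h2] at h4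
    calc G.ν * I.card * (I.card * G.w) = G.k1 * (I.card * G.w) ^ 2 := by rw [ν]; ring
      _ ≤ C.card * (G.k1 * ∑ m ∈ C, d m ^ 2) := by
        rw [mul_left_comm]; exact Nat.mul_le_mul_left _ h4
      _ ≤ C.card * (I.card * (G.w * (G.k1 + I.card))) := Nat.mul_le_mul_left _ h3
      _ = _ := by ring
  nlinarith [Nat.mul_le_mul_left (G.k1 + I.card) h1]

/-- Decoding an assignment of the clones from a transversal. Request `q` is made by class
`cls q` for clone `y q`, whose home cell is `hm (y q)`. -/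
theorem conflict (hG : G.Geo) (sy : ℕ → ℕ → ℕ → ℕ) (I : Finset ℕ) (hI : ∀ i ∈ I, i < G.k)
    (lam : ℕ → ℕ) (nq cap : ℕ) (cls y hm cell : ℕ → ℕ) (bt : ℕ → ℕ → Bool)
    (hcls : ∀ q < nq, cls q < G.k) (hhm : ∀ a, hm a < G.ν)
    (hcell : ∀ q < nq, cell q = G.route (cls q) (hm (y q)))
    (hload : ∀ i < G.k, ∀ m, ((range nq).filter fun q => cls q = i ∧ cell q = m).card ≤ cap)
    (heq : ∀ i ∈ I, ∀ q < nq, ∀ q' < nq, cell q ∈ G.cells i → cell q' ∈ G.cells i → y q = y q' →
      bt (sy i (cell q) (lam i)) q = bt (sy i (cell q') (lam i)) q') :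
    ∃ val : ℕ → Bool, ((range nq).filter fun q => cls q ∈ I ∧
        bt (sy (cls q) (cell q) (lam (cls q))) q ≠ val (y q)).card ≤
      cap * (G.ν + G.t * (G.conf sy I lam).card) := by
  classical
  set first : ℕ → ℕ := fun m => sInf {i | i ∈ I ∧ m ∈ G.cells i} with hfirst
  have hf1 : ∀ i ∈ I, ∀ m ∈ G.cells i, (first m ∈ I ∧ m ∈ G.cells (first m)) ∧ first m ≤ i :=
    fun i hi m hm => ⟨Nat.sInf_mem (s := {i | i ∈ I ∧ m ∈ G.cells i}) ⟨i, hi, hm⟩,
      Nat.sInf_le ⟨hi, hm⟩⟩
  refine ⟨fun a => if h : ∃ q', q' < nq ∧ y q' = a ∧ cell q' ∈ G.cells (first (hm a)) then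
    bt (sy (first (hm a)) (cell h.choose) (lam (first (hm a)))) h.choose else false, ?_⟩
  set A := (range G.ν).biUnion fun m => (range nq).filter fun q => cls q = first m ∧ cell q = m
  set B := (G.conf sy I lam).biUnion fun m =>
    ((range G.k).filter fun i => m ∈ G.cells i).biUnion fun i =>
      (range nq).filter fun q => cls q = i ∧ cell q = m
  have hA : A.card ≤ G.ν * cap := by
    refine (card_biUnion_le_card_mul _ _ cap fun m _ => ?_).trans (by rw [card_range])
    by_cases h : first m < G.k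
    · exact hload _ h m
    · rw [filter_eq_empty_iff.2, card_empty]
      · exact Nat.zero_le _
      · intro q hq h'
        exact h (h'.1 ▸ hcls q (mem_range.1 hq))
  have hB : B.card ≤ (G.conf sy I lam).card * (G.t * cap) := by
    refine card_biUnion_le_card_mul _ _ _ fun m _ => ?_
    refine (card_biUnion_le_card_mul _ _ cap fun i hi => ?_).trans
      (Nat.mul_le_mul_right _ (hG.deg m))
    exact hload i (mem_range.1 (mem_filter.1 hi).1) m
  refine le_trans (card_le_card (t := A ∪ B) fun q hq => ?_)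
    ((card_union_le _ _).trans (by nlinarith))
  obtain ⟨hq, hi, hne⟩ := mem_filter.1 hq
  have hq' := mem_range.1 hq
  have hk := hcls q hq'
  have hmi : cell q ∈ G.cells (cls q) := by
    rw [hcell q hq']; exact hG.route_mem _ hk _ (hhm _)
  obtain ⟨⟨hoI, hmo⟩, hoi⟩ := hf1 _ hi _ hmi
  by_cases h : cls q = first (cell q)
  · exact mem_union_left _ (mem_biUnion.2 ⟨cell q, cover_cells_sub _ hmi,
      mem_filter.2 ⟨hq, h, rfl⟩⟩)
  refine mem_union_right _ (mem_biUnion.2 ⟨cell q, ?_, mem_biUnion.2 ⟨cls q,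
    mem_filter.2 ⟨mem_range.2 hk, hmi⟩, mem_filter.2 ⟨hq, rfl, rfl⟩⟩⟩)
  have hax : first (cell q) / G.k1 ≠ cls q / G.k1 := fun e =>
    h (hG.axis_inj _ (hI _ hoI) _ hk _ hmo hmi e).symm
  have hh : hm (y q) ∈ G.cells (first (cell q)) := by
    rw [← hG.route_inc _ hk _ (hI _ hoI) _ (hhm _) hax, ← hcell q hq']
    exact hmo
  obtain ⟨⟨ho'I, hho'⟩, ho'o⟩ := hf1 _ hoI _ hh
  have hax' : first (hm (y q)) / G.k1 ≠ cls q / G.k1 := by
    intro e
    have h1 : first (hm (y q)) / G.k1 ≤ first (cell q) / G.k1 := Nat.div_le_div_right ho'o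
    have h2 : first (cell q) / G.k1 ≤ cls q / G.k1 := Nat.div_le_div_right hoi
    omega
  have hmo' : cell q ∈ G.cells (first (hm (y q))) := by
    rw [hcell q hq', hG.route_inc _ hk _ (hI _ ho'I) _ (hhm _) hax']
    exact hho'
  have hex : ∃ q', q' < nq ∧ y q' = y q ∧ cell q' ∈ G.cells (first (hm (y q))) :=
    ⟨q, hq', rfl, hmo'⟩
  beta_reduce at hne
  rw [dif_pos hex, ← heq _ ho'I q hq' _ hex.choose_spec.1 hmo' hex.choose_spec.2.2
    hex.choose_spec.2.1.symm] at hne
  unfold conf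
  exact mem_filter.2 ⟨cover_cells_sub _ hmi, _, hi, _, ho'I, hmi, hmo', fun e => hne (by rw [e])⟩

end Gad

end Pool.Agent.MP_a2da35_lc
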