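import Mathlib
import Pool.Prelude.Def_H_e9e0c647
import Pool.Agent.Lib.Cx.GraphDefs

namespace Pool.Agent.MP_a2da35_lc

open Turing N487b59b3

/-- A clause with three literals; a literal is a variable with the value that makes it true. -/
abbrev Clause : Type := (ℕ × Bool) × (ℕ × Bool) × (ℕ × Bool)

/-- The assignment `a` satisfies the clause. -/
def Holds (a : ℕ → Bool) (c : Clause) : Prop :=
  a c.1.1 = c.1.2 ∨ a c.2.1.1 = c.2.1.2 ∨ a c.2.2.1 = c.2.2.2

/-- All variables of the formula are among `0, ..., n - 1`. -/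
def OnVars (n : ℕ) (φ : List Clause) : Prop :=
  ∀ c ∈ φ, c.1.1 < n ∧ c.2.1.1 < n ∧ c.2.2.1 < n

def Satisfiable (φ : List Clause) : Prop := ∃ a : ℕ → Bool, ∀ c ∈ φ, Holds a c

open Classical in
/-- Every assignment violates more than an `ε` fraction of the clauses. -/
def Far (ε : ℝ) (φ : List Clause) : Prop :=
  ∀ a : ℕ → Bool, ε * φ.length < (φ.countP fun c => decide (¬ Holds a c) : ℕ)

/-- The machine `M`, started on the word `x`, halts with output word `y` within `T` steps. -/
def Runs (M : TM2ComputableAux Bool Bool) (x y : List Bool) (T : ℝ) : Prop :=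
  ∃ s : ℕ, (s : ℝ) ≤ T ∧ Nonempty (TM2OutputsInTime M.tm (x.map M.inputAlphabet.symm)
    (some (y.map M.outputAlphabet.symm)) s)

open Classical in
/-- The probability, over `l` fair coins, that `M` on input (`n`, `φ`, coins) outputs the one bit
word `1` within `T` steps. -/
noncomputable def acceptProb (M : TM2ComputableAux Bool Bool) (n : ℕ) (φ : List Clause) (l : ℕ)
    (T : ℝ) : ℝ :=
  ((Finset.univ.filter fun r : Fin l → Bool =>
    Runs M (bitEncode ((n, φ), List.ofFn r)) [true] T).card : ℝ) / 2 ^ l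

/-- `M`, given `l n` coins, always halts within `T n φ` steps and separates satisfiable formulas
from `ε`-far formulas with error at most `1 / 3`. -/
def SolvesGap (M : TM2ComputableAux Bool Bool) (ε : ℝ) (l : ℕ → ℕ)
    (T : ℕ → List Clause → ℝ) : Prop :=
  ∀ (n : ℕ) (φ : List Clause), OnVars n φ →
    (∀ r : Fin (l n) → Bool, ∃ y, Runs M (bitEncode ((n, φ), List.ofFn r)) y (T n φ)) ∧
    (Satisfiable φ → 2 / 3 ≤ acceptProb M n φ (l n) (T n φ)) ∧
    (Far ε φ → acceptProb M n φ (l n) (T n φ) ≤ 1 / 3)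

/-- Randomized Gap-ETH: for some `ε, δ > 0` no randomized algorithm solves the gap problem in
time `2 ^ (δ n)` times a polynomial in the input length. -/
def GapETH : Prop :=
  ∃ ε : ℝ, 0 < ε ∧ ∃ δ : ℝ, 0 < δ ∧
    ¬ ∃ (M : TM2ComputableAux Bool Bool) (C D : ℕ), SolvesGap M ε (fun n => 2 ^ (n / D))
      (fun n φ => C * ((bitEncode (n, φ)).length + 1 : ℝ) ^ C * (2 : ℝ) ^ (δ * n))

open Classical in
/-- The set of vertices marked by the `N` bits of `y` that start at position `p`. -/
noncomputable def marked (N p : ℕ) (y : List Bool) : Finset (Fin N) :=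
  Finset.univ.filter fun v => y.getD (p + v) false = true

/-- The word `y` marks the two sides of a copy of `K_{a,a}` in `G` with `a ≥ k / c`. -/
def Marks {N : ℕ} (G : SimpleGraph (Fin N)) (k : ℕ) (c : ℝ) (y : List Bool) : Prop :=
  (marked N 0 y).card = (marked N N y).card ∧ k / c ≤ ((marked N 0 y).card : ℝ) ∧
    ∀ u ∈ marked N 0 y, ∀ v ∈ marked N N y, G.Adj u v

open Classical in
/-- On every bipartite graph on `N` vertices that contains `K_{k,k}`, the machine, given some
number `l ≤ T N k` of fair coins (`l = 0` for a deterministic algorithm), with probability at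
least `2 / 3` halts within `T N k` steps with an output that marks a copy of `K_{a,a}`,
`a ≥ k / c`. -/
def Approximates (M : TM2ComputableAux Bool Bool) (c : ℝ) (T : ℕ → ℕ → ℝ) : Prop :=
  ∀ (N : ℕ) (G : SimpleGraph (Fin N)) (k : ℕ), 0 < k → G.IsBipartite →
    (completeBipartiteGraph (Fin k) (Fin k)).IsContained G →
    ∃ l : ℕ, (l : ℝ) ≤ T N k ∧ 2 / 3 ≤ ((Finset.univ.filter fun r : Fin l → Bool =>
      ∃ y, Runs M (bitEncode ((Lib.Cx.adjRows G, k), List.ofFn r)) y (T N k) ∧
        Marks G k c y).card : ℝ) / 2 ^ l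

end Pool.Agent.MP_a2da35_lc
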