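import Pool.Agent.MP_a2da35_lc.Local

/-!
Subspace designs: interleaving, composition, existence over the field with two elements, and
tensor products.
-/

namespace Pool.Agent.MP_a2da35_lc

open Module Finset

section general

variable {F V A Ω Ω' : Type} [Field F] [AddCommGroup V] [Module F V] [FiniteDimensional F V]
  [AddCommGroup A] [Module F A] [FiniteDimensional F A] [Fintype Ω] [Fintype Ω']

omit [FiniteDimensional F A] in
/-- Rank-nullity on a subspace. -/
theorem des_rank_null (U : Submodule F V) (f : V →ₗ[F] A) :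
    finrank F U = finrank F (U ⊓ LinearMap.ker f : Submodule F V) + finrank F (U.map f) := by
  have h := LinearMap.finrank_range_add_finrank_ker (f.domRestrict U)
  rw [LinearMap.range_domRestrict, LinearMap.ker_domRestrict] at h
  have h2 : finrank F ((LinearMap.ker f).comap U.subtype) =
      finrank F (U ⊓ LinearMap.ker f : Submodule F V) := by
    rw [← Submodule.finrank_map_subtype_eq, Submodule.map_comap_subtype]
  omega

theorem des_split (U L : Submodule F V) (f : V →ₗ[F] A) (K : Submodule F A)
    (hL : L ≤ K.comap f) :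
    finrank F (U ⊓ L : Submodule F V) ≤
      finrank F ((U ⊓ LinearMap.ker f) ⊓ L : Submodule F V) +
        finrank F (U.map f ⊓ K : Submodule F A) := by
  rw [des_rank_null (U ⊓ L) f]
  refine Nat.add_le_add (Submodule.finrank_mono ?_) (Submodule.finrank_mono ?_)
  · intro v hv
    exact ⟨⟨hv.1.1, hv.2⟩, hv.1.2⟩
  · rintro _ ⟨v, hv, rfl⟩
    exact ⟨⟨v, hv.1, rfl⟩, hL hv.2⟩

/-- Interleaving: jointly injective maps `π r` that send `L m` into `K m`. -/
theorem Design.interleave {Rows : Type} [Finite Rows] {K : Ω → Submodule F A} {ρ : ℝ} {h : ℕ}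
    (hK : Design K ρ h) (π : Rows → V →ₗ[F] A) (hπ : ∀ v, (∀ r, π r v = 0) → v = 0)
    (L : Ω → Submodule F V) (hL : ∀ m r, L m ≤ (K m).comap (π r)) : Design L ρ h := by
  classical
  have := Fintype.ofFinite Rows
  have key : ∀ T : Finset Rows, ∀ U : Submodule F V, finrank F U ≤ h →
      (∀ r, r ∉ T → U ≤ LinearMap.ker (π r)) →
      ∑ m, (finrank F (U ⊓ L m : Submodule F V) : ℝ) ≤ ρ * Fintype.card Ω * finrank F U := by
    intro T
    induction T using Finset.induction_on with
    | empty =>
      intro U _ hU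
      have hb : U = ⊥ := by
        rw [eq_bot_iff]
        intro v hv
        exact hπ v fun r => hU r (by simp) hv
      subst hb
      have h0 : ∀ m, finrank F (⊥ ⊓ L m : Submodule F V) = 0 := fun m => by
        rw [bot_inf_eq, finrank_bot]
      simp [h0]
    | insert r T _ ih =>
      intro U hUh hU
      have hrn := des_rank_null U (π r)
      have h1 := ih (U ⊓ LinearMap.ker (π r)) (by omega) (by
        intro s hs
        by_cases hsr : s = r
        · subst hsr
          exact inf_le_right
        · exact inf_le_left.trans (hU s (by simp [hsr, hs])))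
      have h2 := hK (U.map (π r)) (by omega)
      calc ∑ m, (finrank F (U ⊓ L m : Submodule F V) : ℝ)
          ≤ ∑ m, ((finrank F ((U ⊓ LinearMap.ker (π r)) ⊓ L m : Submodule F V) : ℝ) +
            (finrank F (U.map (π r) ⊓ K m : Submodule F A) : ℝ)) := by
            refine Finset.sum_le_sum fun m _ => ?_
            exact_mod_cast des_split U (L m) (π r) (K m) (hL m r)
        _ ≤ ρ * Fintype.card Ω * finrank F U := by
            rw [Finset.sum_add_distrib, hrn]
            push_cast
            linarith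
  intro U hU
  exact key Finset.univ U hU (by simp)

/-- Composition of two designs. -/
theorem Design.comp {ρ σ : ℝ} {h : ℕ} (Φ : Ω → V →ₗ[F] A) {K : Ω' → Submodule F A}
    (h1 : Design (fun m => LinearMap.ker (Φ m)) ρ h) (h2 : Design K σ h) (hσ : 0 ≤ σ) :
    Design (fun p : Ω × Ω' => (K p.2).comap (Φ p.1)) (ρ + σ) h := by
  intro U hU
  have hA := h1 U hU
  have hB : ∀ m : Ω, ∑ m' : Ω', (finrank F (U.map (Φ m) ⊓ K m' : Submodule F A) : ℝ) ≤
      σ * Fintype.card Ω' * finrank F U := by
    intro m
    have hle : finrank F (U.map (Φ m)) ≤ finrank F U := Submodule.finrank_map_le _ _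
    refine (h2 (U.map (Φ m)) (hle.trans hU)).trans ?_
    have : (finrank F (U.map (Φ m)) : ℝ) ≤ finrank F U := by exact_mod_cast hle
    exact mul_le_mul_of_nonneg_left this (by positivity)
  rw [Fintype.sum_prod_type]
  calc ∑ m : Ω, ∑ m' : Ω', (finrank F (U ⊓ (K m').comap (Φ m) : Submodule F V) : ℝ)
      ≤ ∑ m : Ω, ∑ m' : Ω', ((finrank F (U ⊓ LinearMap.ker (Φ m) : Submodule F V) : ℝ) +
          (finrank F (U.map (Φ m) ⊓ K m' : Submodule F A) : ℝ)) := by
        refine Finset.sum_le_sum fun m _ => Finset.sum_le_sum fun m' _ => ?_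
        have h3 := des_split U ((K m').comap (Φ m)) (Φ m) (K m') le_rfl
        have h4 : finrank F ((U ⊓ LinearMap.ker (Φ m)) ⊓ (K m').comap (Φ m) : Submodule F V) ≤
            finrank F (U ⊓ LinearMap.ker (Φ m) : Submodule F V) :=
          Submodule.finrank_mono inf_le_left
        exact_mod_cast h3.trans (Nat.add_le_add_right h4 _)
    _ ≤ ∑ m : Ω, ((Fintype.card Ω' : ℝ) * finrank F (U ⊓ LinearMap.ker (Φ m) : Submodule F V) +
          σ * Fintype.card Ω' * finrank F U) := by
        refine Finset.sum_le_sum fun m _ => ?_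
        rw [Finset.sum_add_distrib, Finset.sum_const, Finset.card_univ, nsmul_eq_mul]
        exact add_le_add le_rfl (hB m)
    _ ≤ (ρ + σ) * Fintype.card (Ω × Ω') * finrank F U := by
        rw [Finset.sum_add_distrib, ← Finset.mul_sum, Finset.sum_const, Finset.card_univ,
          nsmul_eq_mul, Fintype.card_prod]
        push_cast
        have h5 := mul_le_mul_of_nonneg_left hA (Nat.cast_nonneg (α := ℝ) (Fintype.card Ω'))
        nlinarith [h5]

omit [FiniteDimensional F V] in
theorem Design.reindex {ρ : ℝ} {h : ℕ} {K : Ω → Submodule F V} (hK : Design K ρ h)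
    (e : Ω' ≃ Ω) : Design (fun m => K (e m)) ρ h := by
  intro U hU
  rw [Fintype.card_congr e,
    Equiv.sum_comp e (fun m => (finrank F (U ⊓ K m : Submodule F V) : ℝ))]
  exact hK U hU

end general

section base

variable {I : Type} [Fintype I] [DecidableEq I]

open Classical in
/-- The vectors orthogonal to a subspace. -/
noncomputable def desAnn (W : Submodule (ZMod 2) (I → ZMod 2)) : Finset (I → ZMod 2) :=
  Finset.univ.filter fun v => ∀ w ∈ W, v ⬝ᵥ w = 0

theorem des_card_ann (W : Submodule (ZMod 2) (I → ZMod 2)) :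
    (desAnn W).card * 2 ^ finrank (ZMod 2) W = 2 ^ Fintype.card I := by
  classical
  let Z : Submodule (ZMod 2) (I → ZMod 2) :=
    W.dualAnnihilator.map (dotProductEquiv (ZMod 2) I).symm.toLinearMap
  have hZ : finrank (ZMod 2) Z = finrank (ZMod 2) W.dualAnnihilator :=
    LinearEquiv.finrank_map_eq _ _
  have hsum := Subspace.finrank_add_finrank_dualAnnihilator_eq W
  rw [Module.finrank_fintype_fun_eq_card] at hsum
  have hc : (desAnn W).card = Nat.card Z := by
    rw [← Fintype.card_coe, ← Nat.card_eq_fintype_card]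
    refine Nat.card_congr (Equiv.subtypeEquivRight fun v => ?_)
    simp only [desAnn, Finset.mem_filter, Finset.mem_univ, true_and, Z]
    rw [Submodule.mem_map_equiv, LinearEquiv.symm_symm, Submodule.mem_dualAnnihilator]
    rfl
  rw [hc, Module.natCard_eq_pow_finrank (K := ZMod 2), Nat.card_zmod, hZ, ← pow_add, ← hsum,
    add_comm]

/-- The families of matrices whose kernels contain given subspaces. -/
noncomputable def desEv {k r : ℕ} (W : Fin k → Submodule (ZMod 2) (I → ZMod 2)) :
    Finset (Fin k → Fin r → I → ZMod 2) :=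
  Fintype.piFinset fun x => Fintype.piFinset fun _ => desAnn (W x)

theorem des_card_ev {k r : ℕ} (W : Fin k → Submodule (ZMod 2) (I → ZMod 2)) :
    (desEv (r := r) W).card * 2 ^ (r * ∑ x, finrank (ZMod 2) (W x)) =
      Fintype.card (Fin k → Fin r → I → ZMod 2) := by
  have h1 : (desEv (r := r) W).card = ∏ x, (desAnn (W x)).card ^ r := by
    simp [desEv, Fintype.card_piFinset]
  have h2 : 2 ^ (r * ∑ x, finrank (ZMod 2) (W x)) = ∏ x, (2 ^ finrank (ZMod 2) (W x)) ^ r := by
    rw [Finset.mul_sum, ← Finset.prod_pow_eq_pow_sum]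
    exact Finset.prod_congr rfl fun x _ => by rw [mul_comm, pow_mul]
  rw [h1, h2, ← Finset.prod_mul_distrib]
  have h3 : ∀ x, (desAnn (W x)).card ^ r * (2 ^ finrank (ZMod 2) (W x)) ^ r =
      (2 ^ Fintype.card I) ^ r := fun x => by rw [← mul_pow, des_card_ann]
  simp only [h3, Finset.prod_const, Finset.card_univ, Fintype.card_fin, Fintype.card_fun,
    ZMod.card]

theorem des_mem_ev {k r : ℕ} (W : Fin k → Submodule (ZMod 2) (I → ZMod 2))
    (E : Fin k → Fin r → I → ZMod 2)
    (hE : ∀ x, W x ≤ LinearMap.ker (Matrix.mulVecLin (Matrix.of (E x)))) : E ∈ desEv W := by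
  simp only [desEv, Fintype.mem_piFinset, desAnn, Finset.mem_filter, Finset.mem_univ, true_and]
  intro x j w hw
  exact congrFun (LinearMap.mem_ker.1 (hE x hw)) j

end base

open Classical in
/-- The families that fail on some subspace of dimension `D`. -/
noncomputable def desBad (k R e D : ℕ) : Finset (Fin k → Fin (R * e) → (Fin k × Fin e) → ZMod 2) :=
  Finset.univ.filter fun E => ∃ U : Submodule (ZMod 2) ((Fin k × Fin e) → ZMod 2),
    finrank (ZMod 2) U = D ∧ 2 * k * D < R * ∑ x, finrank (ZMod 2)
      (U ⊓ LinearMap.ker (Matrix.mulVecLin (Matrix.of (E x))) : Submodule (ZMod 2) _)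

theorem des_card_bad (k R e D : ℕ) (hk : 1 ≤ k) :
    (desBad k R e D).card * 2 ^ e ≤
      Nat.card (Fin k → Submodule (ZMod 2) (Fin D → ZMod 2)) *
        Fintype.card (Fin k → Fin (R * e) → (Fin k × Fin e) → ZMod 2) := by
  classical
  rcases Nat.eq_zero_or_pos D with hD | hD
  · have : desBad k R e D = ∅ := by
      rw [Finset.eq_empty_iff_forall_notMem]
      intro E hE
      simp only [desBad, Finset.mem_filter, Finset.mem_univ, true_and] at hE
      obtain ⟨U, hU, hlt⟩ := hE
      have hb : U = ⊥ := Submodule.finrank_eq_zero.1 (hU.trans hD)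
      subst hb
      have h0 : ∀ x, finrank (ZMod 2) (⊥ ⊓ LinearMap.ker (Matrix.mulVecLin (Matrix.of (E x))) :
          Submodule (ZMod 2) _) = 0 := fun x => by
        rw [bot_inf_eq, finrank_bot]
      simp [h0] at hlt
    simp [this]
  have hfin : Fintype (Fin k → Submodule (ZMod 2) (Fin D → ZMod 2)) := Fintype.ofFinite _
  set N := Fintype.card (Fin k → Fin (R * e) → (Fin k × Fin e) → ZMod 2) with hN
  let W : (Fin k → Submodule (ZMod 2) (Fin D → ZMod 2)) × (Fin D → (Fin k × Fin e) → ZMod 2) →
      Fin k → Submodule (ZMod 2) ((Fin k × Fin e) → ZMod 2) :=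
    fun p x => (p.1 x).map (Fintype.linearCombination (ZMod 2) p.2)
  let G := Finset.univ.filter fun p => 2 * k * D < R * ∑ x, finrank (ZMod 2) (W p x)
  have hsub : desBad k R e D ⊆ G.biUnion fun p => desEv (W p) := by
    intro E hE
    simp only [desBad, Finset.mem_filter, Finset.mem_univ, true_and] at hE
    obtain ⟨U, hU, hlt⟩ := hE
    let b : Module.Basis (Fin D) (ZMod 2) U := Module.finBasisOfFinrankEq _ _ hU
    let u : Fin D → (Fin k × Fin e) → ZMod 2 := fun i => (b i : _)
    have hr : LinearMap.range (Fintype.linearCombination (ZMod 2) u) = U := by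
      rw [Fintype.range_linearCombination]
      have h1 : Set.range u = U.subtype '' Set.range b := by
        rw [← Set.range_comp]
        rfl
      rw [h1, ← Submodule.map_span, b.span_eq, Submodule.map_top, Submodule.range_subtype]
    let T : Fin k → Submodule (ZMod 2) (Fin D → ZMod 2) := fun x =>
      (U ⊓ LinearMap.ker (Matrix.mulVecLin (Matrix.of (E x)))).comap
        (Fintype.linearCombination (ZMod 2) u)
    have hW : ∀ x, W (T, u) x = U ⊓ LinearMap.ker (Matrix.mulVecLin (Matrix.of (E x))) := by
      intro x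
      simp only [W, T]
      rw [Submodule.map_comap_eq, hr]
      exact inf_eq_right.2 inf_le_left
    refine Finset.mem_biUnion.2 ⟨(T, u), ?_, des_mem_ev _ _ fun x => ?_⟩
    · simp only [G, Finset.mem_filter, Finset.mem_univ, true_and]
      refine hlt.trans_eq ?_
      congr 1
      exact Finset.sum_congr rfl fun x _ => by rw [hW]
    · rw [hW]
      exact inf_le_right
  have hone : ∀ p ∈ G, (desEv (r := R * e) (W p)).card * 2 ^ (2 * k * D * e) ≤ N := by
    intro p hp
    simp only [G, Finset.mem_filter, Finset.mem_univ, true_and] at hp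
    rw [hN, ← des_card_ev (W p)]
    refine Nat.mul_le_mul_left _ (Nat.pow_le_pow_right (by norm_num) ?_)
    calc 2 * k * D * e ≤ (R * ∑ x, finrank (ZMod 2) (W p x)) * e :=
          Nat.mul_le_mul_right _ hp.le
      _ = _ := by ring
  have hG : G.card ≤ Nat.card (Fin k → Submodule (ZMod 2) (Fin D → ZMod 2)) * 2 ^ (k * D * e) := by
    refine (Finset.card_le_univ _).trans (le_of_eq ?_)
    rw [Fintype.card_prod, Nat.card_eq_fintype_card]
    congr 1
    simp only [Fintype.card_fun, ZMod.card, Fintype.card_prod, Fintype.card_fin, ← pow_mul]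
    congr 1
    ring
  have htot : (desBad k R e D).card * 2 ^ (2 * k * D * e) ≤ G.card * N := by
    calc (desBad k R e D).card * 2 ^ (2 * k * D * e)
        ≤ (∑ p ∈ G, (desEv (r := R * e) (W p)).card) * 2 ^ (2 * k * D * e) :=
          Nat.mul_le_mul_right _ ((Finset.card_le_card hsub).trans Finset.card_biUnion_le)
      _ = ∑ p ∈ G, (desEv (r := R * e) (W p)).card * 2 ^ (2 * k * D * e) := Finset.sum_mul _ _ _
      _ ≤ ∑ _p ∈ G, N := Finset.sum_le_sum hone
      _ = G.card * N := by simp
  have hpow : 2 ^ e * 2 ^ (k * D * e) ≤ 2 ^ (2 * k * D * e) := by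
    rw [← pow_add]
    refine Nat.pow_le_pow_right (by norm_num) ?_
    have : 1 ≤ k * D := Nat.mul_pos hk hD
    nlinarith [Nat.mul_le_mul_right e this]
  refine Nat.le_of_mul_le_mul_right (c := 2 ^ (k * D * e)) ?_ (by positivity)
  calc (desBad k R e D).card * 2 ^ e * 2 ^ (k * D * e)
      = (desBad k R e D).card * (2 ^ e * 2 ^ (k * D * e)) := by ring
    _ ≤ (desBad k R e D).card * 2 ^ (2 * k * D * e) := Nat.mul_le_mul_left _ hpow
    _ ≤ G.card * N := htot
    _ ≤ Nat.card (Fin k → Submodule (ZMod 2) (Fin D → ZMod 2)) * 2 ^ (k * D * e) * N :=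
        Nat.mul_le_mul_right _ hG
    _ = _ := by ring

/-- A random family of `k` matrices with `R * e` rows and `k * e` columns is a design. -/
theorem exists_base (k R h : ℕ) (hk : 1 ≤ k) (hR : 1 ≤ R) :
    ∃ e : ℕ, 1 ≤ e ∧ ∃ E : Fin k → Fin (R * e) → (Fin k × Fin e) → ZMod 2,
      Design (fun x => LinearMap.ker (Matrix.mulVecLin (Matrix.of (E x)))) (2 / R) h := by
  classical
  set C := ∑ D ∈ Finset.range (h + 1), Nat.card (Fin k → Submodule (ZMod 2) (Fin D → ZMod 2))
    with hC
  refine ⟨C + 1, by omega, ?_⟩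
  set e := C + 1 with he
  set N := Fintype.card (Fin k → Fin (R * e) → (Fin k × Fin e) → ZMod 2) with hN
  have hNpos : 0 < N := Fintype.card_pos
  have hlt : ((Finset.range (h + 1)).biUnion fun D => desBad k R e D).card < N := by
    have h1 : ((Finset.range (h + 1)).biUnion fun D => desBad k R e D).card * 2 ^ e ≤ C * N := by
      calc ((Finset.range (h + 1)).biUnion fun D => desBad k R e D).card * 2 ^ e
          ≤ (∑ D ∈ Finset.range (h + 1), (desBad k R e D).card) * 2 ^ e :=
            Nat.mul_le_mul_right _ Finset.card_biUnion_le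
        _ = ∑ D ∈ Finset.range (h + 1), (desBad k R e D).card * 2 ^ e := Finset.sum_mul _ _ _
        _ ≤ ∑ D ∈ Finset.range (h + 1),
              Nat.card (Fin k → Submodule (ZMod 2) (Fin D → ZMod 2)) * N :=
            Finset.sum_le_sum fun D _ => des_card_bad k R e D hk
        _ = C * N := by rw [hC, Finset.sum_mul]
    have h2 : C < 2 ^ e := by
      have := Nat.lt_two_pow_self (n := e)
      omega
    refine Nat.lt_of_mul_lt_mul_right (a := 2 ^ e) (h1.trans_lt ?_)
    rw [mul_comm N]
    exact Nat.mul_lt_mul_of_pos_right h2 hNpos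
  obtain ⟨E, -, hE⟩ := Finset.exists_mem_notMem_of_card_lt_card
    (t := (Finset.univ : Finset (Fin k → Fin (R * e) → (Fin k × Fin e) → ZMod 2))) hlt
  refine ⟨E, fun U hU => ?_⟩
  have hle : R * ∑ x, finrank (ZMod 2)
      (U ⊓ LinearMap.ker (Matrix.mulVecLin (Matrix.of (E x))) : Submodule (ZMod 2) _) ≤
      2 * k * finrank (ZMod 2) U := by
    by_contra hcon
    refine hE (Finset.mem_biUnion.2 ⟨finrank (ZMod 2) U, Finset.mem_range.2 (by omega), ?_⟩)
    simp only [desBad, Finset.mem_filter, Finset.mem_univ, true_and]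
    exact ⟨U, rfl, not_le.1 hcon⟩
  have hR' : (0 : ℝ) < R := by exact_mod_cast hR
  have hle' : (R : ℝ) * ∑ x, (finrank (ZMod 2)
      (U ⊓ LinearMap.ker (Matrix.mulVecLin (Matrix.of (E x))) : Submodule (ZMod 2) _) : ℝ) ≤
      2 * k * finrank (ZMod 2) U := by exact_mod_cast hle
  rw [Fintype.card_fin, div_mul_eq_mul_div, div_mul_eq_mul_div, le_div_iff₀ hR', mul_comm]
  exact hle'

/-- The matrices `E (m b)` applied along the `n` axes of a tensor; `X` is an untouched axis. -/
def tens {F I J Ω X : Type} [Field F] [Fintype I] (E : Ω → J → I → F) (n : ℕ) (m : Fin n → Ω) :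
    ((Fin n → I) × X → F) →ₗ[F] ((Fin n → J) × X → F) where
  toFun v := fun p => ∑ α : Fin n → I, v (α, p.2) * ∏ b, E (m b) (p.1 b) (α b)
  map_add' v w := by
    funext p
    simp [add_mul, Finset.sum_add_distrib]
  map_smul' c v := by
    funext p
    simp [Finset.mul_sum, mul_assoc]

/-- One matrix applied along the first axis. -/
def desStep {F I J X : Type} [Field F] [Fintype I] (M : J → I → F) (n : ℕ) :
    ((Fin (n + 1) → I) × X → F) →ₗ[F] ((Fin n → I) × (J × X) → F) where
  toFun v := fun p => ∑ β : I, M p.2.1 β * v (Fin.cons β p.1, p.2.2)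
  map_add' v w := by
    funext p
    simp [mul_add, Finset.sum_add_distrib]
  map_smul' c v := by
    funext p
    simp [Finset.mul_sum, mul_left_comm]

theorem des_tens_succ {F I J Ω X : Type} [Field F] [Fintype I] (E : Ω → J → I → F) (n : ℕ)
    (m : Fin (n + 1) → Ω) (v : (Fin (n + 1) → I) × X → F) (j0 : J) (j : Fin n → J) (ξ : X) :
    tens E (n + 1) m v (Fin.cons j0 j, ξ) =
      tens E n (Fin.tail m) (desStep (E (m 0)) n v) (j, (j0, ξ)) := by
  simp only [tens, desStep, LinearMap.coe_mk, AddHom.coe_mk]
  rw [← (Fin.consEquiv fun _ : Fin (n + 1) => I).sum_comp, Fintype.sum_prod_type, Finset.sum_comm]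
  refine Finset.sum_congr rfl fun α _ => ?_
  rw [Finset.sum_mul]
  refine Finset.sum_congr rfl fun β _ => ?_
  rw [Fin.prod_univ_succ]
  change v (Fin.cons β α, ξ) * (E (m 0) j0 β * ∏ x, E (m x.succ) (j x) (α x)) =
    E (m 0) j0 β * v (Fin.cons β α, ξ) * ∏ x, E (m x.succ) (j x) (α x)
  ring

theorem design_tens {F I J Ω : Type} [Field F] [Fintype I] [Fintype J] [Fintype Ω]
    (E : Ω → J → I → F) (ρ : ℝ) (h : ℕ) (hρ : 0 ≤ ρ)
    (hE : Design (fun x => LinearMap.ker (Matrix.mulVecLin (Matrix.of (E x)))) ρ h)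
    (n : ℕ) (X : Type) [Fintype X] :
    Design (fun m : Fin n → Ω => LinearMap.ker (tens (X := X) E n m)) (n * ρ) h := by
  induction n generalizing X with
  | zero =>
    intro U _
    have hb : ∀ m : Fin 0 → Ω, LinearMap.ker (tens (X := X) E 0 m) = ⊥ := by
      intro m
      rw [eq_bot_iff]
      intro v hv
      rw [Submodule.mem_bot]
      funext p
      have h1 := congrFun (LinearMap.mem_ker.1 hv) (Fin.elim0, p.2)
      simp only [tens, LinearMap.coe_mk, AddHom.coe_mk, Finset.univ_eq_empty, Finset.prod_empty,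
        mul_one, Fintype.sum_unique, Pi.zero_apply] at h1
      rw [Pi.zero_apply, ← h1]
      congr 1
      exact Prod.ext (Subsingleton.elim _ _) rfl
    simp [hb]
  | succ n ih =>
    have h1 : Design (fun x : Ω => LinearMap.ker (desStep (X := X) (E x) n)) ρ h := by
      refine hE.interleave (Rows := (Fin n → I) × X)
        (fun r => LinearMap.funLeft F F fun β : I => ((Fin.cons β r.1 : Fin (n + 1) → I), r.2))
        ?_ _ ?_
      · intro v hv
        funext p
        have h2 := congrFun (hv (Fin.tail p.1, p.2)) (p.1 0)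
        simpa [LinearMap.funLeft_apply] using h2
      · intro x r v hv
        rw [Submodule.mem_comap, LinearMap.mem_ker]
        funext j
        exact congrFun (LinearMap.mem_ker.1 hv) (r.1, (j, r.2))
    have h2 := (Design.comp (fun x : Ω => desStep (X := X) (E x) n) h1 (ih (J × X))
      (by positivity)).reindex (Fin.consEquiv fun _ : Fin (n + 1) => Ω).symm
    have h3 : (fun m : Fin (n + 1) → Ω => LinearMap.ker (tens (X := X) E (n + 1) m)) =
        fun m => (LinearMap.ker (tens (X := J × X) E n (Fin.tail m))).comap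
          (desStep (X := X) (E (m 0)) n) := by
      funext m
      ext v
      rw [Submodule.mem_comap, LinearMap.mem_ker, LinearMap.mem_ker]
      constructor
      · intro hv
        funext p
        have h4 := des_tens_succ E n m v p.2.1 p.1 p.2.2
        rw [hv] at h4
        exact h4.symm
      · intro hv
        funext p
        have h4 := des_tens_succ E n m v (p.1 0) (Fin.tail p.1) p.2
        rw [hv, Fin.cons_self_tail] at h4
        exact h4
    have h5 : ((n + 1 : ℕ) : ℝ) * ρ = ρ + n * ρ := by
      push_cast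
      ring
    rw [h3, h5]
    exact h2

end Pool.Agent.MP_a2da35_lc
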