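import Mathlib

/-!
The gadget: classes, cells, routing, and the code, all on initial segments of the naturals.
-/

namespace Pool.Agent.MP_a2da35_lc

open Finset

/-- Digit `j` of `l` in base `Q` (for `j ≤ s`). -/
def dig (Q s j l : ℕ) : ℕ := l / Q ^ (min j s) % Q

/-- The number with digits `f 0, ..., f (s - 1)` in base `Q`. -/
def pack (Q s : ℕ) (f : ℕ → ℕ) : ℕ := ((List.range s).map fun j => f j * Q ^ (min j s)).sum

theorem pack_eq (Q s : ℕ) (f : ℕ → ℕ) : pack Q s f = ∑ j ∈ range s, f j * Q ^ j := by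
  unfold pack
  rw [← List.sum_toFinset _ List.nodup_range, List.toFinset_range]
  exact Finset.sum_congr rfl fun j hj => by rw [min_eq_left (mem_range.1 hj).le]

theorem pack_succ (Q s : ℕ) (f : ℕ → ℕ) :
    pack Q (s + 1) f = f 0 + Q * pack Q s (fun j => f (j + 1)) := by
  rw [pack_eq, pack_eq, Finset.sum_range_succ', Finset.mul_sum, add_comm]
  simp only [pow_zero, mul_one, pow_succ]
  congr 1
  exact Finset.sum_congr rfl fun j _ => by ring

theorem pack_lt {Q s : ℕ} {f : ℕ → ℕ} (h : ∀ j < s, f j < Q) : pack Q s f < Q ^ s := by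
  induction s generalizing f with
  | zero => simp [pack]
  | succ s ih =>
    have h1 := ih (f := fun j => f (j + 1)) (fun j hj => h _ (by omega))
    have h2 := h 0 (by omega)
    rw [pack_succ, pow_succ']
    nlinarith

theorem dig_eq {Q s j : ℕ} (hj : j ≤ s) (l : ℕ) : dig Q s j l = l / Q ^ j % Q := by
  rw [dig, min_eq_left hj]

theorem dig_pack {Q s : ℕ} {f : ℕ → ℕ} (h : ∀ j < s, f j < Q) {j : ℕ} (hj : j < s) :
    dig Q s j (pack Q s f) = f j := by
  rw [dig_eq hj.le]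
  induction s generalizing f j with
  | zero => omega
  | succ s ih =>
    have h2 := h 0 (by omega)
    rw [pack_succ]
    cases j with
    | zero => simp [Nat.mod_eq_of_lt h2]
    | succ j =>
      rw [pow_succ', ← Nat.div_div_eq_div_mul, Nat.add_mul_div_left _ _ (by omega),
        Nat.div_eq_of_lt h2, zero_add]
      exact ih (f := fun j => f (j + 1)) (fun j hj => h _ (by omega)) (by omega)

theorem dig_lt {Q : ℕ} (hQ : 0 < Q) (s j l : ℕ) : dig Q s j l < Q := Nat.mod_lt _ hQ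

theorem pack_congr {Q s : ℕ} {f g : ℕ → ℕ} (h : ∀ j < s, f j = g j) : pack Q s f = pack Q s g := by
  rw [pack_eq, pack_eq]
  exact Finset.sum_congr rfl fun j hj => by rw [h j (mem_range.1 hj)]

theorem pack_dig {Q s l : ℕ} (hl : l < Q ^ s) : pack Q s (fun j => dig Q s j l) = l := by
  rw [pack_congr (g := fun j => l / Q ^ j % Q) (fun j hj => dig_eq hj.le l)]
  induction s generalizing l with
  | zero => simp [pack] at hl ⊢; omega
  | succ s ih =>
    have hQ : 0 < Q := by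
      rcases Nat.eq_zero_or_pos Q with rfl | h
      · simp at hl
      · exact h
    rw [pack_succ]
    have h1 := ih (l := l / Q) (by rw [Nat.div_lt_iff_lt_mul hQ, ← pow_succ]; exact hl)
    simp only [pow_succ', ← Nat.div_div_eq_div_mul, h1, pow_zero, Nat.div_one]
    exact Nat.mod_add_div l Q

structure Gad where
  t : ℕ
  k1 : ℕ
  w : ℕ
  β : ℕ
  QA : ℕ
  QS : ℕ
  inc : ℕ → ℕ → Bool
  route : ℕ → ℕ → ℕ
  ev : ℕ → ℕ → ℕ → ℕ
  raw : ℕ → ℕ → Bool

namespace Gad

variable (G : Gad)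

/-- Number of classes. -/
def k : ℕ := G.t * G.k1

/-- Number of cells. -/
def ν : ℕ := G.k1 * G.w

/-- The cells of class `i`. -/
def cells (i : ℕ) : Finset ℕ := (range G.ν).filter fun m => G.inc i m = true

/-- The symbol that the label `l` (with `s` rows) of class `i` puts in cell `m`. -/
def symN (s i m l : ℕ) : ℕ := pack G.QS s fun j => G.ev i m (dig G.QA s j l)

/-- The incidence structure of classes and cells, with routing; the axis of class `i` is
`i / k1`. -/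
structure Geo : Prop where
  t_pos : 0 < G.t
  k1_pos : 0 < G.k1
  w_pos : 0 < G.w
  card_cells : ∀ i < G.k, (G.cells i).card = G.w
  inter : ∀ i < G.k, ∀ o < G.k, i ≠ o → G.k1 * (G.cells i ∩ G.cells o).card ≤ G.w
  deg : ∀ m, ((range G.k).filter fun i => m ∈ G.cells i).card ≤ G.t
  axis_inj : ∀ i < G.k, ∀ o < G.k, ∀ m, m ∈ G.cells i → m ∈ G.cells o →
    i / G.k1 = o / G.k1 → i = o
  route_mem : ∀ i < G.k, ∀ m < G.ν, G.route i m ∈ G.cells i
  route_inc : ∀ i < G.k, ∀ o < G.k, ∀ m < G.ν, o / G.k1 ≠ i / G.k1 →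
    (G.route i m ∈ G.cells o ↔ m ∈ G.cells o)
  route_fib : ∀ i < G.k, ∀ m', ((range G.ν).filter fun m => G.route i m = m').card ≤ G.k1

/-- The code. -/
structure Code (h g : ℕ) : Prop where
  β_pos : 0 < G.β
  QA_pos : 0 < G.QA
  ev_lt : ∀ i m a, G.ev i m a < G.QS
  honest : ∃ lab sym : ℕ → (ℕ → ℕ → Bool) → ℕ, (∀ i z, lab i z < G.QA) ∧
    (∀ i < G.k, ∀ m ∈ G.cells i, ∀ z, G.ev i m (lab i z) = sym m z) ∧
    ∀ m < G.ν, ∀ z, ∀ l < G.β, G.raw (sym m z) l = z m l
  sparse : ∀ s, ∃ 𝓑 : ℕ → Finset (Finset ℕ),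
    (∀ r, ∀ B ∈ 𝓑 r, B ⊆ range (G.QA ^ s) ∧ B.card = g * r + 1) ∧
    (∀ r, (𝓑 r).card ≤ (G.QA ^ s) ^ r * 2 ^ (r * (g * r + 1))) ∧
    ∀ i < G.k, ∀ P ⊆ range (G.QA ^ s), P.card ≤ h → (∀ r, ∀ B ∈ 𝓑 r, ¬ B ⊆ P) →
      G.w * P.card ≤ 8 * ∑ m ∈ G.cells i, (P.image (G.symN s i m)).card

/-- Values outside the ranges. -/
structure Norm : Prop where
  inc : ∀ i m, ¬ (i < G.k ∧ m < G.ν) → G.inc i m = false
  route : ∀ i m, ¬ (i < G.k ∧ m < G.ν) → G.route i m = 0
  ev : ∀ i m a, ¬ (i < G.k ∧ m < G.ν ∧ a < G.QA) → G.ev i m a = 0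
  raw : ∀ a l, ¬ (a < G.QS ∧ l < G.β) → G.raw a l = false

end Gad

end Pool.Agent.MP_a2da35_lc
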