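import Pool.Agent.MP_a2da35_lc.Design
import Pool.Agent.MP_a2da35_lc.GadDefs

/-!
Existence of the gadget.
-/

namespace Pool.Agent.MP_a2da35_lc

open Module Finset

/-- Sets of vectors that are too dense, and the local lemma for sets that avoid them. -/
theorem exists_bad {V S Ω : Type} [AddCommGroup V] [Module (ZMod 2) V] [Fintype V]
    [DecidableEq V] [AddCommGroup S] [Module (ZMod 2) S] [DecidableEq S] [Fintype Ω] (G : ℕ)
    (hG : 1 ≤ G) :
    ∃ 𝓑 : ℕ → Finset (Finset V), (∀ r, ∀ B ∈ 𝓑 r, B.card = G ^ 2 * r + 1) ∧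
      (∀ r, (𝓑 r).card ≤ Fintype.card V ^ r * 2 ^ (r * (G ^ 2 * r + 1))) ∧
      ∀ (ev : Ω → V →ₗ[ZMod 2] S) (ρ : ℝ) (h : ℕ),
        Design (fun m => LinearMap.ker (ev m)) ρ h → 0 ≤ ρ →
        ρ * G * Real.log (2 * G ^ 2) ≤ 1 / 100 → ∀ P : Finset V, P.card ≤ h →
        (∀ r, ∀ B ∈ 𝓑 r, ¬ B ⊆ P) →
        Fintype.card Ω * P.card ≤ 8 * ∑ m, (P.image (ev m)).card := by
  classical
  refine ⟨fun r => ((univ : Finset ((Fin r → V) × (Fin (G ^ 2 * r + 1) → Fin r → ZMod 2))).image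
    fun p => univ.image fun j => ∑ l, p.2 j l • p.1 l).filter fun B => B.card = G ^ 2 * r + 1,
    fun r B hB => (mem_filter.mp hB).2, fun r => ?_, fun ev ρ h hD hρ hs P hP hB => ?_⟩
  · refine (card_filter_le _ _).trans (card_image_le.trans_eq ?_)
    simp only [card_univ, Fintype.card_prod, Fintype.card_fun, Fintype.card_fin, ZMod.card,
      ← pow_mul]
  · refine local_lemma ev ρ h G hD hG hρ hs P hP fun Q hQ => ?_
    by_contra hlt
    obtain ⟨r, hr⟩ : ∃ r, finrank (ZMod 2) (Submodule.span (ZMod 2) (Q : Set V)) = r := ⟨_, rfl⟩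
    rw [hr] at hlt
    obtain ⟨Q', hQ', hc⟩ := exists_subset_card_eq (s := Q) (n := G ^ 2 * r + 1) (by omega)
    let b := finBasisOfFinrankEq (ZMod 2) (Submodule.span (ZMod 2) (Q : Set V)) hr
    let q := (Q'.equivFinOfCardEq hc).symm
    let x : Fin (G ^ 2 * r + 1) → Submodule.span (ZMod 2) (Q : Set V) := fun j =>
      ⟨q j, Submodule.subset_span (hQ' (q j).2)⟩
    have hx : ∀ j, ∑ l, b.repr (x j) l • (b l : V) = q j := fun j => by
      have h1 := congrArg Subtype.val (b.sum_repr (x j))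
      simpa only [Submodule.coe_sum, Submodule.coe_smul] using h1
    refine hB r Q' (mem_filter.mpr ⟨mem_image.mpr
      ⟨(fun l => (b l : V), fun j l => b.repr (x j) l), mem_univ _, ?_⟩, hc⟩) (hQ'.trans hQ)
    ext v
    simp only [hx, mem_image, mem_univ, true_and]
    constructor
    · rintro ⟨j, rfl⟩
      exact (q j).2
    · intro hv
      exact ⟨q.symm ⟨v, hv⟩, by rw [Equiv.apply_symm_apply]⟩

/-- A numbering of a type by the naturals below `N`. -/
structure GadNum (α : Type) (N : ℕ) where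
  enc : α → ℕ
  dec : ℕ → α
  enc_lt : ∀ a, enc a < N
  dec_enc : ∀ a, dec (enc a) = a
  enc_dec : ∀ m < N, enc (dec m) = m

theorem GadNum.inj {α : Type} {N : ℕ} (c : GadNum α N) : Function.Injective c.enc :=
  Function.LeftInverse.injective c.dec_enc

theorem gad_num (α : Type) [Fintype α] [Nonempty α] {N : ℕ} (h : Fintype.card α = N) :
    Nonempty (GadNum α N) := by
  let e := Fintype.equivFinOfCardEq h
  refine ⟨⟨fun a => e a, fun m => if hm : m < N then e.symm ⟨m, hm⟩ else Classical.arbitrary α,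
    fun a => (e a).2, fun a => ?_, fun m hm => ?_⟩⟩
  · rw [dif_pos (e a).2, Fin.eta, Equiv.symm_apply_apply]
  · rw [dif_pos hm, Equiv.apply_symm_apply]

/-- Rows of numbered objects are numbered by digits. -/
def GadNum.rows {α : Type} {N : ℕ} (c : GadNum α N) (hN : 0 < N) (s : ℕ) :
    GadNum (Fin s → α) (N ^ s) where
  enc v := pack N s fun j => if h : j < s then c.enc (v ⟨j, h⟩) else 0
  dec l r := c.dec (dig N s r l)
  enc_lt v := pack_lt fun j hj => by
    rw [dif_pos hj]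
    exact c.enc_lt _
  dec_enc v := by
    funext r
    rw [dig_pack (fun j hj => by
      rw [dif_pos hj]
      exact c.enc_lt _) r.2, dif_pos r.2, c.dec_enc]
  enc_dec l hl := by
    refine (pack_congr fun j hj => ?_).trans (pack_dig hl)
    rw [dif_pos hj, c.enc_dec _ (dig_lt hN _ _ _)]

theorem gad_card_image {α β γ : Type} [DecidableEq β] [DecidableEq γ] (P : Finset α) (f : α → β)
    (g : α → γ) (h : ∀ x ∈ P, ∀ y ∈ P, g x = g y → f x = f y) :
    (P.image f).card ≤ (P.image g).card := by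
  have h1 : ∀ b : P.image f, ∃ x ∈ P, f x = b := fun b => mem_image.mp b.2
  choose x hx hf using h1
  rw [← Fintype.card_coe, ← card_univ]
  refine card_le_card_of_injOn (fun b => g (x b)) (fun b _ => mem_image_of_mem g (hx b))
    fun b _ b' _ hb => Subtype.ext ?_
  rw [← hf, ← hf]
  exact h _ (hx b) _ (hx b') hb

/-- The axis of class `i`. -/
def gadAx (t k1 i : ℕ) : Fin (t + 1) := Fin.ofNat (t + 1) (i / k1)

/-- The position of class `i` on its axis. -/
def gadPos {k1 : ℕ} (hk : 0 < k1) (i : ℕ) : Fin k1 := ⟨i % k1, Nat.mod_lt _ hk⟩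

theorem gadAx_val {t k1 i : ℕ} (hi : i < (t + 1) * k1) : (gadAx t k1 i : ℕ) = i / k1 :=
  Nat.mod_eq_of_lt (Nat.div_lt_of_lt_mul (by rwa [mul_comm] at hi))

/-- The incidence and routing maps of `G` come from the numbering `c` of the cells. -/
structure GadShape (G : Gad) (t k1 : ℕ) (hk : 0 < k1)
    (c : GadNum (Fin (t + 1) → Fin k1) (k1 * k1 ^ t)) : Prop where
  ht : G.t = t + 1
  hk1 : G.k1 = k1
  hw : G.w = k1 ^ t
  inc : ∀ i < (t + 1) * k1, ∀ m < k1 * k1 ^ t,
    (G.inc i m = true ↔ c.dec m (gadAx t k1 i) = gadPos hk i)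
  route : ∀ i < (t + 1) * k1, ∀ m < k1 * k1 ^ t,
    G.route i m = c.enc (Function.update (c.dec m) (gadAx t k1 i) (gadPos hk i))

section shape

variable {G : Gad} {t k1 : ℕ} {hk : 0 < k1} {c : GadNum (Fin (t + 1) → Fin k1) (k1 * k1 ^ t)}

theorem GadShape.k (h : GadShape G t k1 hk c) : G.k = (t + 1) * k1 := by rw [Gad.k, h.ht, h.hk1]

theorem GadShape.ν (h : GadShape G t k1 hk c) : G.ν = k1 * k1 ^ t := by rw [Gad.ν, h.hw, h.hk1]

theorem GadShape.mem (h : GadShape G t k1 hk c) {i : ℕ} (hi : i < G.k) {m : ℕ} :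
    m ∈ G.cells i ↔ m < k1 * k1 ^ t ∧ c.dec m (gadAx t k1 i) = gadPos hk i := by
  rw [Gad.cells, mem_filter, mem_range, h.ν]
  exact and_congr_right fun hm => h.inc i (h.k ▸ hi) m hm

theorem GadShape.enc_mem (h : GadShape G t k1 hk c) {i : ℕ} (hi : i < G.k)
    {v : Fin (t + 1) → Fin k1} : c.enc v ∈ G.cells i ↔ v (gadAx t k1 i) = gadPos hk i := by
  rw [h.mem hi, c.dec_enc, and_iff_right (c.enc_lt v)]

theorem gad_ins_inj (c : GadNum (Fin (t + 1) → Fin k1) (k1 * k1 ^ t)) (a : Fin (t + 1))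
    (x : Fin k1) : Function.Injective fun v : Fin t → Fin k1 => c.enc (a.insertNth x v) := by
  intro v v' hv
  funext b
  have h1 := congrFun (c.inj hv) (a.succAbove b)
  rwa [Fin.insertNth_apply_succAbove, Fin.insertNth_apply_succAbove] at h1

theorem GadShape.cells_eq (h : GadShape G t k1 hk c) {i : ℕ} (hi : i < G.k) :
    G.cells i = univ.image fun v : Fin t → Fin k1 =>
      c.enc ((gadAx t k1 i).insertNth (gadPos hk i) v) := by
  ext m
  simp only [mem_image, mem_univ, true_and]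
  constructor
  · intro hm
    obtain ⟨h1, h2⟩ := (h.mem hi).mp hm
    exact ⟨(gadAx t k1 i).removeNth (c.dec m), by
      rw [← h2, Fin.insertNth_self_removeNth, c.enc_dec m h1]⟩
  · rintro ⟨v, rfl⟩
    rw [h.enc_mem hi, Fin.insertNth_apply_same]

theorem GadShape.geo (h : GadShape G t k1 hk c) : G.Geo := by
  have hcard : ∀ i < G.k, (G.cells i).card = G.w := fun i hi => by
    rw [h.cells_eq hi, card_image_of_injective _ (gad_ins_inj c _ _), card_univ, Fintype.card_fun,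
      Fintype.card_fin, Fintype.card_fin, h.hw]
  have hax : ∀ i < G.k, ∀ o < G.k, gadAx t k1 i = gadAx t k1 o ↔ i / k1 = o / k1 :=
    fun i hi o ho => by rw [Fin.ext_iff, gadAx_val (h.k ▸ hi), gadAx_val (h.k ▸ ho)]
  have hinj : ∀ i < G.k, ∀ o < G.k, ∀ m, m ∈ G.cells i → m ∈ G.cells o →
      i / G.k1 = o / G.k1 → i = o := fun i hi o ho m h1 h2 h3 => by
    rw [h.hk1] at h3
    have h4 := ((h.mem hi).mp h1).2
    rw [(hax i hi o ho).mpr h3, ((h.mem ho).mp h2).2] at h4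
    have h5 : o % k1 = i % k1 := congrArg Fin.val h4
    rw [← Nat.div_add_mod i k1, ← Nat.div_add_mod o k1, h3, h5]
  refine ⟨by rw [h.ht]; omega, h.hk1 ▸ hk, h.hw ▸ pow_pos hk t, hcard, fun i hi o ho hio => ?_,
    fun m => ?_, hinj, fun i hi m hm => ?_, fun i hi o ho m hm hio => ?_, fun i hi m' => ?_⟩
  · by_cases ha : gadAx t k1 i = gadAx t k1 o
    · have h1 : G.cells i ∩ G.cells o = ∅ := eq_empty_of_forall_notMem fun m hm =>
        hio (hinj i hi o ho m (mem_inter.mp hm).1 (mem_inter.mp hm).2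
          (h.hk1 ▸ (hax i hi o ho).mp ha))
      rw [h1, card_empty, mul_zero]
      exact Nat.zero_le _
    · have h1 : k1 * (G.cells i ∩ G.cells o).card =
          ((univ : Finset (Fin k1)) ×ˢ (G.cells i ∩ G.cells o)).card := by
        rw [card_product, card_univ, Fintype.card_fin]
      rw [← hcard i hi, h.hk1, h1]
      refine card_le_card_of_injOn
        (fun p => c.enc (Function.update (c.dec p.2) (gadAx t k1 o) p.1)) (fun p hp => ?_)
        fun p hp p' hp' he => ?_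
      · have h2 := (mem_inter.mp (mem_product.mp hp).2).1
        exact mem_coe.mpr ((h.enc_mem hi).mpr
          ((Function.update_of_ne ha _ _).trans ((h.mem hi).mp h2).2))
      · obtain ⟨h2, h3⟩ := (h.mem ho).mp (mem_inter.mp (mem_product.mp hp).2).2
        obtain ⟨h4, h5⟩ := (h.mem ho).mp (mem_inter.mp (mem_product.mp hp').2).2
        have h6 := c.inj he
        have h7 := congrFun h6 (gadAx t k1 o)
        rw [Function.update_self, Function.update_self] at h7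
        have h8 := congrArg (fun v => Function.update v (gadAx t k1 o) (gadPos hk o)) h6
        simp only [Function.update_idem] at h8
        rw [Function.update_eq_self_iff.mpr h3.symm, Function.update_eq_self_iff.mpr h5.symm] at h8
        exact Prod.ext h7 (by rw [← c.enc_dec _ h2, h8, c.enc_dec _ h4])
  · rw [← card_range G.t]
    refine card_le_card_of_injOn (fun i => i / G.k1) (fun i hi => ?_) fun i hi o ho he => ?_
    · have h1 := mem_range.mp (mem_filter.mp hi).1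
      exact mem_coe.mpr (mem_range.mpr (Nat.div_lt_of_lt_mul (by rwa [Gad.k, mul_comm] at h1)))
    · exact hinj i (mem_range.mp (mem_filter.mp hi).1) o (mem_range.mp (mem_filter.mp ho).1) m
        (mem_filter.mp hi).2 (mem_filter.mp ho).2 he
  · rw [h.route i (h.k ▸ hi) m (h.ν ▸ hm), h.enc_mem hi, Function.update_self]
  · rw [h.hk1] at hio
    rw [h.route i (h.k ▸ hi) m (h.ν ▸ hm), h.enc_mem ho, h.mem ho, and_iff_right (h.ν ▸ hm),
      Function.update_of_ne fun he => hio ((hax o ho i hi).mp he)]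
  · rw [h.hk1, ← Fintype.card_fin k1, ← card_univ]
    refine card_le_card_of_injOn (fun m => c.dec m (gadAx t k1 i)) (fun _ _ => mem_univ _)
      fun m hm m₂ hm₂ he => ?_
    have h1 : m < k1 * k1 ^ t := h.ν ▸ mem_range.mp (mem_filter.mp hm).1
    have h2 : m₂ < k1 * k1 ^ t := h.ν ▸ mem_range.mp (mem_filter.mp hm₂).1
    have h3 := (mem_filter.mp hm).2.trans (mem_filter.mp hm₂).2.symm
    rw [h.route i (h.k ▸ hi) m h1, h.route i (h.k ▸ hi) m₂ h2] at h3
    have h4 := congrArg (fun v => Function.update v (gadAx t k1 i) (c.dec m (gadAx t k1 i)))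
      (c.inj h3)
    simp only [Function.update_idem, Function.update_eq_self] at h4
    rw [Function.update_eq_self_iff.mpr he] at h4
    rw [← c.enc_dec _ h1, h4, c.enc_dec _ h2]

end shape

section code

variable {t k1 e n : ℕ}

/-- The base matrices with the systematic rows added. -/
def gadEm (E : Fin k1 → Fin n → Fin k1 × Fin e → ZMod 2) (x : Fin k1) :
    Fin e ⊕ Fin n → Fin k1 × Fin e → ZMod 2
  | .inl l => fun α => if α = (x, l) then 1 else 0
  | .inr j => E x j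

/-- The symbol that a label of a class with axis `a` puts in the cell `v`. -/
def gadEv (E : Fin k1 → Fin n → Fin k1 × Fin e → ZMod 2) (a : Fin (t + 1))
    (v : Fin (t + 1) → Fin k1) (y : (Fin t → Fin k1 × Fin e) × (Fin e ⊕ Fin n) → ZMod 2)
    (j : Fin (t + 1) → Fin e ⊕ Fin n) : ZMod 2 :=
  tens (gadEm E) t (fun b => v (a.succAbove b)) y (fun b => j (a.succAbove b), j a)

/-- The honest label. -/
def gadLab (E : Fin k1 → Fin n → Fin k1 × Fin e → ZMod 2) (a : Fin (t + 1)) (x : Fin k1)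
    (z : (Fin (t + 1) → Fin k1 × Fin e) → ZMod 2)
    (p : (Fin t → Fin k1 × Fin e) × (Fin e ⊕ Fin n)) : ZMod 2 :=
  ∑ α, z (a.insertNth α p.1) * gadEm E x p.2 α

/-- The honest symbol. -/
def gadSym (E : Fin k1 → Fin n → Fin k1 × Fin e → ZMod 2) (v : Fin (t + 1) → Fin k1)
    (z : (Fin (t + 1) → Fin k1 × Fin e) → ZMod 2) (j : Fin (t + 1) → Fin e ⊕ Fin n) : ZMod 2 :=
  ∑ α, z α * ∏ b, gadEm E (v b) (j b) (α b)

theorem gadEv_lab (E : Fin k1 → Fin n → Fin k1 × Fin e → ZMod 2) (a : Fin (t + 1))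
    (v : Fin (t + 1) → Fin k1) (z : (Fin (t + 1) → Fin k1 × Fin e) → ZMod 2) :
    gadEv E a v (gadLab E a (v a) z) = gadSym E v z := by
  funext j
  rw [gadSym, ← (Fin.insertNthEquiv (fun _ => Fin k1 × Fin e) a).sum_comp, Fintype.sum_prod_type,
    sum_comm]
  refine sum_congr rfl fun α' _ => ?_
  rw [gadLab, sum_mul]
  refine sum_congr rfl fun α _ => ?_
  rw [Fin.prod_univ_succAbove _ a, mul_assoc]
  simp only [Fin.insertNthEquiv_apply, Fin.insertNth_apply_same, Fin.insertNth_apply_succAbove]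
  rfl

theorem gadSym_inl (E : Fin k1 → Fin n → Fin k1 × Fin e → ZMod 2) (v : Fin (t + 1) → Fin k1)
    (z : (Fin (t + 1) → Fin k1 × Fin e) → ZMod 2) (y : Fin (t + 1) → Fin e) :
    gadSym E v z (fun b => .inl (y b)) = z fun b => (v b, y b) := by
  rw [gadSym, sum_eq_single (fun b => (v b, y b)) (fun α _ hα => ?_) fun h => absurd (mem_univ _) h]
  · simp only [gadEm, if_true, prod_const_one, mul_one]
  · obtain ⟨b, hb⟩ := Function.ne_iff.mp hα
    rw [prod_eq_zero (mem_univ b) (if_neg hb), mul_zero]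

theorem gadEm_design {E : Fin k1 → Fin n → Fin k1 × Fin e → ZMod 2} {ρ : ℝ} {h : ℕ}
    (hE : Design (fun x => LinearMap.ker (Matrix.mulVecLin (Matrix.of (E x)))) ρ h) :
    Design (fun x => LinearMap.ker (Matrix.mulVecLin (Matrix.of (gadEm E x)))) ρ h :=
  hE.interleave (fun _ : Unit => LinearMap.id) (fun _ hv => hv ()) _ fun _ _ _ hv =>
    funext fun j => congrFun hv (.inr j)

theorem gad_build (hk : 0 < k1) (he : 0 < e) {R h G₀ : ℕ} (hn : e + n = R * e) (hG : 1 ≤ G₀)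
    {E : Fin k1 → Fin n → Fin k1 × Fin e → ZMod 2} {ρ : ℝ} (hρ : 0 ≤ ρ)
    (hE : Design (fun x => LinearMap.ker (Matrix.mulVecLin (Matrix.of (E x)))) ρ h)
    (hs : t * ρ * G₀ * Real.log (2 * G₀ ^ 2) ≤ 1 / 100) :
    ∃ G : Gad, G.t = t + 1 ∧ G.k1 = k1 ∧ G.w = k1 ^ t ∧ G.QA = 2 ^ (R * G.w * G.β) ∧
      G.QS = 2 ^ (R ^ (t + 1) * G.β) ∧ G.Geo ∧ G.Code h (G₀ ^ 2) ∧ G.Norm := by
  have : Nonempty (Fin k1) := ⟨⟨0, hk⟩⟩
  have : Nonempty (Fin e) := ⟨⟨0, he⟩⟩
  have hA : Fintype.card ((Fin t → Fin k1 × Fin e) × (Fin e ⊕ Fin n) → ZMod 2) =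
      2 ^ (R * k1 ^ t * e ^ (t + 1)) := by
    simp only [Fintype.card_fun, Fintype.card_prod, Fintype.card_sum, Fintype.card_fin, ZMod.card,
      hn]
    congr 1
    ring
  obtain ⟨c⟩ := gad_num (Fin (t + 1) → Fin k1) (N := k1 * k1 ^ t) (by
    rw [Fintype.card_fun, Fintype.card_fin, Fintype.card_fin, pow_succ'])
  obtain ⟨cβ⟩ := gad_num (Fin (t + 1) → Fin e) (N := e ^ (t + 1)) (by
    rw [Fintype.card_fun, Fintype.card_fin, Fintype.card_fin])
  obtain ⟨cA⟩ := gad_num _ hA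
  obtain ⟨cS⟩ := gad_num ((Fin (t + 1) → Fin e ⊕ Fin n) → ZMod 2)
    (N := 2 ^ (R ^ (t + 1) * e ^ (t + 1))) (by
      simp only [Fintype.card_fun, Fintype.card_sum, Fintype.card_fin, ZMod.card, hn, mul_pow])
  obtain ⟨G, g1, g2, g3, hsh, hno, hev, hlt, hraw⟩ : ∃ G : Gad, G.β = e ^ (t + 1) ∧
      G.QA = 2 ^ (R * k1 ^ t * e ^ (t + 1)) ∧ G.QS = 2 ^ (R ^ (t + 1) * e ^ (t + 1)) ∧
      GadShape G t k1 hk c ∧ G.Norm ∧
      (∀ i < (t + 1) * k1, ∀ m < k1 * k1 ^ t, ∀ a < 2 ^ (R * k1 ^ t * e ^ (t + 1)),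
        G.ev i m a = cS.enc (gadEv E (gadAx t k1 i) (c.dec m) (cA.dec a))) ∧
      (∀ i m a, G.ev i m a < G.QS) ∧
      ∀ a < 2 ^ (R ^ (t + 1) * e ^ (t + 1)), ∀ l < e ^ (t + 1),
        G.raw a l = decide (cS.dec a (fun b => .inl (cβ.dec l b)) = 1) := by
    refine ⟨⟨t + 1, k1, k1 ^ t, e ^ (t + 1), 2 ^ (R * k1 ^ t * e ^ (t + 1)),
      2 ^ (R ^ (t + 1) * e ^ (t + 1)),
      fun i m => if i < (t + 1) * k1 ∧ m < k1 * k1 ^ t then
        decide (c.dec m (gadAx t k1 i) = gadPos hk i) else false,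
      fun i m => if i < (t + 1) * k1 ∧ m < k1 * k1 ^ t then
        c.enc (Function.update (c.dec m) (gadAx t k1 i) (gadPos hk i)) else 0,
      fun i m a => if i < (t + 1) * k1 ∧ m < k1 * k1 ^ t ∧ a < 2 ^ (R * k1 ^ t * e ^ (t + 1)) then
        cS.enc (gadEv E (gadAx t k1 i) (c.dec m) (cA.dec a)) else 0,
      fun a l => if a < 2 ^ (R ^ (t + 1) * e ^ (t + 1)) ∧ l < e ^ (t + 1) then
        decide (cS.dec a (fun b => .inl (cβ.dec l b)) = 1) else false⟩, rfl, rfl, rfl,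
      ⟨rfl, rfl, rfl, fun i hi m hm => ?_, fun i hi m hm => if_pos ⟨hi, hm⟩⟩,
      ⟨fun i m h => if_neg h, fun i m h => if_neg h, fun i m a h => if_neg h,
        fun a l h => if_neg h⟩, fun i hi m hm a ha => if_pos ⟨hi, hm, ha⟩, fun i m a => ?_,
      fun a ha l hl => if_pos ⟨ha, hl⟩⟩
    · simp only [hi, hm, and_self, if_true, decide_eq_true_eq]
    · dsimp only
      split_ifs
      exacts [cS.enc_lt _, Nat.two_pow_pos _]
  refine ⟨G, hsh.ht, hsh.hk1, hsh.hw, by rw [g2, g1, hsh.hw], by rw [g3, g1], hsh.geo,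
    ⟨g1 ▸ pow_pos he _, g2 ▸ Nat.two_pow_pos _, hlt, ?_, fun s => ?_⟩, hno⟩
  · let zt : (ℕ → ℕ → Bool) → (Fin (t + 1) → Fin k1 × Fin e) → ZMod 2 := fun z α =>
      if z (c.enc fun b => (α b).1) (cβ.enc fun b => (α b).2) then 1 else 0
    refine ⟨fun i z => cA.enc (gadLab E (gadAx t k1 i) (gadPos hk i) (zt z)),
      fun m z => cS.enc (gadSym E (c.dec m) (zt z)), fun i z => (cA.enc_lt _).trans_eq g2.symm,
      fun i hi m hm z => ?_, fun m hm z l hl => ?_⟩
    · obtain ⟨h1, h2⟩ := (hsh.mem hi).mp hm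
      rw [hev i (hsh.k ▸ hi) m h1 _ (cA.enc_lt _), cA.dec_enc, ← h2, gadEv_lab]
    · have h1 : (zt z fun b => (c.dec m b, cβ.dec l b)) = if z m l then 1 else 0 := by
        show (if z (c.enc (c.dec m)) (cβ.enc (cβ.dec l)) then 1 else 0) = _
        rw [c.enc_dec m (hsh.ν ▸ hm), cβ.enc_dec l (g1 ▸ hl)]
      rw [hraw _ (cS.enc_lt _) l (g1 ▸ hl), cS.dec_enc, gadSym_inl, h1]
      cases z m l <;> rfl
  · obtain ⟨𝓑, b1, b2, b3⟩ := exists_bad
      (V := Fin s → (Fin t → Fin k1 × Fin e) × (Fin e ⊕ Fin n) → ZMod 2)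
      (S := Fin s → (Fin t → Fin e ⊕ Fin n) × (Fin e ⊕ Fin n) → ZMod 2)
      (Ω := Fin t → Fin k1) G₀ hG
    let cV := cA.rows (Nat.two_pow_pos _) s
    have hD := (design_tens (gadEm E) ρ h hρ (gadEm_design hE) t (Fin e ⊕ Fin n)).interleave
      (fun r : Fin s => LinearMap.proj r) (fun v hv => funext hv)
      (fun m => LinearMap.ker ((tens (gadEm E) t m).compLeft (Fin s)))
      fun m r v hv => congrFun hv r
    rw [g2]
    refine ⟨fun r => (𝓑 r).image fun B => B.image cV.enc, fun r B hB => ?_, fun r => ?_,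
      fun i hi P hP hh hB => ?_⟩
    · obtain ⟨B', hB', rfl⟩ := mem_image.mp hB
      refine ⟨fun x hx => ?_, by rw [card_image_of_injective _ cV.inj, b1 r B' hB']⟩
      obtain ⟨y, -, rfl⟩ := mem_image.mp hx
      exact mem_range.mpr (cV.enc_lt y)
    · refine card_image_le.trans ((b2 r).trans_eq ?_)
      rw [Fintype.card_fun, hA, Fintype.card_fin]
    · have h1 : ∀ x ∈ P, cV.enc (cV.dec x) = x := fun x hx => cV.enc_dec x (mem_range.mp (hP hx))
      have h2 : (P.image cV.dec).card = P.card :=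
        card_image_of_injOn fun x hx y hy he => by rw [← h1 x hx, he, h1 y hy]
      have h3 := b3 _ _ h hD (by positivity) hs (P.image cV.dec) (h2 ▸ hh) fun r B hB' hs =>
        hB r _ (mem_image_of_mem _ hB') fun x hx => by
          obtain ⟨y, hy, rfl⟩ := mem_image.mp hx
          obtain ⟨u, hu, rfl⟩ := mem_image.mp (hs hy)
          rwa [h1 u hu]
      rw [h2, Fintype.card_fun, Fintype.card_fin, Fintype.card_fin] at h3
      rw [hsh.hw, hsh.cells_eq hi, sum_image fun x _ y _ he => gad_ins_inj c _ _ he]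
      refine h3.trans (Nat.mul_le_mul_left 8 (sum_le_sum fun v _ => ?_))
      rw [image_image]
      refine gad_card_image P _ _ fun x _ y _ he => funext fun r => funext fun p => ?_
      have h4 := congrArg (dig G.QS s r) he
      rw [Gad.symN, Gad.symN, dig_pack (fun j _ => hlt _ _ _) r.2,
        dig_pack (fun j _ => hlt _ _ _) r.2, g2,
        hev i (hsh.k ▸ hi) _ (c.enc_lt _) _ (dig_lt (Nat.two_pow_pos _) _ _ _),
        hev i (hsh.k ▸ hi) _ (c.enc_lt _) _ (dig_lt (Nat.two_pow_pos _) _ _ _), c.dec_enc] at h4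
      have h5 := congrFun (cS.inj h4) ((gadAx t k1 i).insertNth p.2 p.1)
      simp only [gadEv, Fin.insertNth_apply_same, Fin.insertNth_apply_succAbove] at h5
      exact h5

end code

theorem exists_gad (t : ℕ) (ht : 1 ≤ t) : ∃ R g : ℕ, 1 ≤ R ∧ 12 * R * t ≤ g ∧
    ∀ k1 h : ℕ, 1 ≤ k1 → ∃ G : Gad, G.t = t ∧ G.k1 = k1 ∧ G.w = k1 ^ (t - 1) ∧
      G.QA = 2 ^ (R * G.w * G.β) ∧ G.QS = 2 ^ (R ^ t * G.β) ∧ G.Geo ∧ G.Code h g ∧ G.Norm := by
  obtain ⟨t, rfl⟩ : ∃ t', t = t' + 1 := ⟨t - 1, by omega⟩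
  obtain ⟨H, hH⟩ : ∃ H, H = 24000 * (t + 1) ^ 2 := ⟨_, rfl⟩
  have hH1 : 1 ≤ H := by
    rw [hH]
    exact Nat.mul_pos (by norm_num) (pow_pos ht 2)
  obtain ⟨R, hR⟩ : ∃ R, R + 1 = 2000 * (t + 1) * H ^ 3 :=
    ⟨2000 * (t + 1) * H ^ 3 - 1, Nat.sub_add_cancel (Nat.succ_le_of_lt (by positivity))⟩
  have hR1 : 1 ≤ R := by
    have : 1 ≤ (t + 1) * H ^ 3 := Nat.mul_pos ht (pow_pos hH1 3)
    rw [mul_assoc] at hR
    omega
  refine ⟨R + 1, (H ^ 2) ^ 2, by omega, le_of_eq ?_, fun k1 h hk => ?_⟩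
  · calc 12 * (R + 1) * (t + 1) = 24000 * (t + 1) ^ 2 * H ^ 3 := by rw [hR]; ring
      _ = (H ^ 2) ^ 2 := by rw [← hH]; ring
  · obtain ⟨e, he, E, hE⟩ := exists_base k1 R h hk hR1
    refine gad_build (t := t) hk he (R := R + 1) (by ring) (Nat.one_le_pow _ _ hH1)
      (by positivity) hE ?_
    have h1 : (1 : ℝ) ≤ H := by exact_mod_cast hH1
    have h2 : (1 : ℝ) ≤ R := by exact_mod_cast hR1
    have h3 : (R : ℝ) + 1 = 2000 * (t + 1) * H ^ 3 := by exact_mod_cast hR
    have h4 : Real.log (2 * ((H ^ 2 : ℕ) : ℝ) ^ 2) ≤ 5 * H := by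
      push_cast
      rw [← pow_mul, Real.log_mul two_ne_zero (by positivity), Real.log_pow]
      have h5 := Real.log_le_sub_one_of_pos (two_pos (α := ℝ))
      have h6 := Real.log_le_sub_one_of_pos (show (0 : ℝ) < H by linarith)
      push_cast
      linarith
    refine (mul_le_mul_of_nonneg_left h4 (by positivity)).trans ?_
    have h5 : (t : ℝ) * (2 / R) * ((H ^ 2 : ℕ) : ℝ) * (5 * H) = 10 * t * H ^ 3 / R := by
      push_cast
      ring
    rw [h5, div_le_iff₀ (by linarith)]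
    have h6 : (0 : ℝ) ≤ (H : ℝ) ^ 3 := by positivity
    linarith

end Pool.Agent.MP_a2da35_lc
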