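import Mathlib

/-!
The local lemma: a set of vectors without dense subsets keeps a constant fraction of its size,
on average, under the maps of a subspace design.
-/

namespace Pool.Agent.MP_a2da35_lc

open Module Finset

/-- Subspace design: a subspace of dimension at most `h` meets a random member of the family in
at most a `ρ` fraction of its dimension, on average. -/
def Design {F V Ω : Type} [Field F] [AddCommGroup V] [Module F V] [Fintype Ω]
    (K : Ω → Submodule F V) (ρ : ℝ) (h : ℕ) : Prop :=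
  ∀ U : Submodule F V, finrank F U ≤ h →
    ∑ m, (finrank F (U ⊓ K m : Submodule F V) : ℝ) ≤ ρ * Fintype.card Ω * finrank F U

section aux

variable {F V : Type} [Field F] [AddCommGroup V] [Module F V]

open Classical in
/-- The size of the class of `x` modulo `W` in `Y`. -/
noncomputable def locA (Y : Finset V) (W : Submodule F V) (x : V) : ℕ :=
  (Y.filter fun y => y - x ∈ W).card

noncomputable def locPhi (Y : Finset V) (W : Submodule F V) : ℝ :=
  ∑ x ∈ Y, Real.log (locA Y W x)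

variable {Y Y' C : Finset V} {W W' : Submodule F V} {x x' : V}

theorem loc_card_le (h : ∀ y ∈ C, y ∈ Y ∧ y - x ∈ W) : C.card ≤ locA Y W x := by
  classical
  exact card_le_card fun y hy => mem_filter.2 (h y hy)

theorem loc_le_card (h : ∀ y ∈ Y, y - x ∈ W → y ∈ C) : locA Y W x ≤ C.card := by
  classical
  exact card_le_card fun y hy => h y (mem_filter.1 hy).1 (mem_filter.1 hy).2

theorem loc_le (h : ∀ y ∈ Y, y - x ∈ W → y ∈ Y' ∧ y - x' ∈ W') : locA Y W x ≤ locA Y' W' x' := by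
  classical
  exact loc_card_le fun y hy => h y (mem_filter.1 hy).1 (mem_filter.1 hy).2

theorem loc_mono (h : W ≤ W') : locA Y W x ≤ locA Y W' x := loc_le fun _ h1 h2 => ⟨h1, h h2⟩

theorem loc_congr (h : x - x' ∈ W) : locA Y W x = locA Y W x' :=
  le_antisymm (loc_le fun y h1 h2 => ⟨h1, by simpa using W.add_mem h2 h⟩)
    (loc_le fun y h1 h2 => ⟨h1, by simpa using W.sub_mem h2 h⟩)

theorem loc_pos (hx : x ∈ Y) : 1 ≤ locA Y W x :=
  (card_singleton x).symm.trans_le (loc_card_le fun y hy => by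
    rw [mem_singleton.1 hy, sub_self]
    exact ⟨hx, W.zero_mem⟩)

theorem loc_pos' (hx : x ∈ Y) : (0 : ℝ) < locA Y W x := Nat.cast_pos.2 (loc_pos hx)

theorem loc_bot (hx : x ∈ Y) : locA Y (⊥ : Submodule F V) x = 1 :=
  le_antisymm ((loc_le_card fun _ _ hy => mem_singleton.2
    (sub_eq_zero.1 ((Submodule.mem_bot F).1 hy))).trans (card_singleton x).le) (loc_pos hx)

theorem loc_span (hx : x ∈ Y) : locA Y W x = locA Y (Submodule.span F (Y : Set V) ⊓ W) x :=
  le_antisymm (loc_le fun _ h1 h2 => ⟨h1, Submodule.sub_mem _ (Submodule.subset_span h1)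
    (Submodule.subset_span hx), h2⟩) (loc_mono inf_le_right)

theorem loc_log {a b : ℕ} (h : a ≤ b) : Real.log a ≤ Real.log b := by
  rcases Nat.eq_zero_or_pos a with rfl | ha
  · simpa using Real.log_natCast_nonneg b
  · exact Real.log_le_log (Nat.cast_pos.2 ha) (Nat.cast_le.2 h)

theorem loc_phi_bot : locPhi Y (⊥ : Submodule F V) = 0 :=
  sum_eq_zero fun x hx => by rw [loc_bot hx, Nat.cast_one, Real.log_one]

theorem loc_phi_le {y0 : ℕ} (h : Y.card ≤ y0) : locPhi Y W ≤ Y.card * Real.log y0 := by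
  rw [← nsmul_eq_mul]
  exact sum_le_card_nsmul _ _ _ fun x _ => loc_log ((loc_le_card fun _ h _ => h).trans h)

theorem loc_sum (Y : Finset V) (W W' : Submodule F V) :
    ∑ x ∈ Y, (locA Y W x * locA Y W' x : ℝ) / (locA Y (W ⊓ W') x * locA Y (W ⊔ W') x)
      ≤ Y.card := by
  classical
  have h0 : ∀ (W : Submodule F V) (x : V),
      (locA Y W x : ℝ) = ∑ y ∈ Y, if y - x ∈ W then 1 else 0 := fun W x => by
    rw [locA, natCast_card_filter]
  have h1 : ∀ (x : V) (d : ℝ), (locA Y W x * locA Y W' x : ℝ) / d =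
      ∑ y ∈ Y, ∑ y' ∈ Y, if y - x ∈ W ∧ y' - x ∈ W' then 1 / d else 0 := by
    intro x d
    rw [h0, h0, sum_mul_sum, sum_div]
    refine sum_congr rfl fun y _ => ?_
    rw [sum_div]
    refine sum_congr rfl fun y' _ => ?_
    by_cases h2 : y - x ∈ W <;> by_cases h3 : y' - x ∈ W' <;> simp [h2, h3]
  rw [sum_congr rfl fun x _ => h1 x _, sum_comm, ← mul_one (Y.card : ℝ), ← nsmul_eq_mul]
  refine sum_le_card_nsmul _ _ _ fun y hy => ?_
  rw [sum_comm]
  have hp : (0 : ℝ) < locA Y (W ⊔ W') y := loc_pos' hy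
  refine (sum_le_sum (g := fun y' => (if y' - y ∈ W ⊔ W' then 1 else 0) / (locA Y (W ⊔ W') y : ℝ))
    fun y' _ => ?_).trans (by rw [← sum_div, ← h0, div_self hp.ne'])
  rw [← sum_filter]
  rcases (Y.filter fun x => y - x ∈ W ∧ y' - x ∈ W').eq_empty_or_nonempty with h | h
  · rw [h, sum_empty]
    positivity
  · have hc : (0 : ℝ) < (Y.filter fun x => y - x ∈ W ∧ y' - x ∈ W').card :=
      Nat.cast_pos.2 h.card_pos
    obtain ⟨x0, hx0⟩ := h
    obtain ⟨-, h2, h3⟩ := mem_filter.1 hx0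
    have h4 : y' - y ∈ W ⊔ W' := by
      simpa using (W ⊔ W').sub_mem (Submodule.mem_sup_right h3) (Submodule.mem_sup_left h2)
    refine (sum_le_card_nsmul _ _ (1 / ((Y.filter fun x => y - x ∈ W ∧ y' - x ∈ W').card *
      (locA Y (W ⊔ W') y : ℝ))) fun x hx => ?_).trans (le_of_eq ?_)
    · obtain ⟨-, h5, h6⟩ := mem_filter.1 hx
      rw [← loc_congr (W := W ⊔ W') (Submodule.mem_sup_left h5)]
      refine one_div_le_one_div_of_le (mul_pos hc hp)
        (mul_le_mul_of_nonneg_right (Nat.cast_le.2 (loc_card_le fun z hz => ?_)) hp.le)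
      obtain ⟨h7, h8, h9⟩ := mem_filter.1 hz
      exact ⟨h7, by simpa using W.sub_mem h5 h8, by simpa using W'.sub_mem h6 h9⟩
    · rw [if_pos h4, nsmul_eq_mul]
      field_simp

theorem loc_super (Y : Finset V) (W W' : Submodule F V) :
    locPhi Y W + locPhi Y W' ≤ locPhi Y (W ⊓ W') + locPhi Y (W ⊔ W') := by
  have h1 := loc_sum Y W W'
  have h2 : ∑ x ∈ Y, (Real.log (locA Y W x) + Real.log (locA Y W' x) -
      (Real.log (locA Y (W ⊓ W') x) + Real.log (locA Y (W ⊔ W') x))) ≤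
      ∑ x ∈ Y, ((locA Y W x * locA Y W' x : ℝ) / (locA Y (W ⊓ W') x * locA Y (W ⊔ W') x) - 1) := by
    refine sum_le_sum fun x hx => ?_
    rw [← Real.log_mul (loc_pos' hx).ne' (loc_pos' hx).ne',
      ← Real.log_mul (loc_pos' hx).ne' (loc_pos' hx).ne',
      ← Real.log_div (mul_pos (loc_pos' hx) (loc_pos' hx)).ne'
        (mul_pos (loc_pos' hx) (loc_pos' hx)).ne']
    exact Real.log_le_sub_one_of_pos
      (div_pos (mul_pos (loc_pos' hx) (loc_pos' hx)) (mul_pos (loc_pos' hx) (loc_pos' hx)))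
  simp only [sum_sub_distrib, sum_add_distrib, sum_const, nsmul_eq_mul, mul_one] at h2
  unfold locPhi
  linarith

theorem loc_rank (Y : Finset V) : finrank F (Submodule.span F (Y : Set V)) ≤ Y.card :=
  finrank_span_finset_le_card Y

variable [Finite V]

/-- An extremal subspace. -/
theorem loc_max (f : Submodule F V → ℝ) (U : Submodule F V) {θ : ℝ} (hθ : 0 ≤ θ) :
    ∃ S ≤ U, θ * finrank F S ≤ f S - f ⊥ ∧ ∀ K ≤ U, f (S ⊔ K) - f S ≤ θ * finrank F K := by
  have : Finite (Submodule F V) := Finite.of_injective _ SetLike.coe_injective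
  obtain ⟨S, hS, h⟩ := Set.exists_max_image {S : Submodule F V | S ≤ U}
    (fun S => f S - θ * finrank F S) (Set.toFinite _) ⟨⊥, bot_le (a := U)⟩
  refine ⟨S, hS, ?_, fun K hK => ?_⟩
  · have h1 := h ⊥ (bot_le (a := U))
    simp only [finrank_bot, Nat.cast_zero, mul_zero] at h1
    linarith
  · have h1 := h (S ⊔ K) (sup_le (a := S) hS hK)
    have h2 : (finrank F (S ⊔ K : Submodule F V) : ℝ) ≤ finrank F S + finrank F K := by
      exact_mod_cast Submodule.finrank_add_le_finrank_add_finrank S K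
    linarith [mul_le_mul_of_nonneg_left h2 hθ]

theorem loc_inner {Ω : Type} [Fintype Ω] {K : Ω → Submodule F V} {ρ : ℝ} {h G : ℕ}
    (hD : Design K ρ h) (hG : 1 ≤ G) (hρ : 0 ≤ ρ) (h1 : Y.card ≤ 2 * G ^ 2) (h2 : Y.card ≤ h) :
    ∑ m, locPhi Y (K m) ≤
      3 * ρ * G * Real.log (2 * G ^ 2 : ℕ) * Fintype.card Ω * Y.card := by
  have hG' : (0 : ℝ) < G := Nat.cast_pos.2 hG
  obtain ⟨P, hP⟩ : ∃ P : ℝ, P = Y.card * Real.log (2 * G ^ 2 : ℕ) := ⟨_, rfl⟩
  have hP0 : 0 ≤ P := hP ▸ mul_nonneg (Nat.cast_nonneg _) (Real.log_natCast_nonneg _)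
  have hb : ∀ W : Submodule F V, locPhi Y W ≤ P := fun W => hP ▸ loc_phi_le h1
  obtain ⟨S, hS, h3, h4⟩ := loc_max (locPhi Y) (Submodule.span F (Y : Set V))
    (div_nonneg hP0 hG'.le)
  have hU := loc_rank (F := F) Y
  have h5 : ∀ m, locPhi Y (K m) ≤ P * finrank F (S ⊓ K m : Submodule F V) +
      P / G * finrank F (Submodule.span F (Y : Set V) ⊓ K m : Submodule F V) := by
    intro m
    have e1 : locPhi Y (K m) = locPhi Y (Submodule.span F (Y : Set V) ⊓ K m) :=
      sum_congr rfl fun x hx => by rw [← loc_span hx]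
    have e2 := loc_super Y S (Submodule.span F (Y : Set V) ⊓ K m)
    rw [← inf_assoc, inf_eq_left.2 hS] at e2
    have e3 := h4 _ (inf_le_left (b := K m))
    have e4 : locPhi Y (S ⊓ K m) ≤ P * finrank F (S ⊓ K m : Submodule F V) := by
      rcases Nat.eq_zero_or_pos (finrank F (S ⊓ K m : Submodule F V)) with h0 | h0
      · rw [Submodule.finrank_eq_zero.1 h0, loc_phi_bot]
        positivity
      · exact (hb _).trans (le_mul_of_one_le_right hP0 (Nat.one_le_cast.2 h0))
    linarith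
  have h6 := hD S ((Submodule.finrank_mono hS).trans (hU.trans h2))
  have h7 := hD _ (hU.trans h2)
  have h8 : P * finrank F S ≤ G * P := by
    rw [loc_phi_bot, div_mul_eq_mul_div, div_le_iff₀ hG'] at h3
    linarith [mul_le_mul_of_nonneg_right (hb S) hG'.le]
  have h9 : P / G * finrank F (Submodule.span F (Y : Set V)) ≤ 2 * G * P := by
    have e1 : (finrank F (Submodule.span F (Y : Set V)) : ℝ) ≤ 2 * G ^ 2 := by
      exact_mod_cast hU.trans h1
    rw [div_mul_eq_mul_div, div_le_iff₀ hG']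
    linarith [mul_le_mul_of_nonneg_left e1 hP0]
  have hc : 0 ≤ ρ * Fintype.card Ω := by positivity
  refine (sum_le_sum fun m _ => h5 m).trans ?_
  rw [sum_add_distrib, ← mul_sum, ← mul_sum]
  have e1 := mul_le_mul_of_nonneg_left h6 hP0
  have e2 := mul_le_mul_of_nonneg_left h7 (div_nonneg hP0 hG'.le)
  have e3 := mul_le_mul_of_nonneg_left h8 hc
  have e4 := mul_le_mul_of_nonneg_left h9 hc
  have e5 : 3 * ρ * G * Real.log (2 * G ^ 2 : ℕ) * Fintype.card Ω * Y.card =
      3 * (ρ * Fintype.card Ω * (G * P)) := by rw [hP]; ring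
  rw [e5]
  linarith

theorem loc_big {Q : Finset V} {d y0 : ℕ} (hy : 2 * d ≤ y0)
    (hd : ∀ Q' ⊆ Q, Q'.card ≤ d * finrank F (Submodule.span F (Q' : Set V))) (S : Submodule F V) :
    (Q.filter fun x => ¬ locA Q S x ≤ y0).card ≤ 2 * d * finrank F S := by
  classical
  have h1 := mul_card_image_le_card (f := S.mkQ) (Q.filter fun x => ¬ locA Q S x ≤ y0) (2 * d)
    fun b hb => by
      obtain ⟨x, hx, rfl⟩ := mem_image.1 hb
      have h2 := (mem_filter.1 hx).2
      refine hy.trans ((not_le.1 h2).le.trans (loc_le_card fun y h3 h4 => ?_))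
      exact mem_filter.2 ⟨mem_filter.2 ⟨h3, by rwa [loc_congr h4]⟩,
        (Submodule.Quotient.eq S).2 h4⟩
  have h2 := hd _ (filter_subset (fun x => ¬ locA Q S x ≤ y0) Q)
  generalize (Q.filter fun x => ¬ locA Q S x ≤ y0) = B at h1 h2 ⊢
  have h3 := LinearMap.finrank_range_add_finrank_ker
    (S.mkQ.domRestrict (Submodule.span F (B : Set V)))
  rw [LinearMap.range_domRestrict, LinearMap.ker_domRestrict, Submodule.ker_mkQ,
    Submodule.map_span, ← coe_image, ← Submodule.finrank_map_subtype_eq] at h3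
  have h4 := loc_rank (F := F) (B.image S.mkQ)
  have h5 := Submodule.finrank_mono
    (Submodule.map_comap_le (Submodule.span F (B : Set V)).subtype S)
  have h6 := h2.trans (Nat.mul_le_mul_left d (h3.ge.trans (add_le_add h4 h5)))
  rw [mul_add] at h6
  rw [mul_assoc] at h1 ⊢
  omega

theorem loc_small {Ω : Type} [Fintype Ω] {K : Ω → Submodule F V} {ρ : ℝ} {h G : ℕ}
    (hD : Design K ρ h) (hG : 1 ≤ G) (hρ : 0 ≤ ρ) {Q : Finset V} (hQ : Q.card ≤ h)
    (S : Submodule F V) :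
    ∑ m, ∑ x ∈ Q.filter fun x => locA Q S x ≤ 2 * G ^ 2, Real.log (locA Q (S ⊓ K m) x) ≤
      3 * ρ * G * Real.log (2 * G ^ 2 : ℕ) * Fintype.card Ω * Q.card := by
  classical
  obtain ⟨Z, hZ⟩ : ∃ Z, Z = Q.filter fun x => locA Q S x ≤ 2 * G ^ 2 := ⟨_, rfl⟩
  have hm : ∀ x, x ∈ Z ↔ x ∈ Q ∧ locA Q S x ≤ 2 * G ^ 2 := fun x => by rw [hZ, mem_filter]
  have hs : Z ⊆ Q := fun x hx => ((hm x).1 hx).1
  rw [← hZ]
  have h1 : ∀ m, ∑ x ∈ Z, Real.log (locA Q (S ⊓ K m) x) ≤
      ∑ c ∈ Z.image S.mkQ, locPhi (Z.filter fun x => S.mkQ x = c) (K m) := by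
    intro m
    rw [← sum_fiberwise_of_maps_to (g := S.mkQ) fun x hx => mem_image_of_mem _ hx]
    refine sum_le_sum fun c _ => sum_le_sum fun x hx => loc_log (loc_le fun y h2 h3 => ?_)
    obtain ⟨h4, rfl⟩ := mem_filter.1 hx
    exact ⟨mem_filter.2 ⟨(hm y).2 ⟨h2, by rw [loc_congr h3.1]; exact ((hm x).1 h4).2⟩,
      (Submodule.Quotient.eq S).2 h3.1⟩, h3.2⟩
  refine (sum_le_sum fun m _ => h1 m).trans ?_
  rw [sum_comm]
  refine (sum_le_sum fun c hc => loc_inner hD hG hρ ?_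
    ((card_le_card ((filter_subset _ _).trans hs)).trans hQ)).trans ?_
  · obtain ⟨x, hx, rfl⟩ := mem_image.1 hc
    refine (loc_card_le fun y hy => ?_).trans ((hm x).1 hx).2
    exact ⟨hs (mem_filter.1 hy).1, (Submodule.Quotient.eq S).1 (mem_filter.1 hy).2⟩
  · rw [← mul_sum, ← Nat.cast_sum, ← card_eq_sum_card_image]
    have := Real.log_natCast_nonneg (2 * G ^ 2)
    exact mul_le_mul_of_nonneg_left (Nat.cast_le.2 (card_le_card hs)) (by positivity)

theorem loc_heavy {Q : Finset V} {d y0 : ℕ} (hy : 2 * d ≤ y0)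
    (hd : ∀ Q' ⊆ Q, Q'.card ≤ d * finrank F (Submodule.span F (Q' : Set V)))
    (S K : Submodule F V) :
    ((Q.filter fun x => 3 ≤ locA Q K x).card : ℝ) ≤ 2 * d * (finrank F S + finrank F K) +
      (∑ x ∈ Q, Real.log (min (locA Q (S ⊔ K) x) y0 : ℕ) -
        ∑ x ∈ Q, Real.log (min (locA Q S x) y0 : ℕ)) +
      ∑ x ∈ Q.filter fun x => locA Q S x ≤ y0, Real.log (locA Q (S ⊓ K) x) := by
  classical
  obtain ⟨Z, hZ⟩ : ∃ Z, Z = Q.filter fun x => locA Q (S ⊔ K) x ≤ y0 := ⟨_, rfl⟩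
  have hm : ∀ x, x ∈ Z ↔ x ∈ Q ∧ locA Q (S ⊔ K) x ≤ y0 := fun x => by rw [hZ, mem_filter]
  have hs : Z ⊆ Q := fun x hx => ((hm x).1 hx).1
  have h1 : ∀ W ≤ S ⊔ K, locPhi Z W = ∑ x ∈ Z, Real.log (locA Q W x) := fun W hW =>
    sum_congr rfl fun x hx => by
      rw [le_antisymm (loc_le (Y' := Q) (W' := W) (x' := x) fun y h2 h3 => ⟨hs h2, h3⟩)
        (loc_le fun y h2 h3 =>
          ⟨(hm y).2 ⟨h2, by rw [loc_congr (hW h3)]; exact ((hm x).1 hx).2⟩, h3⟩)]
  have h2 := loc_super Z S K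
  rw [h1 S le_sup_left, h1 K le_sup_right, h1 _ le_rfl, h1 _ (inf_le_left.trans le_sup_left)] at h2
  have h3 : ∑ x ∈ Z, (Real.log (locA Q (S ⊔ K) x) - Real.log (locA Q S x)) ≤
      ∑ x ∈ Q, (Real.log (min (locA Q (S ⊔ K) x) y0 : ℕ) - Real.log (min (locA Q S x) y0 : ℕ)) := by
    refine le_trans (le_of_eq (sum_congr rfl fun x hx => ?_))
      (sum_le_sum_of_subset_of_nonneg hs fun x _ _ =>
        sub_nonneg.2 (loc_log (min_le_min_right _ (loc_mono le_sup_left))))
    rw [min_eq_left ((hm x).1 hx).2, min_eq_left ((loc_mono le_sup_left).trans ((hm x).1 hx).2)]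
  rw [sum_sub_distrib, sum_sub_distrib] at h3
  have h4 : ∑ x ∈ Z, Real.log (locA Q (S ⊓ K) x) ≤
      ∑ x ∈ Q.filter fun x => locA Q S x ≤ y0, Real.log (locA Q (S ⊓ K) x) :=
    sum_le_sum_of_subset_of_nonneg
      (fun x hx => mem_filter.2 ⟨hs hx, (loc_mono le_sup_left).trans ((hm x).1 hx).2⟩)
      fun x _ _ => Real.log_natCast_nonneg _
  have h5 : ((Z.filter fun x => 3 ≤ locA Q K x).card : ℝ) ≤ ∑ x ∈ Z, Real.log (locA Q K x) := by
    refine le_trans ?_ (sum_le_sum_of_subset_of_nonneg (filter_subset (fun x => 3 ≤ locA Q K x) Z)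
      fun x _ _ => Real.log_natCast_nonneg _)
    rw [← mul_one (Nat.cast _ : ℝ), ← nsmul_eq_mul]
    refine card_nsmul_le_sum _ _ _ fun x hx => le_trans ?_ (loc_log (mem_filter.1 hx).2)
    rw [Real.le_log_iff_exp_le (by norm_num)]
    exact Real.exp_one_lt_d9.le.trans (by norm_num)
  have h6 : (Q.filter fun x => 3 ≤ locA Q K x).card ≤
      (Z.filter fun x => 3 ≤ locA Q K x).card + 2 * d * (finrank F S + finrank F K) := by
    refine le_trans (card_le_card fun x hx => ?_) ((card_union_le _ _).trans (add_le_add le_rfl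
      ((loc_big hy hd (S ⊔ K)).trans (Nat.mul_le_mul_left _
        (Submodule.finrank_add_le_finrank_add_finrank S K)))))
    obtain ⟨h7, h8⟩ := mem_filter.1 hx
    by_cases h9 : locA Q (S ⊔ K) x ≤ y0
    · exact mem_union_left _ (mem_filter.2 ⟨(hm x).2 ⟨h7, h9⟩, h8⟩)
    · exact mem_union_right _ (mem_filter.2 ⟨h7, h9⟩)
  have h7 : ((Q.filter fun x => 3 ≤ locA Q K x).card : ℝ) ≤
      (Z.filter fun x => 3 ≤ locA Q K x).card + 2 * d * (finrank F S + finrank F K) := by
    exact_mod_cast h6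
  linarith

theorem loc_outer {S Ω : Type} [AddCommGroup S] [Module F S] [DecidableEq S] [Fintype Ω]
    (ev : Ω → V →ₗ[F] S) {ρ : ℝ} {h G : ℕ} (hD : Design (fun m => LinearMap.ker (ev m)) ρ h)
    (hG : 1 ≤ G) (hρ : 0 ≤ ρ) (hs : ρ * G * Real.log (2 * G ^ 2) ≤ 1 / 100)
    {Q : Finset V} (hQ : Q.card ≤ h) {d : ℕ} (hdG : d ≤ G ^ 2)
    (hd : ∀ Q' ⊆ Q, Q'.card ≤ d * finrank F (Submodule.span F (Q' : Set V)))
    (hr : d * finrank F (Submodule.span F (Q : Set V)) ≤ G * Q.card) :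
    Fintype.card Ω * Q.card ≤ 4 * ∑ m, (Q.image (ev m)).card := by
  classical
  obtain ⟨l, hl⟩ : ∃ l, l = Real.log (2 * G ^ 2 : ℕ) := ⟨_, rfl⟩
  have hl2 : 2 / 3 ≤ l := by
    have h1 : 2 ≤ 2 * G ^ 2 := Nat.le_mul_of_pos_right _ (by positivity)
    have h2 := loc_log h1
    have h3 := Real.log_two_gt_d9
    rw [← hl, Nat.cast_ofNat] at h2
    linarith
  have hs' : ρ * G * l ≤ 1 / 100 := by
    rw [hl]
    exact_mod_cast hs
  have hl0 : 0 < l := by linarith
  obtain ⟨T, hT, h1, h2⟩ := loc_max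
    (fun T : Submodule F V => ∑ x ∈ Q, Real.log (min (locA Q T x) (2 * G ^ 2) : ℕ))
    (Submodule.span F (Q : Set V)) (θ := 16 * d * l) (by positivity)
  have h3 : 16 * d * (finrank F T : ℝ) ≤ Q.card := by
    have e1 : ∑ x ∈ Q, Real.log (min (locA Q T x) (2 * G ^ 2) : ℕ) ≤ Q.card * l := by
      rw [← nsmul_eq_mul, hl]
      exact sum_le_card_nsmul _ _ _ fun x _ => loc_log (min_le_right _ _)
    have e2 : 0 ≤ ∑ x ∈ Q, Real.log (min (locA Q (⊥ : Submodule F V) x) (2 * G ^ 2) : ℕ) :=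
      sum_nonneg fun x _ => Real.log_natCast_nonneg _
    refine le_of_mul_le_mul_right ?_ hl0
    linarith
  have h4 : ∀ m, (Q.card : ℝ) ≤ 2 * (Q.image (ev m)).card + Q.card / 8 + (2 + 16 * l) * d *
      finrank F (Submodule.span F (Q : Set V) ⊓ LinearMap.ker (ev m) : Submodule F V) +
      ∑ x ∈ Q.filter fun x => locA Q T x ≤ 2 * G ^ 2,
        Real.log (locA Q (T ⊓ LinearMap.ker (ev m)) x) := by
    intro m
    have e1 := loc_heavy (y0 := 2 * G ^ 2) (by omega) hd T
      (Submodule.span F (Q : Set V) ⊓ LinearMap.ker (ev m))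
    rw [← inf_assoc, inf_eq_left.2 hT] at e1
    have e2 := h2 _ (inf_le_left (b := LinearMap.ker (ev m)))
    have e3 := card_le_mul_card_image_of_maps_to (f := ev m) (t := Q.image (ev m))
      (s := Q.filter fun x => ¬ 3 ≤ locA Q (Submodule.span F (Q : Set V) ⊓ LinearMap.ker (ev m)) x)
      (fun x hx => mem_image_of_mem _ (mem_filter.1 hx).1) 2 fun b _ => by
        refine Nat.le_of_not_lt fun hb => ?_
        obtain ⟨x, hx⟩ := card_pos.1 (two_pos.trans hb)
        obtain ⟨e4, rfl⟩ := mem_filter.1 hx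
        obtain ⟨e5, e6⟩ := mem_filter.1 e4
        rw [← loc_span e5] at e6
        refine e6 (le_trans hb (loc_card_le fun y hy => ?_))
        obtain ⟨e7, e8⟩ := mem_filter.1 hy
        exact ⟨(mem_filter.1 e7).1, by rw [LinearMap.mem_ker, map_sub, e8, sub_self]⟩
    have e4 := (card_filter_add_card_filter_not (s := Q) fun x =>
      3 ≤ locA Q (Submodule.span F (Q : Set V) ⊓ LinearMap.ker (ev m)) x).ge.trans
        (add_le_add le_rfl e3)
    have e5 := (Nat.cast_le (α := ℝ)).2 e4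
    rw [Nat.cast_add, Nat.cast_mul, Nat.cast_ofNat] at e5
    linarith
  have h5 := sum_le_sum fun m (_ : m ∈ univ) => h4 m
  simp only [sum_add_distrib, ← mul_sum, sum_const, card_univ, nsmul_eq_mul] at h5
  have h6 := loc_small hD hG hρ hQ T
  rw [← hl] at h6
  have h7 := mul_le_mul_of_nonneg_left (hD _ ((loc_rank Q).trans hQ))
    (show (0 : ℝ) ≤ (2 + 16 * l) * d by positivity)
  have h8 : (d : ℝ) * finrank F (Submodule.span F (Q : Set V)) ≤ G * Q.card := by
    exact_mod_cast hr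
  have h9 := mul_le_mul_of_nonneg_left h8
    (show (0 : ℝ) ≤ (2 + 16 * l) * (ρ * Fintype.card Ω) by positivity)
  have hc : (0 : ℝ) ≤ Fintype.card Ω * Q.card := by positivity
  have e1 := mul_le_mul_of_nonneg_right hs' hc
  have e2 := mul_le_mul_of_nonneg_right (mul_le_mul_of_nonneg_left hl2
    (show 0 ≤ ρ * G by positivity)) hc
  rw [← Nat.cast_le (α := ℝ)]
  push_cast
  linarith

end aux

theorem local_lemma {F V S Ω : Type} [Field F] [AddCommGroup V] [Module F V] [Finite V]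
    [AddCommGroup S] [Module F S] [DecidableEq S] [Fintype Ω]
    (ev : Ω → V →ₗ[F] S) (ρ : ℝ) (h G : ℕ) (hD : Design (fun m => LinearMap.ker (ev m)) ρ h)
    (hG : 1 ≤ G) (hρ : 0 ≤ ρ) (hs : ρ * G * Real.log (2 * G ^ 2) ≤ 1 / 100)
    (P : Finset V) (hP : P.card ≤ h)
    (hd : ∀ Q ⊆ P, Q.card ≤ G ^ 2 * finrank F (Submodule.span F (Q : Set V))) :
    Fintype.card Ω * P.card ≤ 8 * ∑ m, (P.image (ev m)).card := by
  classical
  obtain ⟨A, hA, hm⟩ := exists_max_image P.powerset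
    (fun A : Finset V => (A.card : ℤ) - G * finrank F (Submodule.span F (A : Set V)))
    ⟨∅, empty_mem_powerset P⟩
  have hAP := mem_powerset.1 hA
  have key : ∀ Q ⊆ P, P.card ≤ 2 * Q.card →
      Fintype.card Ω * Q.card ≤ 4 * ∑ m, (Q.image (ev m)).card →
      Fintype.card Ω * P.card ≤ 8 * ∑ m, (P.image (ev m)).card := by
    intro Q hQ h1 h2
    have h3 : ∑ m, (Q.image (ev m)).card ≤ ∑ m, (P.image (ev m)).card :=
      sum_le_sum fun m _ => card_le_card (image_subset_image hQ)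
    have h4 := Nat.mul_le_mul_left (Fintype.card Ω) h1
    rw [mul_left_comm] at h4
    omega
  by_cases h1 : P.card ≤ 2 * A.card
  · refine key A hAP h1 (loc_outer ev hD hG hρ hs ((card_le_card hAP).trans hP) le_rfl
      (fun Q hQ => hd Q (hQ.trans hAP)) ?_)
    have h2 := hm ∅ (empty_mem_powerset P)
    rw [coe_empty, Submodule.span_empty, finrank_bot, card_empty, Nat.cast_zero, mul_zero,
      sub_zero, sub_nonneg] at h2
    rw [sq, mul_assoc]
    exact Nat.mul_le_mul_left _ (by exact_mod_cast h2)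
  · have h2 := card_sdiff_add_card_eq_card hAP
    refine key (P \ A) sdiff_subset (by omega) (loc_outer ev hD hG hρ hs
      ((card_le_card sdiff_subset).trans hP) (Nat.le_self_pow two_ne_zero G) (fun Q hQ => ?_)
      (Nat.mul_le_mul_left _ (loc_rank _)))
    have h3 := hm (A ∪ Q) (mem_powerset.2 (union_subset hAP (hQ.trans sdiff_subset)))
    have h4 := Nat.mul_le_mul_left G (Submodule.finrank_add_le_finrank_add_finrank
      (Submodule.span F (A : Set V)) (Submodule.span F (Q : Set V)))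
    rw [card_union_of_disjoint (disjoint_sdiff.mono_right hQ), coe_union,
      Submodule.span_union] at h3
    zify at h4 ⊢
    push_cast at h3
    linarith

end Pool.Agent.MP_a2da35_lc
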