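import Pool.Agent.MP_a2da35_lc.Bridge
import Pool.Agent.MP_a2da35_lc.Gadget

/-!
Choice of the parameters.
-/

namespace Pool.Agent.MP_a2da35_lc

open Finset Filter Topology Pool.Agent.Lib.Cx

theorem sizes (G : Gad) (hG : G.Geo) {R Γ : ℕ} (hR : 0 < R)
    (hA : G.QA = 2 ^ (R * G.w * G.β)) (hS : G.QS = 2 ^ (R ^ G.t * G.β)) :
    ∃ A : ℕ, ∀ D : Dat, D.G = G → D.d = R * G.w * G.β → D.Γ = Γ →
      D.N ≤ A * 2 ^ (3000 * G.t * (R ^ G.t + Γ * R + R) * (D.n / G.k1)) ∧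
      D.tape ≤ A * (D.n + 1) ^ 2 * 2 ^ (2 * (3000 * G.t * (R ^ G.t + Γ * R + R) * (D.n / G.k1))) := by
  set Λ := 3000 * G.t * (R ^ G.t + Γ * R + R) with hΛ
  set c1 := 3000 * R * G.t * G.w + 2 * R * G.w * G.β with hc1
  set C := c1 + (3000 * R ^ G.t * G.t + 2 * R ^ G.t * G.β) +
    (Γ * (c1 + 20 * G.k * (2 * G.k + 6)) + G.ν) with hC
  refine ⟨(3 * G.k + 6) * 2 ^ C + 3 * (5 * G.k + (2 * G.k + 6) * G.ν + 1) * (1 + 2 * (Λ + C)) *
    2 ^ (2 * C), ?_⟩
  rintro D rfl hd rfl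
  set z := D.n / D.G.k1 with hz
  set y := D.n / D.G.ν with hy
  have h1 : D.G.w * y ≤ z := by
    rw [hz, Nat.le_div_iff_mul_le hG.k1_pos]
    refine le_trans (le_of_eq ?_) (Nat.div_mul_le_self D.n D.G.ν)
    rw [← hy, Gad.ν]; ring
  have h2 : y ≤ z := le_trans (Nat.le_mul_of_pos_left _ hG.w_pos) h1
  have h3 : D.G.β * D.s0 ≤ 1500 * D.G.t * (y + 1) + D.G.β := by
    rw [Dat.s0, mul_add, mul_one]
    refine Nat.add_le_add_right ((Nat.mul_div_le _ _).trans (le_of_eq ?_)) _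
    rw [Dat.cap, ← hy]; ring
  have h4 : D.d * D.s ≤ 3000 * D.G.t * R * z + c1 := by
    calc D.d * D.s = 2 * R * D.G.w * (D.G.β * D.s0) := by rw [hd, Dat.s]; ring
      _ ≤ 2 * R * D.G.w * (1500 * D.G.t * (y + 1) + D.G.β) := Nat.mul_le_mul_left _ h3
      _ = 3000 * D.G.t * R * (D.G.w * y) + c1 := by rw [hc1]; ring
      _ ≤ _ := Nat.add_le_add_right (Nat.mul_le_mul_left _ h1) _
  have h5 : R ^ D.G.t * D.G.β * D.s ≤ 3000 * D.G.t * R ^ D.G.t * z +
      (3000 * R ^ D.G.t * D.G.t + 2 * R ^ D.G.t * D.G.β) := by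
    calc _ = 2 * R ^ D.G.t * (D.G.β * D.s0) := by rw [Dat.s]; ring
      _ ≤ 2 * R ^ D.G.t * (1500 * D.G.t * (z + 1) + D.G.β) :=
          Nat.mul_le_mul_left _ (h3.trans (by gcongr))
      _ = _ := by ring
  have h6 : D.b * D.G.ν ≤ 3000 * D.G.t * (D.Γ * R) * z +
      (D.Γ * (c1 + 20 * D.G.k * (2 * D.G.k + 6)) + D.G.ν) := by
    have a1 := Nat.div_mul_le_self (D.Γ * (D.d * D.s + 20 * D.G.k * (2 * D.G.k + 6))) D.G.ν
    have a2 := Nat.mul_le_mul_left D.Γ (Nat.add_le_add_right h4 (20 * D.G.k * (2 * D.G.k + 6)))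
    rw [Dat.b, add_mul, one_mul, ← add_assoc]
    refine Nat.add_le_add_right (a1.trans (a2.trans (le_of_eq ?_))) _
    ring
  have e : Λ * z = 3000 * D.G.t * R ^ D.G.t * z + 3000 * D.G.t * (D.Γ * R) * z +
      3000 * D.G.t * R * z := by rw [hΛ]; ring
  set P := 2 ^ (Λ * z + C) with hP
  have hP1 : 1 ≤ P := Nat.one_le_two_pow
  have m1 : D.M ≤ P := by
    rw [Dat.M, hA, ← hd, ← pow_mul]
    exact Nat.pow_le_pow_right (by norm_num) (by omega)
  have m2 : D.MS ≤ P := by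
    rw [Dat.MS, hS, ← pow_mul]
    exact Nat.pow_le_pow_right (by norm_num) (by omega)
  have m3 : D.Rn ≤ (2 * D.G.k + 6) * P :=
    Nat.mul_le_mul_left _ (Nat.pow_le_pow_right (by norm_num) (by omega))
  have m4 : D.W ≤ (1 + 2 * (Λ + C)) * (D.n + 1) := by
    have a1 : D.b1 ≤ D.d * D.s := by
      refine (Nat.div_le_self _ _).trans ?_
      rw [hd, Dat.s, show R * D.G.w * D.G.β * (2 * D.s0) = 2 * R * (D.G.β * D.G.w * D.s0) by ring]
      exact Nat.le_mul_of_pos_left _ (by omega)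
    have a2 : D.b ≤ D.b * D.G.ν := Nat.le_mul_of_pos_right _ (Nat.mul_pos hG.k1_pos hG.w_pos)
    have a3 : Λ * z ≤ Λ * D.n := Nat.mul_le_mul_left _ (Nat.div_le_self _ _)
    rw [Dat.W, show (1 + 2 * (Λ + C)) * (D.n + 1) =
      D.n + 2 * (Λ * D.n) + 2 * C + (1 + 2 * Λ + 2 * (C * D.n)) by ring]
    omega
  have m5 : D.B ≤ D.n + 1 := Nat.succ_le_succ (Nat.div_le_self _ _)
  constructor
  · calc D.N ≤ D.G.k * P + (2 * D.G.k + 6) * P := Nat.add_le_add (Nat.mul_le_mul_left _ m1) m3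
      _ = (3 * D.G.k + 6) * 2 ^ C * 2 ^ (Λ * z) := by rw [hP]; ring
      _ ≤ _ := Nat.mul_le_mul_right _ (Nat.le_add_right _ _)
  · have hQ : 1 ≤ (D.n + 1) * P * P := Nat.succ_le_of_lt (by positivity)
    have b1 : D.G.k * D.B ≤ D.G.k * ((D.n + 1) * P * P) :=
      Nat.mul_le_mul_left _ (m5.trans ((Nat.le_mul_of_pos_right _ hP1).trans
        (Nat.le_mul_of_pos_right _ hP1)))
    have b2 : D.G.k * D.M ≤ D.G.k * ((D.n + 1) * P * P) :=
      Nat.mul_le_mul_left _ (m1.trans (Nat.le_mul_of_pos_left _ (by positivity)))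
    have b3 : D.Rn * (D.G.ν * D.MS) ≤ (2 * D.G.k + 6) * D.G.ν * ((D.n + 1) * P * P) := by
      calc _ ≤ (2 * D.G.k + 6) * P * (D.G.ν * P) := Nat.mul_le_mul m3 (Nat.mul_le_mul_left _ m2)
        _ = (2 * D.G.k + 6) * D.G.ν * (1 * P * P) := by ring
        _ ≤ _ := by gcongr; omega
    calc D.tape ≤ 3 * ((5 * D.G.k + (2 * D.G.k + 6) * D.G.ν + 1) * ((D.n + 1) * P * P)) *
          ((1 + 2 * (Λ + C)) * (D.n + 1)) :=
          Nat.mul_le_mul (Nat.mul_le_mul_left _ (by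
            rw [add_mul, add_mul, one_mul, mul_assoc 5]; omega)) m4
      _ = 3 * (5 * D.G.k + (2 * D.G.k + 6) * D.G.ν + 1) * (1 + 2 * (Λ + C)) * 2 ^ (2 * C) *
          (D.n + 1) ^ 2 * 2 ^ (2 * (Λ * z)) := by rw [hP]; ring
      _ ≤ _ := Nat.mul_le_mul_right _ (Nat.mul_le_mul_right _ (Nat.le_add_left _ _))

theorem growth (A : ℝ) {D : ℕ} (hD : 0 < D) :
    ∀ᶠ n : ℕ in atTop, A * (n + 1) ^ 2 * 2 ^ ((n : ℝ) / (2 * D)) ≤ ((2 ^ (n / D) : ℕ) : ℝ) := by
  have hD' : (0 : ℝ) < D := by exact_mod_cast hD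
  have h1 := (tendsto_exp_mul_div_rpow_atTop 2 (Real.log 2 / (2 * D))
    (by have := Real.log_pos one_lt_two; positivity)).comp tendsto_natCast_atTop_atTop
  filter_upwards [h1.eventually_ge_atTop (8 * |A|), eventually_ge_atTop 1] with n h2 h3
  have hn : (1 : ℝ) ≤ n := by exact_mod_cast h3
  simp only [Function.comp] at h2
  rw [le_div_iff₀ (by positivity), show Real.log 2 / (2 * D) * n = Real.log 2 * (n / (2 * D)) by
    ring, ← Real.rpow_def_of_pos two_pos, Real.rpow_two] at h2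
  have h4 : (n : ℝ) / D ≤ (n / D : ℕ) + 1 := by
    rw [div_le_iff₀ hD']
    exact_mod_cast (by rw [mul_comm]; exact (Nat.lt_mul_div_succ n hD).le : n ≤ (n / D + 1) * D)
  have h5 : (2 : ℝ) ^ ((n : ℝ) / (2 * D)) * 2 ^ ((n : ℝ) / (2 * D)) ≤ 2 ^ (n / D) * 2 := by
    rw [← Real.rpow_add two_pos, ← pow_succ, ← Real.rpow_natCast]
    refine Real.rpow_le_rpow_of_exponent_le one_le_two ?_
    push_cast
    refine le_trans (le_of_eq ?_) h4
    field_simp
    ring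
  have h6 : (0 : ℝ) < 2 ^ ((n : ℝ) / (2 * D)) := by positivity
  have h7 : A * (n + 1) ^ 2 * 2 ≤ 2 ^ ((n : ℝ) / (2 * D)) := by
    have a1 : ((n : ℝ) + 1) ^ 2 ≤ 4 * n ^ 2 := by nlinarith
    have a2 := mul_le_mul (le_abs_self A) a1 (by positivity) (abs_nonneg A)
    nlinarith
  push_cast
  nlinarith

theorem growth3 (A : ℝ) {D : ℕ} (hD : 0 < D) :
    ∀ᶠ n : ℕ in atTop,
      A * (n + 1) ^ 2 * 2 ^ ((n : ℝ) / (2 * D)) ≤ ((2 ^ (n / D) / 3 : ℕ) : ℝ) := by
  filter_upwards [growth (3 * |A| + 3) hD] with n h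
  have h1 : ((2 ^ (n / D) : ℕ) : ℝ) ≤ 3 * ((2 ^ (n / D) / 3 : ℕ) : ℝ) + 3 := by
    exact_mod_cast (by omega : 2 ^ (n / D) ≤ 3 * (2 ^ (n / D) / 3) + 3)
  have h2 : (1 : ℝ) ≤ 2 ^ ((n : ℝ) / (2 * D)) := Real.one_le_rpow one_le_two (by positivity)
  have h3 : (1 : ℝ) ≤ (n + 1) ^ 2 := by nlinarith [Nat.cast_nonneg (α := ℝ) n]
  have h4 := one_le_mul_of_one_le_of_one_le h3 h2
  have h5 := mul_le_mul_of_nonneg_right (le_abs_self A) (zero_le_one.trans h4)
  nlinarith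

theorem getD_table {β : Type} (a : ℕ) (f : ℕ → β) (d : β) (i : ℕ) :
    ((List.range a).map f).getD i d = if i < a then f i else d := by
  split_ifs with h
  · simp [List.getD_eq_getElem?_getD, h]
  · simp [List.getD_eq_getElem?_getD, h]

theorem exists_adv (G : Gad) (hG : G.Norm) (d Γ p h : ℕ) :
    ∃ a : Adv, gad a = G ∧ un a 4 = d ∧ un a 5 = Γ ∧ un a 6 = p ∧ un a 7 = h := by
  refine ⟨([G.t, G.k1, G.w, G.β, d, Γ, p, h].map fun j => List.replicate j (), [G.QA, G.QS],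
    (List.range G.k).map fun i => (List.range G.ν).map (G.inc i),
    (List.range G.k).map fun i => (List.range G.ν).map (G.route i),
    (List.range G.k).map fun i => (List.range G.ν).map fun m => (List.range G.QA).map (G.ev i m),
    (List.range G.QS).map fun l => (List.range G.β).map (G.raw l)), ?_, by simp [un], by simp [un],
    by simp [un], by simp [un]⟩
  obtain ⟨h1, h2, h3, h4⟩ := hG
  cases G
  simp only [gad, Gad.mk.injEq, getD_table] at h1 h2 h3 h4 ⊢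
  refine ⟨by simp [un], by simp [un], by simp [un], by simp [un], by simp, by simp, ?_, ?_, ?_, ?_⟩
  · funext i m
    split_ifs with hi
    · rw [getD_table]
      split_ifs with hm
      exacts [rfl, (h1 _ _ (by tauto)).symm]
    · exact (h1 _ _ (by tauto)).symm
  · funext i m
    split_ifs with hi
    · rw [getD_table]
      split_ifs with hm
      exacts [rfl, (h2 _ _ (by tauto)).symm]
    · exact (h2 _ _ (by tauto)).symm
  · funext i m l
    split_ifs with hi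
    · rw [getD_table]
      split_ifs with hm
      · rw [getD_table]
        split_ifs with hl
        exacts [rfl, (h3 _ _ _ (by tauto)).symm]
      · exact (h3 _ _ _ (by tauto)).symm
    · exact (h3 _ _ _ (by tauto)).symm
  · funext i m
    split_ifs with hi
    · rw [getD_table]
      split_ifs with hm
      exacts [rfl, (h4 _ _ (by tauto)).symm]
    · exact (h4 _ _ (by tauto)).symm

theorem two_pow_le {Λ k1 n : ℕ} {γ x : ℝ} (hx : 0 ≤ x)
    (h : Λ * γ ≤ k1 * x) : ((2 ^ (Λ * (n / k1)) : ℕ) : ℝ) ^ γ ≤ 2 ^ (n * x) := by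
  push_cast
  rw [← Real.rpow_natCast, ← Real.rpow_mul two_pos.le]
  refine Real.rpow_le_rpow_of_exponent_le one_le_two ?_
  have h1 : ((n / k1 : ℕ) : ℝ) * k1 ≤ n := by exact_mod_cast Nat.div_mul_le_self n k1
  have h2 := mul_le_mul_of_nonneg_left h (Nat.cast_nonneg (α := ℝ) (n / k1))
  have h3 := mul_le_mul_of_nonneg_right h1 hx
  push_cast
  nlinarith

/-- For a suitable advice the algorithm is correct on all formulas. -/
theorem exists_good_adv {M : Turing.TM2ComputableAux Bool Bool} {c : ℝ} (hc : 1 ≤ c)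
    {f g : ℕ → ℝ} (hg : Tendsto (fun k => g k / k) atTop (𝓝 0))
    (hM : Approximates M c fun N k => f k * (N : ℝ) ^ g k)
    {sim : List Bool × List Bool → List Bool}
    (hs : ∀ x r y, Runs M x y r.length → sim (x, r) = y) {ε : ℝ} (hε : 0 < ε) {D' : ℕ}
    (hD : 0 < D') : ∃ a : Adv, ∀ n φ, OnVars n φ →
      (Satisfiable φ → 2 / 3 ≤
        pr fun r : Fin (2 ^ (n / D')) → Bool => alg sim (a, (n, φ), List.ofFn r) = true) ∧
      (Far ε φ → (pr fun r : Fin (2 ^ (n / D')) → Bool =>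
        alg sim (a, (n, φ), List.ofFn r) = true) ≤ 1 / 3) := by
  obtain ⟨E, hE⟩ := exists_nat_ge (1 / ε)
  rw [div_le_iff₀ hε] at hE
  have hE0 : 0 < E := by
    rcases Nat.eq_zero_or_pos E with rfl | h
    · norm_num at hE
    · exact h
  obtain ⟨c0, hc0⟩ := exists_nat_ge c
  have hc1 : 0 < c0 := by exact_mod_cast (show (0 : ℝ) < c0 by linarith)
  obtain ⟨Γ, hΓ⟩ : ∃ Γ, Γ = 393216000 * c0 * E := ⟨_, rfl⟩
  obtain ⟨t, ht⟩ : ∃ t, t = 2048 * c0 * Γ := ⟨_, rfl⟩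
  have hΓ0 : 0 < Γ := by rw [hΓ]; positivity
  have ht0 : 0 < t := by rw [ht]; positivity
  obtain ⟨R, g0, hR, hg0, hG⟩ := exists_gad t ht0
  obtain ⟨Λ, hΛ⟩ : ∃ Λ, Λ = 3000 * t * (R ^ t + Γ * R + R) := ⟨_, rfl⟩
  have hΛ0 : 0 < Λ := by rw [hΛ]; positivity
  have hD' : (0 : ℝ) < D' := by exact_mod_cast hD
  have hΛ' : (0 : ℝ) < Λ := by exact_mod_cast hΛ0
  have ht' : (0 : ℝ) < t := by exact_mod_cast ht0
  obtain ⟨k1, hk1, hk2⟩ := (((hg.comp (tendsto_id.const_mul_atTop' ht0)).eventually_le_const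
    (show (0 : ℝ) < 1 / (2 * D' * Λ * t) by positivity)).and
    (eventually_ge_atTop (4 * Λ * D'))).exists
  have hk0 : 0 < k1 := lt_of_lt_of_le (by positivity) hk2
  have hk' : (0 : ℝ) < k1 := by exact_mod_cast hk0
  simp only [Function.comp, id] at hk1
  obtain ⟨G, g1, g2, -, g4, g5, g6, g7, g8⟩ := hG k1 (2048 * Γ * k1) hk0
  have hk : G.k = t * k1 := by rw [Gad.k, g1, g2]
  obtain ⟨A, hA⟩ := sizes G g6 (Γ := Γ) hR g4 (by rw [g5, g1])
  rw [g1, g2, ← hΛ] at hA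
  set γ := max (g G.k) 0 with hγ
  have hγ0 : 0 ≤ γ := le_max_right _ _
  have hν : 0 < G.ν := Nat.mul_pos g6.k1_pos g6.w_pos
  obtain ⟨n0, hn0⟩ := eventually_atTop.1 ((growth3 (A + 1) hD).and
    ((growth3 (|f G.k| * A ^ γ) hD).and (eventually_ge_atTop (2 * (G.k + G.ν) ^ 2 * G.ν + 1))))
  obtain ⟨a, a1, a2, a3, a4, a5⟩ := exists_adv G g8 (R * G.w * G.β) Γ (2 ^ n0) (2048 * Γ * k1)
  refine ⟨a, fun n φ hφ => ?_⟩
  by_cases hsm : φ = [] ∨ n < size (un a 6 + φ.length)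
  · have key : ∀ r : List Bool, alg sim (a, (n, φ), r) = true ↔ Satisfiable φ := by
      classical
      intro r
      rw [alg, if_pos (show Small (a, (n, φ), r) from hsm), decide_eq_true_eq]
      refine ⟨Brute.sat, fun h => ?_⟩
      rcases hsm with rfl | hsm
      · exact ⟨0, by simp [lb, a4], by simp⟩
      · exact brute_of_sat hφ hsm h
    simp only [key]
    refine ⟨fun h => ?_, fun h => ?_⟩
    · have := pr_not (fun _ : Fin (2 ^ (n / D')) → Bool => Satisfiable φ)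
      rw [pr_false fun _ h' => h' h] at this
      linarith
    · rw [pr_false fun _ => h.not_sat hε]
      norm_num
  have hlt : 2 ^ n0 + φ.length < 2 ^ n := by
    rw [← a4, ← size_nat_le_iff]
    exact not_lt.1 fun h => hsm (Or.inr h)
  have hn : n0 ≤ n :=
    ((Nat.pow_lt_pow_iff_right one_lt_two).1 ((Nat.le_add_right _ _).trans_lt hlt)).le
  obtain ⟨b1, b2, b3⟩ := hn0 n hn
  set T := 2 ^ (n / D') / 3 with hT
  have hx : (1 : ℝ) ≤ 2 ^ ((n : ℝ) / (2 * D')) := Real.one_le_rpow one_le_two (by positivity)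
  have hn1 : (n : ℝ) + 1 ≤ (n + 1) ^ 2 := by nlinarith [Nat.cast_nonneg (α := ℝ) n]
  have hA0 : (0 : ℝ) ≤ A := Nat.cast_nonneg _
  have hnT : n ≤ T := by
    have : (n : ℝ) ≤ T := by
      refine le_trans ?_ b1
      nlinarith [mul_nonneg hA0 (sq_nonneg ((n : ℝ) + 1)), sq_nonneg ((n : ℝ) + 1),
        mul_le_mul_of_nonneg_left hx (show 0 ≤ (A + 1 : ℝ) * (n + 1) ^ 2 by positivity)]
    exact_mod_cast this
  have e1 : (datT a (n, φ) T).n = n := min_eq_left hnT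
  have e2 : (datT a (n, φ) T).G = G := a1
  obtain ⟨s1, s2⟩ := hA (datT a (n, φ) T) e2 a2 a3
  rw [e1] at s1 s2
  have p1 : ((2 ^ (2 * (Λ * (n / k1))) : ℕ) : ℝ) ≤ 2 ^ ((n : ℝ) / (2 * D')) := by
    have := two_pow_le (Λ := Λ) (n := n) (k1 := k1) (γ := 2) (x := 1 / (2 * D'))
      (by positivity) (by
        rw [mul_one_div, le_div_iff₀ (by positivity)]
        have : ((4 * Λ * D' : ℕ) : ℝ) ≤ k1 := by exact_mod_cast hk2
        push_cast at this
        linarith)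
    rwa [mul_one_div, Real.rpow_two, ← Nat.cast_pow, ← pow_mul, mul_comm _ 2] at this
  have p2 : ((2 ^ (Λ * (n / k1)) : ℕ) : ℝ) ^ γ ≤ 2 ^ ((n : ℝ) / (2 * D')) := by
    have := two_pow_le (Λ := Λ) (n := n) (k1 := k1) (γ := γ) (x := 1 / (2 * D'))
      (by positivity) (by
        have h1 : γ ≤ 1 / (2 * D' * Λ * t) * (t * k1) := by
          refine max_le ?_ (by positivity)
          rw [div_le_iff₀ (by positivity)] at hk1
          rw [hk]
          exact_mod_cast hk1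
        refine (mul_le_mul_of_nonneg_left h1 hΛ'.le).trans (le_of_eq ?_)
        field_simp)
    rwa [mul_one_div] at this
  have q1 : ((A * (n + 1) ^ 2 * 2 ^ (2 * (Λ * (n / k1))) : ℕ) : ℝ) ≤ T := by
    refine le_trans ?_ b1
    rw [Nat.cast_mul]
    refine mul_le_mul ?_ p1 (by positivity) (by positivity)
    push_cast
    nlinarith [sq_nonneg ((n : ℝ) + 1)]
  have q2 : A * (n + 1) ^ 2 * 2 ^ (2 * (Λ * (n / k1))) ≤ T := by exact_mod_cast q1
  have H : (datT a (n, φ) T).Good c0 E (un a 7) g0 R := by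
    refine ⟨wf_datT a hφ hnT (by omega) (fun h => hsm (Or.inl h)) (by omega), e2 ▸ g6,
      by rw [e2, a5]; exact g7, hc1, hE0, hR, by rw [e2, g4, ← a2]; rfl, by rw [e2]; exact a2,
      by rw [e2, g1]; exact hg0, a3.trans hΓ, by rw [e2, g1, ht, ← a3]; rfl,
      by rw [e2, hk, a5, ht]; ring, ?_⟩
    rw [e1, e2, Nat.le_div_iff_mul_le hν]
    omega
  have key := alg_large hM hs a n _ T hT.symm φ (by linarith) hc0 H hsm (s1.trans (le_trans ?_ q2))
    (s2.trans q2) ?_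
  · exact ⟨key.1, fun h => key.2 (isFar_datT hE a n T h)⟩
  · exact Nat.mul_le_mul (Nat.le_mul_of_pos_right _ (by positivity))
      (Nat.pow_le_pow_right (by norm_num) (by omega))
  · refine le_trans ?_ b2
    rw [e2]
    have hN : (1 : ℝ) ≤ (datT a (n, φ) T).N := by
      have := Nat.mul_pos H.k_pos H.M_pos
      exact_mod_cast (show 1 ≤ (datT a (n, φ) T).N by unfold Dat.N; omega)
    have r1 : ((datT a (n, φ) T).N : ℝ) ^ g G.k ≤ A ^ γ * 2 ^ ((n : ℝ) / (2 * D')) := by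
      refine (Real.rpow_le_rpow_of_exponent_le hN (le_max_left _ 0)).trans ?_
      refine (Real.rpow_le_rpow (by linarith) (Nat.cast_le.2 s1) hγ0).trans ?_
      rw [Nat.cast_mul, Real.mul_rpow hA0 (by positivity)]
      exact mul_le_mul_of_nonneg_left p2 (by positivity)
    have r2 := mul_le_mul (le_abs_self (f G.k)) r1 (by positivity) (abs_nonneg _)
    refine r2.trans ?_
    rw [← mul_assoc]
    refine mul_le_mul_of_nonneg_right (le_mul_of_one_le_right (by positivity) ?_) (by positivity)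
    linarith [Nat.cast_nonneg (α := ℝ) n]

theorem main (H : GapETH) (c : ℝ) (hc : 1 ≤ c) (f g : ℕ → ℝ)
    (hg : Tendsto (fun k => g k / k) atTop (𝓝 0)) :
    ¬ ∃ M, Approximates M c fun N k => f k * (N : ℝ) ^ g k := by
  rintro ⟨M, hM⟩
  obtain ⟨ε, hε, δ, hδ, hno⟩ := H
  obtain ⟨sim, hsim, hs⟩ := exists_sim M
  obtain ⟨e, he⟩ := exists_machine (alg sim) (alg_pt hsim)
  obtain ⟨D0, hD0⟩ := exists_nat_ge (e / δ)
  obtain ⟨a, ha⟩ := exists_good_adv hc hg hM hs hε (Nat.succ_pos D0)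
  obtain ⟨M', C, hM'⟩ := he a
  refine hno ⟨M', C * 5 ^ e + e, D0 + 1, fun n φ hφ => ?_⟩
  have key : ∀ r : Fin (2 ^ (n / (D0 + 1))) → Bool,
      Runs M' (enc ((n, φ), List.ofFn r)) [alg sim (a, (n, φ), List.ofFn r)]
        (((C * 5 ^ e + e : ℕ) : ℝ) * (size (n, φ) + 1 : ℝ) ^ (C * 5 ^ e + e) *
          (2 : ℝ) ^ (δ * n)) := by
    intro r
    refine (hM' _).mono ?_
    have h1 : size ((n, φ), List.ofFn r) + 1 ≤ 5 * (size (n, φ) + 1) * 2 ^ (n / (D0 + 1)) := by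
      rw [size_prod _, size_listBool, List.length_ofFn]
      have : 1 ≤ 2 ^ (n / (D0 + 1)) := Nat.one_le_two_pow
      nlinarith [Nat.zero_le (size (n, φ))]
    have h2 : (size ((n, φ), List.ofFn r) + 1 : ℝ) ≤
        5 * (size (n, φ) + 1) * 2 ^ (n / (D0 + 1)) := by exact_mod_cast h1
    have h3 : ((2 : ℝ) ^ (n / (D0 + 1))) ^ e ≤ 2 ^ (δ * n) := by
      rw [← pow_mul, ← Real.rpow_natCast]
      refine Real.rpow_le_rpow_of_exponent_le one_le_two ?_
      rw [div_le_iff₀ hδ] at hD0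
      have h4 : ((n / (D0 + 1) : ℕ) : ℝ) * (D0 + 1) ≤ n := by
        exact_mod_cast Nat.div_mul_le_self n (D0 + 1)
      have h5 := Nat.cast_nonneg (α := ℝ) (n / (D0 + 1))
      push_cast
      nlinarith [mul_le_mul_of_nonneg_left hD0 h5, mul_le_mul_of_nonneg_left h4 hδ.le]
    have h6 : (1 : ℝ) ≤ size (n, φ) + 1 := by linarith [Nat.cast_nonneg (α := ℝ) (size (n, φ))]
    calc (C : ℝ) * (size ((n, φ), List.ofFn r) + 1 : ℝ) ^ e ≤
          C * (5 * (size (n, φ) + 1) * 2 ^ (n / (D0 + 1))) ^ e := by gcongr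
      _ = C * 5 ^ e * (size (n, φ) + 1) ^ e * (2 ^ (n / (D0 + 1))) ^ e := by
          rw [mul_pow, mul_pow]; ring
      _ ≤ _ := by
          refine mul_le_mul (mul_le_mul ?_ (pow_le_pow_right₀ h6 (Nat.le_add_left _ _))
            (by positivity) (by positivity)) h3 (by positivity) (by positivity)
          push_cast
          linarith [Nat.cast_nonneg (α := ℝ) e]
  have e1 : acceptProb M' n φ (2 ^ (n / (D0 + 1))) (((C * 5 ^ e + e : ℕ) : ℝ) *
      (size (n, φ) + 1 : ℝ) ^ (C * 5 ^ e + e) * (2 : ℝ) ^ (δ * n)) =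
      pr fun r : Fin (2 ^ (n / (D0 + 1))) → Bool => alg sim (a, (n, φ), List.ofFn r) = true := by
    rw [acceptProb, pr]
    congr 1
    · congr 2
      ext r
      simp only [mem_filter, mem_univ, true_and]
      exact ⟨fun h => (List.cons.inj ((key r).unique h)).1, fun h => h ▸ key r⟩
    · simp
  refine ⟨fun r => ⟨_, key r⟩, ?_⟩
  have := ha n φ hφ
  rw [← e1] at this
  exact this

end Pool.Agent.MP_a2da35_lc
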