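import Pool.Agent.MP_a2da35_lc.Yes
import Pool.Agent.MP_a2da35_lc.Cover

/-!
Soundness.
-/

namespace Pool.Agent.MP_a2da35_lc

open Finset

namespace Dat

variable {D : Dat} {c E h g R : ℕ}

theorem Good.h_le (H : D.Good c E h g R) : h ≤ D.G.k := by
  rw [H.k_eq]; exact Nat.le_mul_of_pos_left _ H.c_pos

theorem Good.h_pos (H : D.Good c E h g R) : 0 < h := by
  have := H.k_pos
  rw [H.k_eq] at this
  exact Nat.pos_of_mul_pos_left this

theorem Good.b1_big (H : D.Good c E h g R) : 1000 * D.G.k ^ 2 ≤ D.b1 := by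
  have h1 := H.tcap_lt
  have h2 := H.big
  have h3 : D.G.β * D.s0 ≤ D.G.β * D.G.w * D.s0 :=
    Nat.mul_le_mul_right _ (Nat.le_mul_of_pos_right _ H.geo.w_pos)
  have h4 : D.G.k ^ 2 ≤ (D.G.k + D.G.ν) ^ 2 := Nat.pow_le_pow_left (by omega) 2
  rw [b1, Nat.le_div_iff_mul_le (by have := H.geo.t_pos; omega)]
  have h5 : 2000 * D.G.k ^ 2 ≤ D.cap := by unfold cap; omega
  have h6 := Nat.mul_le_mul_left D.G.t h5
  nlinarith

theorem Good.le_b1 (H : D.Good c E h g R) : D.G.β * D.G.w * D.s0 ≤ 3 * D.G.t * D.b1 := by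
  have h1 := Nat.lt_mul_div_succ (D.G.β * D.G.w * D.s0)
    (show 0 < 2 * D.G.t by have := H.geo.t_pos; omega)
  have h2 := H.b1_big
  have h3 : 1 ≤ D.G.k ^ 2 := Nat.pow_pos H.k_pos
  change _ < 2 * D.G.t * (D.b1 + 1) at h1
  nlinarith

/-- Some class keeps a dense set of labels. -/
def Dense (D : Dat) (h g : ℕ) (𝓑 : ℕ → Finset (Finset ℕ)) (o2 : ℕ → ℕ) : Prop :=
  ∃ i ∈ range D.G.k, ∃ r ∈ (range h).filter (fun r => g * r + 1 ≤ h), ∃ B ∈ 𝓑 r,
    ∀ l ∈ B, o2 (i * D.M + l) % 2 ^ D.b1 = 0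

theorem Good.pr_dense (H : D.Good c E h g R) (𝓑 : ℕ → Finset (Finset ℕ))
    (h1 : ∀ r, ∀ B ∈ 𝓑 r, B ⊆ range D.M ∧ B.card = g * r + 1)
    (h2 : ∀ r, (𝓑 r).card ≤ D.M ^ r * 2 ^ (r * (g * r + 1))) :
    pr (fun ω : D.Ω2 => D.Dense h g 𝓑 (nx ω)) ≤ 1 / 20 := by
  have hp : pr (fun x : Fin (2 ^ D.W) => (x : ℕ) % 2 ^ D.b1 = 0) = 1 / 2 ^ D.b1 :=
    pr_mod_pow (by unfold W; omega)
  have hk : (0 : ℝ) < D.G.k := by exact_mod_cast H.k_pos
  have hh : (0 : ℝ) < h := by exact_mod_cast H.h_pos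
  refine (pr_exists_le' _ _ (h * (1 / (20 * D.G.k * h))) fun i hi => ?_).trans
    (le_of_eq (by rw [card_range]; field_simp))
  refine (pr_exists_le' _ _ (1 / (20 * D.G.k * h)) fun r hr => ?_).trans
    (mul_le_mul_of_nonneg_right (by
      exact_mod_cast (card_filter_le _ _).trans (card_range h).le) (by positivity))
  obtain ⟨hr1, hr2⟩ := mem_filter.1 hr
  rw [mem_range] at hr1 hi
  refine (pr_exists_le' _ _ ((1 / 2 ^ D.b1) ^ (g * r + 1)) fun B hB => ?_).trans ?_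
  · have := pr_all (N := D.G.k * D.M) (B.image fun l => i * D.M + l) (fun j hj => by
      obtain ⟨l, hl, rfl⟩ := mem_image.1 hj
      exact vertex_lt hi (mem_range.1 ((h1 r B hB).1 hl)))
      (fun _ (x : Fin (2 ^ D.W)) => (x : ℕ) % 2 ^ D.b1 = 0)
    rw [Finset.prod_const, hp, card_image_of_injective _ (add_right_injective _),
      (h1 r B hB).2] at this
    rw [← this]
    exact le_of_eq (pr_congr fun ω => by simp [nx])
  · have e1 : D.d * D.s * r + r * (g * r + 1) + 20 * D.G.k * h ≤ D.b1 * (g * r + 1) := by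
      have a1 := H.le_b1
      have a2 := H.b1_big
      have a3 := H.g_ge
      have a4 := H.h_le
      have a5 : 2 * (D.d * D.s * r) ≤ D.b1 * (g * r) := by
        calc 2 * (D.d * D.s * r) = 4 * R * r * (D.G.β * D.G.w * D.s0) := by
              rw [H.d_eq, s]; ring
          _ ≤ 4 * R * r * (3 * D.G.t * D.b1) := Nat.mul_le_mul_left _ a1
          _ = D.b1 * (12 * R * D.G.t * r) := by ring
          _ ≤ _ := Nat.mul_le_mul_left _ (Nat.mul_le_mul_right _ a3)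
      have a6 : 2 * r + 40 * D.G.k * h ≤ D.b1 := by nlinarith
      have a7 := Nat.mul_le_mul_right (g * r + 1) a6
      nlinarith [Nat.zero_le (D.G.k * h * (g * r))]
    have e2 : (𝓑 r).card * (20 * D.G.k * h) ≤ 2 ^ (D.b1 * (g * r + 1)) := by
      refine le_trans (Nat.mul_le_mul (h2 r) Nat.lt_two_pow_self.le) ?_
      rw [M, H.QA_eq, ← pow_mul, ← pow_mul, ← pow_add, ← pow_add]
      exact Nat.pow_le_pow_right (by norm_num) (by rw [← mul_assoc]; exact e1)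
    rw [one_div_pow, ← pow_mul, mul_one_div, div_le_div_iff₀ (by positivity) (by positivity),
      one_mul]
    exact_mod_cast e2

/-- The tokens used by a set of left vertices. -/
def toks (D : Dat) (A : Finset ℕ) : Finset ℕ :=
  A.biUnion fun u => (D.G.cells (u / D.M)).image (D.tok u)

theorem Good.card_toks (H : D.Good c E h g R) (A : Finset ℕ) :
    (D.G.cov (D.G.symN D.s) (A.image fun u => (u / D.M, u % D.M))).card ≤ (D.toks A).card := by
  refine card_le_card_of_injOn (fun p => p.1 * D.MS + p.2) (fun p hp => ?_) fun p hp p' hp' e => ?_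
  · simp only [Gad.cov, coe_biUnion, coe_image, Set.mem_iUnion, Set.mem_image, mem_coe] at hp
    obtain ⟨_, ⟨u, hu, rfl⟩, m, hm, rfl⟩ := hp
    exact mem_coe.2 (mem_biUnion.2 ⟨u, hu, mem_image.2 ⟨m, hm, rfl⟩⟩)
  · simp only [Gad.cov, coe_biUnion, coe_image, Set.mem_iUnion, Set.mem_image, mem_coe] at hp hp'
    obtain ⟨_, -, m, -, rfl⟩ := hp
    obtain ⟨_, -, m', -, rfl⟩ := hp'
    have e1 := congrArg (· / D.MS) e
    have e2 := congrArg (· % D.MS) e
    simp only [div_vertex (H.symN_lt _ _ _), mod_vertex (H.symN_lt _ _ _)] at e1 e2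
    rw [e1] at e2 ⊢
    rw [e2]

theorem Good.ν_le_n (H : D.Good c E h g R) : D.G.ν ≤ D.n := by
  have h1 := H.big
  have h2 : 1 ≤ (D.G.k + D.G.ν) ^ 2 := Nat.pow_pos (by have := H.k_pos; omega)
  have h3 := (Nat.le_div_iff_mul_le H.ν_pos).1 (show 1 ≤ D.n / D.G.ν by omega)
  omega

theorem arith_many {ν k1 t x cf cv cap B n c E Γ : ℕ} (hc : 0 < c) (hE : 0 < E) (hk1 : 0 < k1)
    (hn : 0 < n) (hΓ : Γ = 393216000 * c * E) (ht : t = 2048 * c * Γ)
    (h1 : ν * x + (k1 + x) * cf ≤ (k1 + x) * cv) (h2 : t * k1 ≤ 1024 * c * x)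
    (h3 : B * x ≤ 64 * E * (cap * (ν + t * cf))) (h4 : cap * ν ≤ 3000 * n) (h5 : n ≤ k1 * B) :
    (Γ + 1) * ν ≤ Γ * cv := by
  have hΓ0 : 0 < Γ := by rw [hΓ]; positivity
  have ht0 : 0 < t := by rw [ht]; positivity
  have hx : 0 < x := by
    rcases Nat.eq_zero_or_pos x with rfl | hx
    · have := Nat.mul_pos ht0 hk1
      omega
    · exact hx
  have a1 : 2 * (t * ν) ≤ Γ * (ν + t * cf) := by
    refine Nat.le_of_mul_le_mul_left (c := n * k1) ?_ (Nat.mul_pos hn hk1)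
    calc n * k1 * (2 * (t * ν)) = 2 * ν * (n * (t * k1)) := by ring
      _ ≤ 2 * ν * (k1 * B * (1024 * c * x)) := Nat.mul_le_mul_left _ (Nat.mul_le_mul h5 h2)
      _ = 2048 * c * k1 * ν * (B * x) := by ring
      _ ≤ 2048 * c * k1 * ν * (64 * E * (cap * (ν + t * cf))) := Nat.mul_le_mul_left _ h3
      _ = 131072 * c * E * k1 * (ν + t * cf) * (cap * ν) := by ring
      _ ≤ 131072 * c * E * k1 * (ν + t * cf) * (3000 * n) := Nat.mul_le_mul_left _ h4
      _ = _ := by rw [hΓ]; ring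
  have a2 : t * (ν + cf) ≤ t * cv + 1024 * c * ν := by
    refine Nat.le_of_mul_le_mul_left (c := k1 + x) ?_ (by omega)
    have b1 := Nat.mul_le_mul_left t h1
    have b2 := Nat.mul_le_mul_left ν h2
    nlinarith [Nat.zero_le (c * ν * k1)]
  refine Nat.le_of_mul_le_mul_left (c := t) ?_ ht0
  have a3 := Nat.mul_le_mul_left Γ a2
  have a4 : Γ * ν ≤ c * (Γ * ν) := Nat.le_mul_of_pos_left _ hc
  have a5 : t * ν = 2048 * (c * (Γ * ν)) := by rw [ht]; ring
  nlinarith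

theorem arith_few {w k1 t x cv c h Γ : ℕ} (hc : 0 < c) (hk1 : 0 < k1) (hΓ : 0 < Γ)
    (ht : t = 2048 * c * Γ) (hk : t * k1 = c * h) (h1 : w * k1 * h ≤ 256 * (k1 + x) * cv)
    (h2 : 1024 * c * x < t * k1) : (Γ + 1) * (k1 * w) ≤ Γ * cv := by
  have ht0 : 0 < t := by rw [ht]; positivity
  have a1 : 1024 * c * k1 ≤ t * k1 := Nat.mul_le_mul_right _ (by rw [ht]; nlinarith)
  have a2 : 2 * (k1 * w) ≤ cv := by
    refine Nat.le_of_mul_le_mul_left (c := t * k1) ?_ (Nat.mul_pos ht0 hk1)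
    calc t * k1 * (2 * (k1 * w)) = 2 * c * (w * k1 * h) := by rw [hk]; ring
      _ ≤ 2 * c * (256 * (k1 + x) * cv) := Nat.mul_le_mul_left _ h1
      _ = (512 * c * k1 + 512 * c * x) * cv := by ring
      _ ≤ _ := Nat.mul_le_mul_right _ (by nlinarith)
  nlinarith

theorem Good.toks_big (H : D.Good c E h g R) {o : Rnd} (hL : D.Load o) (hV : D.Viol c E o)
    (𝓑 : ℕ → Finset (Finset ℕ)) (h1 : ∀ r, ∀ B ∈ 𝓑 r, B ⊆ range D.M ∧ B.card = g * r + 1)
    (h3 : ∀ i < D.G.k, ∀ P ⊆ range D.M, P.card ≤ h → (∀ r, ∀ B ∈ 𝓑 r, ¬ B ⊆ P) →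
      D.G.w * P.card ≤ 8 * ∑ m ∈ D.G.cells i, (P.image (D.G.symN D.s i m)).card)
    (hD : ¬ D.Dense h g 𝓑 o.o2) (A : Finset ℕ) (hA : A.card = h)
    (hA' : ∀ u ∈ A, u < D.G.k * D.M ∧ D.Valid o (u / D.M) (u % D.M) ∧ D.Kept o u) :
    (D.Γ + 1) * D.G.ν ≤ D.Γ * (D.toks A).card := by
  classical
  refine le_trans ?_ (Nat.mul_le_mul_left _ (H.card_toks A))
  set P := A.image fun u => (u / D.M, u % D.M) with hP
  have hPc : P.card = h := by
    rw [hP, card_image_of_injective, hA]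
    intro u v e
    rw [← Nat.div_add_mod u D.M, ← Nat.div_add_mod v D.M, (Prod.mk.inj e).1, (Prod.mk.inj e).2]
  have hPm : ∀ p ∈ P, p.1 < D.G.k ∧ p.2 < D.M ∧ D.Valid o p.1 p.2 ∧
      D.Kept o (p.1 * D.M + p.2) := by
    intro p hp
    obtain ⟨u, hu, rfl⟩ := mem_image.1 hp
    refine ⟨(Nat.div_lt_iff_lt_mul H.M_pos).2 (hA' u hu).1, Nat.mod_lt _ H.M_pos,
      (hA' u hu).2.1, ?_⟩
    rw [Nat.div_add_mod']
    exact (hA' u hu).2.2
  have hΓ : 0 < D.Γ := by rw [H.Γ_eq]; have := H.c_pos; have := H.E_pos; positivity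
  by_cases hx : D.G.k ≤ 1024 * c * (P.image Prod.fst).card
  · set I := P.image Prod.fst with hI
    have hl : ∀ i, ∃ l, i ∈ I → (i, l) ∈ P := fun i => by
      by_cases hi : i ∈ I
      · obtain ⟨p, hp, rfl⟩ := mem_image.1 hi
        exact ⟨p.2, fun _ => hp⟩
      · exact ⟨0, fun hh => absurd hh hi⟩
    choose lam hlam using hl
    have hIk : ∀ i ∈ I, i < D.G.k := fun i hi => (hPm _ (hlam i hi)).1
    obtain ⟨val, hval⟩ := Gad.conflict H.geo (D.G.symN D.s) I hIk lam D.nq D.cap D.cls (D.y o)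
      (fun a => a % D.G.ν) (D.cell o) (fun a q => D.bit a (D.slot o q)) (fun q hq => cls_lt hq)
      (fun a => Nat.mod_lt _ H.ν_pos) (fun q _ => rfl) hL
      (fun i hi q hq q' hq' e1 e2 e3 => (hPm _ (hlam i hi)).2.2.1.2 q hq q' hq'
        (mem_filter.1 e1).2 (mem_filter.1 e2).2 e3)
    have a1 := hV val I (fun i hi => mem_range.2 (hIk i hi)) hx
    refine arith_many H.c_pos H.E_pos H.geo.k1_pos H.wf.n_pos H.Γ_eq H.t_eq
      (Gad.coverB H.geo _ P I hIk lam hlam) hx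
      (a1.trans (Nat.mul_le_mul_left _ (le_trans ?_ hval))) ?_
      (Nat.lt_mul_div_succ _ H.geo.k1_pos).le
    · refine Finset.card_le_card_of_surjOn (fun q => q / 3) fun a ha => ?_
      obtain ⟨ha1, ha2, ha3⟩ : a ∈ range (D.G.k * D.B) ∧ a / D.B ∈ I ∧
          ∀ p < 3, val (D.yy (o.o1 a) p) ≠ D.sgn (D.cl (o.o1 a)) p := by
        simpa only [coe_filter, Set.mem_ofPred_eq] using ha
      rw [mem_range] at ha1
      obtain ⟨p, hp, hp'⟩ := (hPm _ (hlam _ ha2)).2.2.1.1 a ha1 rfl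
      have e1 : (3 * a + p) / 3 = a := by omega
      have e2 : (3 * a + p) % 3 = p := by omega
      have e3 : D.cls (3 * a + p) = a / D.B := by rw [cls, e1]
      refine ⟨3 * a + p, mem_coe.2 (mem_filter.2 ⟨mem_range.2 (by unfold nq; omega), ?_⟩), e1⟩
      rw [e3, y, e1, e2]
      exact ⟨ha2, fun e => ha3 p hp (e.symm.trans hp')⟩
    · have := H.ν_le_n
      have := Nat.div_mul_le_self D.n D.G.ν
      unfold cap
      nlinarith
  · refine arith_few H.c_pos H.geo.k1_pos hΓ H.t_eq H.k_eq ?_ (not_le.1 hx)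
    rw [← hPc]
    refine Gad.coverA H.geo _ P (fun p hp => (hPm p hp).1) fun i hi => ?_
    have hm : ∀ l ∈ (P.filter fun p => p.1 = i).image Prod.snd, (i, l) ∈ P := by
      intro l hl
      obtain ⟨p, hp, rfl⟩ := mem_image.1 hl
      obtain ⟨hp1, rfl⟩ := mem_filter.1 hp
      exact hp1
    have hc : ((P.filter fun p => p.1 = i).image Prod.snd).card ≤ h :=
      card_image_le.trans ((card_filter_le _ _).trans hPc.le)
    refine h3 i hi _ (fun l hl => mem_range.2 (hPm _ (hm l hl)).2.1) hc fun r B hB hs => hD ?_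
    have b1 : g * r + 1 ≤ h := by rw [← (h1 r B hB).2]; exact (card_le_card hs).trans hc
    have b2 : 1 ≤ g := le_trans (by have := H.R_pos; have := H.geo.t_pos; exact Nat.succ_le_of_lt (by positivity)) H.g_ge
    exact ⟨i, mem_range.2 hi, r, mem_filter.2 ⟨mem_range.2 (by nlinarith), b1⟩, B, hB,
      fun l hl => (hPm _ (hm l (hs hl))).2.2.2⟩

open Classical in
theorem Good.pr_common (H : D.Good c E h g R) :
    pr (fun ω : D.Ω3 => ∃ A ∈ (powersetCard h (range (D.G.k * D.M))).filter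
        (fun A => (D.Γ + 1) * D.G.ν ≤ D.Γ * (D.toks A).card),
      h ≤ ((range D.Rn).filter fun v =>
        ∀ p ∈ D.toks A, nx (xt ω v) p % 2 ^ D.b = 0).card) ≤ 1 / 20 := by
  have hp : pr (fun x : Fin (2 ^ D.W) => (x : ℕ) % 2 ^ D.b = 0) = 1 / 2 ^ D.b :=
    pr_mod_pow (by unfold W; omega)
  have hΓ : 0 < D.Γ := by rw [H.Γ_eq]; have := H.c_pos; have := H.E_pos; positivity
  have hkM : (0 : ℝ) < (D.G.k * D.M : ℕ) := by exact_mod_cast Nat.mul_pos H.k_pos H.M_pos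
  refine (pr_exists_le' _ _ ((1 / (20 * (D.G.k * D.M : ℕ))) ^ h) fun A hA => ?_).trans ?_
  · obtain ⟨hA1, hA2⟩ := mem_filter.1 hA
    obtain ⟨hA3, -⟩ := mem_powersetCard.1 hA1
    have h1 := pr_all (N := D.G.ν * D.MS) (D.toks A) (fun p hp => by
      obtain ⟨u, -, hu⟩ := mem_biUnion.1 hp
      obtain ⟨m, hm, rfl⟩ := mem_image.1 hu
      exact vertex_lt (mem_range.1 (mem_filter.1 hm).1) (H.symN_lt _ _ _))
      (fun _ (x : Fin (2 ^ D.W)) => (x : ℕ) % 2 ^ D.b = 0)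
    rw [Finset.prod_const, hp] at h1
    have h2 := tail_choose (N := D.Rn)
      (fun x : Fin (D.G.ν * D.MS) → Fin (2 ^ D.W) => ∀ p ∈ D.toks A, nx x p % 2 ^ D.b = 0) _
      h1.le h
    refine le_trans (le_of_eq (by congr!)) (h2.trans (pow_le_pow_left₀ (by positivity) ?_ h))
    have e1 : D.b * D.G.ν + (D.d * D.s + 20 * D.G.k * (2 * D.G.k + 6)) ≤
        D.b * (D.toks A).card := by
      refine Nat.le_of_mul_le_mul_left (c := D.Γ) ?_ hΓ
      have a1 : D.Γ * (D.d * D.s + 20 * D.G.k * (2 * D.G.k + 6)) < D.G.ν * D.b :=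
        Nat.lt_mul_div_succ _ H.ν_pos
      have a2 := Nat.mul_le_mul_left D.b hA2
      nlinarith
    have e2 : D.Rn * (20 * (D.G.k * D.M)) ≤ 2 ^ (D.b * (D.toks A).card) := by
      refine le_trans ?_ (Nat.pow_le_pow_right (by norm_num) e1)
      rw [Rn, M, H.QA_eq, ← pow_mul, pow_add, pow_add]
      have := (Nat.lt_two_pow_self (n := 20 * D.G.k * (2 * D.G.k + 6))).le
      calc _ = 2 ^ (D.b * D.G.ν) * (2 ^ (D.d * D.s) * (20 * D.G.k * (2 * D.G.k + 6))) := by ring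
        _ ≤ _ := Nat.mul_le_mul_left _ (Nat.mul_le_mul_left _ this)
    rw [one_div_pow, ← pow_mul, mul_one_div, div_le_div_iff₀ (by positivity) (by positivity),
      one_mul]
    exact_mod_cast e2
  · have e1 : (((powersetCard h (range (D.G.k * D.M))).filter
        (fun A => (D.Γ + 1) * D.G.ν ≤ D.Γ * (D.toks A).card)).card : ℝ) ≤
        ((D.G.k * D.M : ℕ) : ℝ) ^ h := by
      have := (card_filter_le (powersetCard h (range (D.G.k * D.M)))
        (fun A => (D.Γ + 1) * D.G.ν ≤ D.Γ * (D.toks A).card)).trans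
        ((card_powersetCard _ _).le.trans (Nat.choose_le_pow _ _))
      rw [card_range] at this
      exact_mod_cast this
    refine (mul_le_mul_of_nonneg_right e1 (by positivity)).trans ?_
    rw [← mul_pow, show ((D.G.k * D.M : ℕ) : ℝ) * (1 / (20 * (D.G.k * D.M : ℕ))) = 1 / 20 by
      field_simp]
    exact pow_le_of_le_one (by norm_num) (by norm_num) H.h_pos.ne'

theorem no (H : D.Good c E h g R) (hfar : D.IsFar E) :
    pr (fun ω : D.Ω1 × D.Ω2 × D.Ω3 => D.HasK (D.mk3 ω.1 ω.2.1 ω.2.2) h) ≤ 1 / 3 := by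
  classical
  obtain ⟨𝓑, h1, h2, h3⟩ := H.code.sparse D.s
  refine (pr_prod_le (fun ω1 : D.Ω1 => ¬ D.Load (D.mk3 ω1 default default) ∨
    ¬ D.Viol c E (D.mk3 ω1 default default)) _ (1 / 20 + 1 / 20)
    (by norm_num) fun ω1 hL => ?_).trans (by
      linarith [pr_not_load H default default, pr_not_viol H hfar default default,
        pr_or (fun ω1 : D.Ω1 => ¬ D.Load (D.mk3 ω1 default default))
          (fun ω1 : D.Ω1 => ¬ D.Viol c E (D.mk3 ω1 default default))])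
  rw [not_or, not_not, not_not] at hL
  refine (pr_prod_le _ _ (1 / 20) (by norm_num) fun ω2 hω => ?_).trans
    (add_le_add_left (H.pr_dense 𝓑 h1 h2) _)
  refine le_trans (pr_mono ?_) H.pr_common
  rintro ω3 ⟨A, B, a1, a2, a3, a4, a5⟩
  obtain ⟨v0, hv0⟩ := card_pos.1 (a2 ▸ H.h_pos)
  refine ⟨A, mem_filter.2 ⟨mem_powersetCard.2 ⟨fun u hu => mem_range.2 (a3 u hu), a1⟩,
    H.toks_big (o := D.mk3 ω1 ω2 ω3) hL.1 hL.2 𝓑 h1 h3 hω A a1
      fun u hu => ⟨a3 u hu, (a5 u hu v0 hv0).1, (a5 u hu v0 hv0).2.1⟩⟩, ?_⟩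
  rw [← a2]
  refine card_le_card fun v hv => mem_filter.2 ⟨mem_range.2 (a4 v hv), fun p hp => ?_⟩
  obtain ⟨u, hu, hp⟩ := mem_biUnion.1 hp
  obtain ⟨m, hm, rfl⟩ := mem_image.1 hp
  exact (a5 u hu v hv).2.2 m (mem_range.1 (mem_filter.1 hm).1) (mem_filter.1 hm).2

end Dat

end Pool.Agent.MP_a2da35_lc
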