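import Pool.Agent.MP_a2da35_lc.Build

/-!
Clones of variables and the sampled clauses.
-/

namespace Pool.Agent.MP_a2da35_lc

open Finset

theorem sat_sum_pr {α : Type} [Fintype α] (T : Finset ℕ) (f : α → ℕ) (p : ℕ → α → Prop)
    (q : α → Prop) (h : ∀ j ∈ T, ∀ a, p j a → q a ∧ f a = j) : ∑ j ∈ T, pr (p j) ≤ pr q := by
  classical
  unfold pr
  rw [← sum_div, ← Nat.cast_sum]
  refine div_le_div_of_nonneg_right (Nat.cast_le.2 ?_) (Nat.cast_nonneg _)
  refine le_trans (sum_le_sum fun j hj => ?_)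
    ((sum_card_fiberwise_eq_card_filter _ T f).le.trans (card_filter_le _ _))
  refine card_le_card fun a ha => ?_
  have h1 := h j hj a (mem_filter.1 ha).2
  exact mem_filter.2 ⟨mem_filter.2 ⟨mem_univ _, h1.1⟩, h1.2⟩

theorem sat_mem {s : Finset ℕ} {p : ℕ → Prop} {d : DecidablePred p} {a : ℕ} :
    a ∈ @filter _ p d s ↔ a ∈ s ∧ p a := mem_filter

theorem sat_major {α : Type} [Fintype α] [Nonempty α] (f : α → Bool) :
    ∃ b, 1 / 2 ≤ pr fun a => f a = b := by
  by_cases h : 1 / 2 ≤ pr fun a => f a = true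
  · exact ⟨true, h⟩
  · refine ⟨false, le_trans ?_ (pr_mono (p := fun a => ¬ f a = true) fun a ha => ?_)⟩
    · rw [pr_not]
      linarith [not_le.1 h]
    · simpa using ha

theorem sat_card {k B : ℕ} (hB : 0 < B) {I : Finset ℕ} (hI : I ⊆ range k) :
    ((range (k * B)).filter fun a => a / B ∈ I).card = B * I.card := by
  rw [mul_comm B, ← card_range B, ← card_product, card_range]
  refine card_nbij' (fun a => (a / B, a % B)) (fun p => B * p.1 + p.2) (fun a ha => ?_)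
    (fun p hp => ?_) (fun a _ => Nat.div_add_mod a B) fun p hp => ?_
  · exact mem_coe.2 (mem_product.2 ⟨(mem_filter.1 ha).2, mem_range.2 (Nat.mod_lt _ hB)⟩)
  · obtain ⟨h1, h2⟩ := mem_product.1 (mem_coe.1 hp)
    have h3 : (B * p.1 + p.2) / B = p.1 := by
      rw [Nat.mul_add_div hB, Nat.div_eq_of_lt (mem_range.1 h2), add_zero]
    refine mem_coe.2 (mem_filter.2 ⟨mem_range.2 ?_, by rwa [h3]⟩)
    rw [← Nat.div_lt_iff_lt_mul hB, h3]
    exact mem_range.1 (hI h1)
  · obtain ⟨-, h2⟩ := mem_product.1 (mem_coe.1 hp)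
    have h4 := mem_range.1 h2
    refine Prod.ext ?_ ?_
    · show (B * p.1 + p.2) / B = p.1
      rw [Nat.mul_add_div hB, Nat.div_eq_of_lt h4, add_zero]
    · show (B * p.1 + p.2) % B = p.2
      rw [Nat.mul_add_mod, Nat.mod_eq_of_lt h4]

theorem sat_exp {y : ℝ} (hy : 0 < y) : Real.exp (-y) ≤ 1 / y := by
  rw [Real.exp_neg, one_div]
  exact inv_anti₀ hy (by linarith [Real.add_one_le_exp y])

namespace Dat

variable {D : Dat}

theorem sat_deg (u : ℕ) :
    D.deg u = ((range (3 * D.m)).filter fun p => D.var (p / 3) (p % 3) = u).card := rfl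

theorem sat_off {u : ℕ} (hu : u ≤ D.n) : D.off u = ∑ v ∈ range u, D.dn v := by
  unfold off
  rw [← List.sum_toFinset _ List.nodup_range, List.toFinset_range, min_eq_left hu]

theorem sat_dn_pos (u : ℕ) : 0 < D.dn u := Nat.succ_pos _

theorem sat_sum_dn (h : D.Wf) : ∑ v ∈ range D.n, D.dn v ≤ 2 * D.n := by
  have h0 : 0 < 3 * D.m := by have := h.m_pos; omega
  have h1 : ∑ v ∈ range D.n, D.deg v ≤ 3 * D.m := by
    simp only [sat_deg]
    rw [sum_card_fiberwise_eq_card_filter]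
    exact (card_filter_le _ _).trans (card_range _).le
  have h2 : ∑ v ∈ range D.n, D.n * D.deg v / (3 * D.m) ≤ D.n := by
    refine Nat.le_of_mul_le_mul_right ?_ h0
    rw [sum_mul]
    refine (sum_le_sum fun v _ => Nat.div_mul_le_self _ _).trans ?_
    rw [← mul_sum]
    exact Nat.mul_le_mul_left _ h1
  unfold dn
  rw [sum_add_distrib, sum_const, card_range, smul_eq_mul]
  omega

theorem sat_lt {u v x : ℕ} (huv : u < v) (hv : v ≤ D.n) (hx : x < D.dn u) :
    D.off u + x < D.off v := by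
  have h1 := sum_le_sum_of_subset (f := D.dn) (range_mono (Nat.succ_le_of_lt huv))
  rw [sum_range_succ] at h1
  rw [sat_off hv, sat_off (huv.le.trans hv)]
  omega

theorem sat_uu_lt (h : D.Wf) (e : ℕ → ℕ) {c : ℕ} (hc : c < 3) : D.uu e c < D.n :=
  h.var_lt _ (Nat.mod_lt _ h.m_pos) c hc

theorem yy_lt (h : D.Wf) (e : ℕ → ℕ) {c : ℕ} (hc : c < 3) : D.yy e c < 2 * D.n := by
  have h1 := sat_lt (sat_uu_lt h e hc) le_rfl (Nat.mod_lt (e c) (sat_dn_pos (D.uu e c)))
  rw [sat_off (u := D.n) le_rfl] at h1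
  exact h1.trans_le (sat_sum_dn h)

theorem uu_eq_of_yy_eq (h : D.Wf) {e e' : ℕ → ℕ} {c c' : ℕ} (hc : c < 3) (hc' : c' < 3)
    (hy : D.yy e c = D.yy e' c') : D.uu e c = D.uu e' c' := by
  unfold yy at hy
  rcases lt_trichotomy (D.uu e c) (D.uu e' c') with h1 | h1 | h1
  · have := sat_lt h1 (sat_uu_lt h e' hc').le (Nat.mod_lt (e c) (sat_dn_pos (D.uu e c)))
    omega
  · exact h1
  · have := sat_lt h1 (sat_uu_lt h e hc).le (Nat.mod_lt (e' c') (sat_dn_pos (D.uu e' c')))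
    omega

theorem sat_m_le (h : D.Wf) {W : ℕ} (hW : D.n ≤ W) : D.m ≤ 2 ^ W :=
  h.m_le.trans (Nat.pow_le_pow_right two_pos hW)

theorem sat_dn_le {W : ℕ} (hW : D.n ≤ W) (u : ℕ) : D.dn u ≤ 2 ^ W := by
  have h1 : D.deg u ≤ 3 * D.m := by
    rw [sat_deg]
    exact (card_filter_le _ _).trans (card_range _).le
  have h2 : D.n * D.deg u / (3 * D.m) ≤ D.n :=
    Nat.div_le_of_le_mul (by rw [mul_comm]; exact Nat.mul_le_mul_right _ h1)
  have h3 : W < 2 ^ W := Nat.lt_two_pow_self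
  unfold dn
  omega

theorem sat_pr_var (h : D.Wf) {W : ℕ} (hW : D.n ≤ W) {c : ℕ} (hc : c < 3) (u : ℕ) :
    pr (fun x : Fin (2 ^ W) => D.var (x % D.m) c = u) ≤ D.deg u * (2 / D.m) := by
  have h1 : ((range D.m).filter fun j => D.var j c = u).card ≤ D.deg u := by
    rw [sat_deg]
    refine card_le_card_of_injOn (fun j => 3 * j + c) (fun j hj => ?_) fun j _ j' _ hj => ?_
    · obtain ⟨h2, h3⟩ := mem_filter.1 (mem_coe.1 hj)
      have h4 := mem_range.1 h2
      have h5 : (3 * j + c) / 3 = j := by omega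
      have h6 : (3 * j + c) % 3 = c := by omega
      refine mem_coe.2 (mem_filter.2 ⟨mem_range.2 (by show 3 * j + c < _; omega), ?_⟩)
      rw [h5, h6, h3]
    · have : 3 * j + c = 3 * j' + c := hj
      omega
  refine (pr_mono fun x hx => ?_).trans ((pr_exists_le' _
    (fun j (x : Fin (2 ^ W)) => (x : ℕ) % D.m = j) _
    fun j _ => pr_mod_le h.m_pos (sat_m_le h hW) j).trans
      (mul_le_mul_of_nonneg_right (Nat.cast_le.2 h1) (by positivity)))
  exact ⟨_, mem_filter.2 ⟨mem_range.2 (Nat.mod_lt _ h.m_pos), hx⟩, rfl⟩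

theorem pr_yy_le (h : D.Wf) {W : ℕ} (hW : D.n ≤ W) {c : ℕ} (hc : c < 3) (y0 : ℕ) :
    pr (fun ω : Fin 4 → Fin (2 ^ W) => D.yy (nx ω) c = y0) ≤ 12 / D.n := by
  by_cases h0 : ∃ e : ℕ → ℕ, D.yy e c = y0
  swap
  · refine (pr_mono (q := fun _ => False) fun ω hω => h0 ⟨_, hω⟩).trans ?_
    simp only [pr, filter_false, card_empty, Nat.cast_zero, zero_div]
    positivity
  obtain ⟨e, rfl⟩ := h0
  have hc3 : c ≠ 3 := hc.ne
  have h1 := pr_all (X := Fin (2 ^ W)) (N := 4) {3, c}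
    (fun j hj => by
      rcases mem_insert.1 hj with rfl | hj
      · omega
      · rw [mem_singleton.1 hj]; omega)
    fun j x => if j = 3 then D.var (x % D.m) c = D.uu e c
      else (x : ℕ) % D.dn (D.uu e c) = e c % D.dn (D.uu e c)
  rw [prod_pair hc3.symm] at h1
  simp only [if_true, if_neg hc3] at h1
  refine (pr_mono fun ω hω => ?_).trans (h1.le.trans ?_)
  · have h2 := uu_eq_of_yy_eq h hc hc hω
    intro j hj
    rcases mem_insert.1 hj with rfl | hj
    · rw [if_pos rfl]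
      exact h2
    · rw [mem_singleton.1 hj, if_neg hc3]
      unfold yy at hω
      rw [h2] at hω
      exact Nat.add_left_cancel hω
  · refine (mul_le_mul (sat_pr_var h hW hc _) (pr_mod_le (sat_dn_pos _) (sat_dn_le hW _) _)
      (pr_nonneg _) (by positivity)).trans ?_
    have hm : (0 : ℝ) < D.m := Nat.cast_pos.2 h.m_pos
    have hn : (0 : ℝ) < D.n := Nat.cast_pos.2 h.n_pos
    have hd : (0 : ℝ) < D.dn (D.uu e c) := Nat.cast_pos.2 (sat_dn_pos _)
    have h3 : D.n * D.deg (D.uu e c) ≤ 3 * D.m * D.dn (D.uu e c) :=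
      (Nat.lt_mul_div_succ _ (by have := h.m_pos; omega)).le
    have h4 : (D.n : ℝ) * D.deg (D.uu e c) ≤ 3 * D.m * D.dn (D.uu e c) := by exact_mod_cast h3
    rw [← mul_div_assoc (D.deg _ : ℝ), div_mul_div_comm, div_le_div_iff₀ (mul_pos hm hd) hn]
    linarith

theorem sat_pr_cl (h : D.Wf) {W : ℕ} (hW : D.n ≤ W) {j : ℕ} (hj : j ∈ range D.m) :
    1 / (2 * D.m : ℝ) ≤ pr fun x : Fin (2 ^ W) => (x : ℕ) % D.m = j := by
  refine le_trans ?_ (le_pr_mod h.m_pos (sat_m_le h hW) fun i => i = j)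
  refine div_le_div_of_nonneg_right (Nat.one_le_cast.2 (card_pos.2 ⟨j, ?_⟩)) (by positivity)
  exact sat_mem.2 ⟨hj, rfl⟩

theorem le_pr_viol (h : D.Wf) {W : ℕ} (hW : D.n ≤ W) {E : ℕ} (hE : 0 < E) (hfar : D.IsFar E)
    (val : ℕ → Bool) :
    1 / (16 * E : ℝ) ≤ pr (fun ω : Fin 4 → Fin (2 ^ W) =>
      ∀ p < 3, val (D.yy (nx ω) p) ≠ D.sgn (D.cl (nx ω)) p) := by
  classical
  choose a ha using fun u => sat_major fun x : Fin (2 ^ W) => val (D.off u + x % D.dn u)
  have hm : (0 : ℝ) < D.m := Nat.cast_pos.2 h.m_pos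
  have hE' : (0 : ℝ) < E := Nat.cast_pos.2 hE
  have h1 : (D.m : ℝ) ≤ E * (((range D.m).filter
      fun j => ∀ c < 3, a (D.var j c) ≠ D.sgn j c).card : ℝ) := by
    rw [← Nat.cast_mul, Nat.cast_le]
    exact (hfar a).trans (Nat.mul_le_mul_left _
      (card_le_card fun j hj => sat_mem.2 (sat_mem.1 hj)))
  refine le_trans ?_ (sat_sum_pr ((range D.m).filter fun j => ∀ c < 3, a (D.var j c) ≠ D.sgn j c)
    (fun ω => D.cl (nx ω))
    (fun j ω => ∀ i ∈ range 4, if i = 3 then ((xt ω i : Fin (2 ^ W)) : ℕ) % D.m = j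
      else val (D.off (D.var j i) + (xt ω i : Fin (2 ^ W)) % D.dn (D.var j i)) = a (D.var j i))
    _ fun j hj ω hω => ?_)
  · refine le_trans ?_ (card_nsmul_le_sum _ _ (1 / (16 * D.m : ℝ)) fun j hj => ?_)
    · rw [nsmul_eq_mul, mul_one_div, div_le_div_iff₀ (by positivity) (by positivity)]
      linarith
    · rw [pr_all (X := Fin (2 ^ W)) (N := 4) (range 4) (fun j hj => mem_range.1 hj)
        fun i x => if i = 3 then (x : ℕ) % D.m = j
          else val (D.off (D.var j i) + x % D.dn (D.var j i)) = a (D.var j i), prod_range_succ]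
      have h2 := sat_pr_cl h hW (sat_mem.1 hj).1
      have h3 : (1 / 2 : ℝ) ^ 3 ≤ ∏ i ∈ range 3, pr fun x : Fin (2 ^ W) =>
          if i = 3 then (x : ℕ) % D.m = j
          else val (D.off (D.var j i) + x % D.dn (D.var j i)) = a (D.var j i) := by
        rw [← card_range 3, ← prod_const, card_range]
        refine prod_le_prod (fun _ _ => by norm_num) fun i hi => ?_
        simp only [if_neg (mem_range.1 hi).ne]
        exact ha _
      simp only [if_true]
      refine le_trans (le_of_eq ?_) (mul_le_mul h3 h2 (by positivity)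
        (le_trans (by positivity) h3))
      field_simp
      norm_num
  · have h2 : D.cl (nx ω) = j := by
      have := hω 3 (mem_range.2 (by omega))
      rwa [if_pos rfl] at this
    refine ⟨fun p hp => ?_, h2⟩
    have h3 := hω p (mem_range.2 (by omega))
    rw [if_neg hp.ne] at h3
    unfold yy uu
    rw [h2]
    exact fun h4 => (sat_mem.1 hj).2 p hp (h3.symm.trans h4)

variable {c E h g R : ℕ}

theorem sat_ν_pos (H : D.Good c E h g R) : 0 < D.G.ν := Nat.mul_pos H.geo.k1_pos H.geo.w_pos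

theorem sat_W : D.n ≤ D.W := by
  unfold W
  omega

theorem sat_k_le (H : D.Good c E h g R) : D.G.k ≤ D.n ∧ D.G.ν ≤ D.n := by
  have h1 := H.big.trans (Nat.div_le_self _ _)
  have h2 : D.G.k + D.G.ν ≤ (D.G.k + D.G.ν) ^ 2 := Nat.le_self_pow two_ne_zero _
  omega

theorem sat_route (H : D.Good c E h g R) {i : ℕ} (hi : i < D.G.k) (m : ℕ) :
    pr (fun ω : Fin 4 → Fin (2 ^ D.W) => ∃ p ∈ range 3, D.G.route i (D.yy (nx ω) p % D.G.ν) = m)
      ≤ 72 * (D.G.k1 * (D.n / D.G.ν + 1 : ℕ)) / D.n := by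
  have hν := sat_ν_pos H
  have h1 : ((range (2 * D.n)).filter fun y => D.G.route i (y % D.G.ν) = m).card ≤
      D.G.k1 * (2 * (D.n / D.G.ν + 1)) := by
    refine le_trans ?_ (Nat.mul_le_mul_right _ (H.geo.route_fib i hi m))
    rw [← card_range (2 * (D.n / D.G.ν + 1)), ← card_product]
    refine card_le_card_of_injOn (fun y => (y % D.G.ν, y / D.G.ν)) (fun y hy => ?_)
      fun y _ y' _ hy => ?_
    · obtain ⟨h2, h3⟩ := mem_filter.1 (mem_coe.1 hy)
      refine mem_coe.2 (mem_product.2 ⟨mem_filter.2 ⟨mem_range.2 (Nat.mod_lt _ hν), h3⟩,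
        mem_range.2 ((Nat.div_lt_iff_lt_mul hν).2 ?_)⟩)
      have h4 := Nat.lt_mul_div_succ D.n hν
      have h5 := mem_range.1 h2
      rw [mul_assoc, mul_comm _ D.G.ν]
      omega
    · obtain ⟨h2, h3⟩ := Prod.mk.inj hy
      rw [← Nat.div_add_mod y D.G.ν, h2, h3, Nat.div_add_mod]
  have h2 : (((range (2 * D.n)).filter fun y => D.G.route i (y % D.G.ν) = m).card : ℝ) ≤
      D.G.k1 * (2 * (D.n / D.G.ν + 1 : ℕ)) := by exact_mod_cast h1
  refine (pr_exists_le' _ _ (D.G.k1 * (2 * (D.n / D.G.ν + 1 : ℕ)) * (12 / D.n))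
    fun p hp => ?_).trans (le_of_eq ?_)
  · refine (pr_mono fun ω hω => ?_).trans ((pr_exists_le' _
      (fun y (ω : Fin 4 → Fin (2 ^ D.W)) => D.yy (nx ω) p = y) _
      fun y _ => pr_yy_le H.wf sat_W (mem_range.1 hp) y).trans
        (mul_le_mul_of_nonneg_right h2 (by positivity)))
    exact ⟨_, mem_filter.2 ⟨mem_range.2 (yy_lt H.wf _ (mem_range.1 hp)), hω⟩, rfl⟩
  · rw [card_range]
    push_cast
    ring

theorem pr_not_load (H : D.Good c E h g R) (ω2 : D.Ω2) (ω3 : D.Ω3) :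
    pr (fun ω1 : D.Ω1 => ¬ D.Load (D.mk3 ω1 ω2 ω3)) ≤ 1 / 20 := by
  classical
  have hν := sat_ν_pos H
  have hB : 0 < D.B := Nat.succ_pos _
  have hn : (0 : ℝ) < D.n := Nat.cast_pos.2 H.wf.n_pos
  obtain ⟨x, hx⟩ : ∃ x : ℕ, x = D.n / D.G.ν + 1 := ⟨_, rfl⟩
  have hx0 : (0 : ℝ) < x := Nat.cast_pos.2 (hx ▸ Nat.succ_pos _)
  have h1 : D.G.k * D.G.ν ≤ x := by
    have := H.big
    nlinarith [Nat.zero_le (D.G.k ^ 2), Nat.zero_le (D.G.ν ^ 2), Nat.zero_le (D.G.k * D.G.ν)]
  have h2 : D.G.k1 * D.B ≤ 2 * D.n := by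
    have h3 := Nat.mul_div_le D.n D.G.k1
    have h4 : D.G.k1 ≤ D.G.ν := Nat.le_mul_of_pos_right _ H.geo.w_pos
    have h5 := (sat_k_le H).2
    unfold B
    rw [mul_add]
    omega
  have h1' : (D.G.k : ℝ) * D.G.ν ≤ x := by exact_mod_cast h1
  have h2' : (D.G.k1 : ℝ) * D.B ≤ 2 * D.n := by exact_mod_cast h2
  refine (pr_mono fun ω hω => ?_).trans ((pr_exists_le' (range D.G.k ×ˢ range D.G.ν)
    (fun z (ω : D.Ω1) => (500 * x : ℝ) ≤
      ((((range (D.G.k * D.B)).filter fun a => a / D.B ∈ ({z.1} : Finset ℕ)).filter fun a =>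
        ∃ p ∈ range 3, D.G.route z.1 (D.yy (nx (xt ω a)) p % D.G.ν) = z.2).card : ℝ))
    (1 / (212 * x)) fun z hz => ?_).trans ?_)
  · unfold Load at hω
    push Not at hω
    obtain ⟨i, hi, m, hm⟩ := hω
    obtain ⟨q, hq⟩ := card_pos.1 ((Nat.zero_le _).trans_lt hm)
    obtain ⟨-, h3, h4⟩ := mem_filter.1 hq
    have h5 := H.geo.route_mem i hi _ (Nat.mod_lt (D.y (D.mk3 ω ω2 ω3) q) hν)
    unfold cell at h4
    rw [h3] at h4
    rw [h4] at h5
    refine ⟨(i, m), mem_product.2 ⟨mem_range.2 hi, (mem_filter.1 h5).1⟩, ?_⟩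
    have h6 := hm.trans_le (card_le_mul_card_image_of_maps_to (f := fun q => q / 3)
      (t := ((range (D.G.k * D.B)).filter fun a => a / D.B ∈ ({i} : Finset ℕ)).filter fun a =>
        ∃ p ∈ range 3, D.G.route i (D.yy (nx (xt ω a)) p % D.G.ν) = m) (fun q hq => ?_) 3
      fun a _ => ?_)
    · unfold cap at h6
      rw [← hx, show 1500 * x = 3 * (500 * x) by ring] at h6
      exact_mod_cast (Nat.lt_of_mul_lt_mul_left h6).le
    · obtain ⟨h7, h8, h9⟩ := mem_filter.1 hq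
      have h10 : q < 3 * (D.G.k * D.B) := mem_range.1 h7
      unfold cell at h9
      rw [h8] at h9
      exact mem_filter.2 ⟨mem_filter.2 ⟨mem_range.2 (by omega), mem_singleton.2 h8⟩,
        q % 3, mem_range.2 (by omega), h9⟩
    · refine le_trans (card_le_card (t := Ico (3 * a) (3 * a + 3)) fun q hq => ?_)
        (by rw [Nat.card_Ico]; omega)
      have h7 : q / 3 = a := (mem_filter.1 hq).2
      exact mem_Ico.2 (by omega)
  · have hi := mem_range.1 (mem_product.1 hz).1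
    have h3 := tail_up (N := D.G.k * D.B)
      ((range (D.G.k * D.B)).filter fun a => a / D.B ∈ ({z.1} : Finset ℕ))
      (fun a ha => mem_range.1 (mem_filter.1 ha).1)
      (fun _ (ω : Fin 4 → Fin (2 ^ D.W)) =>
        ∃ p ∈ range 3, D.G.route z.1 (D.yy (nx ω) p % D.G.ν) = z.2) _ (500 * x)
      fun _ _ => sat_route H hi z.2
    rw [sat_card hB (singleton_subset_iff.2 (mem_range.2 hi)), card_singleton, mul_one,
      ← hx] at h3
    refine (pr_mono fun ω hω => ?_).trans (h3.trans (le_trans (Real.exp_le_exp.2 ?_)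
      (sat_exp (by positivity))))
    · exact hω.trans (Nat.cast_le.2 (card_le_card fun a ha => sat_mem.2 (sat_mem.1 ha)))
    · have h4 : 2 * (72 * ((D.G.k1 : ℝ) * x) / D.n) * D.B ≤ 288 * x := by
        rw [← mul_div_assoc, div_mul_eq_mul_div, div_le_iff₀ hn]
        linarith [mul_le_mul_of_nonneg_left h2' hx0.le]
      linarith
  · rw [card_product, card_range, card_range, mul_one_div,
      div_le_div_iff₀ (by positivity) (by norm_num)]
    push_cast
    linarith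

theorem pr_not_viol (H : D.Good c E h g R) (hfar : D.IsFar E) (ω2 : D.Ω2) (ω3 : D.Ω3) :
    pr (fun ω1 : D.Ω1 => ¬ D.Viol c E (D.mk3 ω1 ω2 ω3)) ≤ 1 / 20 := by
  classical
  have hB : 0 < D.B := Nat.succ_pos _
  have hE : (0 : ℝ) < E := Nat.cast_pos.2 H.E_pos
  have hΓ : 128 * E ≤ D.Γ := by
    rw [H.Γ_eq]
    exact Nat.mul_le_mul_right _ (by have := H.c_pos; omega)
  have hk := (sat_k_le H).1
  have hn : 20 ≤ D.n := by
    have h1 : D.G.t ≤ D.G.k := Nat.le_mul_of_pos_right _ H.geo.k1_pos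
    have h2 : D.Γ ≤ D.G.t := by
      rw [H.t_eq]
      exact Nat.le_mul_of_pos_left _ (by have := H.c_pos; omega)
    have := H.E_pos
    omega
  have hn' : (20 : ℝ) ≤ D.n := by exact_mod_cast hn
  refine (pr_mono fun ω hω => ?_).trans ((pr_exists_le'
    ((univ : Finset (Fin (2 * D.n) → Bool)) ×ˢ
      (range D.G.k).powerset.filter fun I => D.G.k ≤ 1024 * c * I.card)
    (fun z (ω : D.Ω1) =>
      ((((range (D.G.k * D.B)).filter fun a => a / D.B ∈ z.2).filter fun a =>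
        ∀ p < 3, xt z.1 (D.yy (nx (xt ω a)) p) ≠ D.sgn (D.cl (nx (xt ω a))) p).card : ℝ) ≤
        (D.B * z.2.card : ℕ) / (64 * E))
    (Real.exp (-(4 * D.n))) fun z hz => ?_).trans ?_)
  · unfold Viol at hω
    push Not at hω
    obtain ⟨val, I, hI, h1, h2⟩ := hω
    refine ⟨(fun y => val y, I), mem_product.2 ⟨mem_univ _,
      mem_filter.2 ⟨mem_powerset.2 hI, h1⟩⟩, ?_⟩
    rw [le_div_iff₀ (by positivity), mul_comm]
    refine le_trans ?_ (Nat.cast_le.2 h2.le)
    push_cast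
    refine mul_le_mul_of_nonneg_left (Nat.cast_le.2 (card_le_card fun a ha => ?_)) (by positivity)
    obtain ⟨h3, h4⟩ := mem_filter.1 ha
    obtain ⟨h5, h6⟩ := mem_filter.1 h3
    refine sat_mem.2 ⟨h5, h6, fun p hp => ?_⟩
    have h7 := h4 p hp
    rw [xt, dif_pos (yy_lt H.wf _ hp)] at h7
    exact h7
  · obtain ⟨hI, h1⟩ := mem_filter.1 (mem_product.1 hz).2
    have h3 := tail_lo (N := D.G.k * D.B)
      ((range (D.G.k * D.B)).filter fun a => a / D.B ∈ z.2)
      (fun a ha => mem_range.1 (mem_filter.1 ha).1)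
      (fun _ (ω : Fin 4 → Fin (2 ^ D.W)) =>
        ∀ p < 3, xt z.1 (D.yy (nx ω) p) ≠ D.sgn (D.cl (nx ω)) p) _
      ((D.B * z.2.card : ℕ) / (64 * E))
      fun _ _ => le_pr_viol H.wf sat_W H.E_pos hfar (xt z.1)
    rw [sat_card hB (mem_powerset.1 hI)] at h3
    refine (pr_mono fun ω hω => ?_).trans (h3.trans (Real.exp_le_exp.2 ?_))
    · exact le_trans (Nat.cast_le.2 (card_le_card fun a ha => sat_mem.2 (sat_mem.1 ha))) hω
    · have h4 : 2 * D.Γ * D.G.k1 ≤ z.2.card := by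
        refine Nat.le_of_mul_le_mul_left ?_ (show 0 < 1024 * c by have := H.c_pos; omega)
        refine le_trans (le_of_eq ?_) h1
        rw [Gad.k, H.t_eq]
        ring
      have h5 : D.n ≤ D.G.k1 * D.B := (Nat.lt_mul_div_succ _ H.geo.k1_pos).le
      have h6 : 256 * E * D.n ≤ D.B * z.2.card :=
        calc 256 * E * D.n ≤ 2 * D.Γ * (D.G.k1 * D.B) := Nat.mul_le_mul (by omega) h5
          _ = D.B * (2 * D.Γ * D.G.k1) := by ring
          _ ≤ _ := Nat.mul_le_mul_left _ h4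
      have h7 : (256 * E * D.n : ℝ) ≤ (D.B * z.2.card : ℕ) := by exact_mod_cast h6
      generalize ((D.B * z.2.card : ℕ) : ℝ) = y at h7 ⊢
      have h8 : 4 * (D.n : ℝ) ≤ y / (64 * E) := by
        rw [le_div_iff₀ (by positivity)]
        linarith
      have h9 : 1 / (16 * (E : ℝ)) * y / 2 = 2 * (y / (64 * E)) := by
        field_simp
        ring
      linarith
  · have h1 : ((univ : Finset (Fin (2 * D.n) → Bool)) ×ˢ
        (range D.G.k).powerset.filter fun I => D.G.k ≤ 1024 * c * I.card).card ≤ 2 ^ (3 * D.n) := by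
      rw [card_product, card_univ, Fintype.card_fun, Fintype.card_bool, Fintype.card_fin]
      refine (Nat.mul_le_mul_left _ (card_filter_le _ _)).trans ?_
      rw [card_powerset, card_range, ← pow_add]
      exact Nat.pow_le_pow_right two_pos (by omega)
    have h2 : ((2 ^ (3 * D.n) : ℕ) : ℝ) ≤ Real.exp (3 * D.n) := by
      have h3 := pow_le_pow_left₀ (by norm_num : (0 : ℝ) ≤ 1 + 1) (Real.add_one_le_exp 1) (3 * D.n)
      rw [← Real.exp_nat_mul, mul_one, one_add_one_eq_two] at h3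
      exact_mod_cast h3
    refine (mul_le_mul_of_nonneg_right ((Nat.cast_le.2 h1).trans h2) (Real.exp_pos _).le).trans ?_
    rw [← Real.exp_add, show 3 * (D.n : ℝ) + -(4 * D.n) = -D.n by ring]
    exact (sat_exp (by linarith)).trans (one_div_le_one_div_of_le (by norm_num) hn')

end Dat

end Pool.Agent.MP_a2da35_lc
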