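import Pool.Agent.MP_a2da35_lc.Sat

/-!
Completeness.
-/

namespace Pool.Agent.MP_a2da35_lc

open Finset

theorem length_filter_range (n : ℕ) (p : ℕ → Prop) [DecidablePred p] :
    ((List.range n).filter fun q => decide (p q)).length = ((range n).filter p).card := by
  rw [← List.toFinset_card_of_nodup (List.nodup_range.filter _)]
  congr 1
  ext q
  simp

theorem Gad.Geo.mul_card_le {G : Gad} (hG : G.Geo) (J U : Finset ℕ) (hJ : ∀ i ∈ J, i < G.k)
    (hU : ∀ i ∈ J, G.cells i ⊆ U) : G.w * J.card ≤ G.t * U.card := by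
  have := Finset.card_mul_le_card_mul (s := J) (t := U) (fun i m => m ∈ G.cells i)
    (m := G.w) (n := G.t) (fun i hi => ?_) (fun m _ => ?_)
  · rwa [mul_comm G.w, mul_comm G.t]
  · rw [← hG.card_cells i (hJ i hi)]
    exact card_le_card fun m hm => by simp [bipartiteAbove, hm, hU i hi hm]
  · refine le_trans (card_le_card fun i hi => ?_) (hG.deg m)
    simp only [bipartiteBelow, mem_filter, mem_range] at hi ⊢
    exact ⟨hJ i hi.1, hi.2⟩

namespace Dat

variable {D : Dat} {c E h g R : ℕ}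

theorem B_pos (D : Dat) : 0 < D.B := Nat.succ_pos _

theorem Good.ν_pos (H : D.Good c E h g R) : 0 < D.G.ν := Nat.mul_pos H.geo.k1_pos H.geo.w_pos

theorem Good.k_pos (H : D.Good c E h g R) : 0 < D.G.k := Nat.mul_pos H.geo.t_pos H.geo.k1_pos

theorem Good.M_pos (H : D.Good c E h g R) : 0 < D.M := Nat.pow_pos H.code.QA_pos

theorem Good.QS_pos (H : D.Good c E h g R) : 0 < D.G.QS :=
  (Nat.zero_le _).trans_lt (H.code.ev_lt 0 0 0)

theorem Good.MS_pos (H : D.Good c E h g R) : 0 < D.MS := Nat.pow_pos H.QS_pos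

theorem Good.symN_lt (H : D.Good c E h g R) (i m l : ℕ) : D.G.symN D.s i m l < D.MS :=
  pack_lt fun _ _ => H.code.ev_lt _ _ _

theorem cls_lt {q : ℕ} (hq : q < D.nq) : D.cls q < D.G.k := by
  unfold cls
  unfold nq at hq
  rw [Nat.div_lt_iff_lt_mul D.B_pos]
  omega

theorem Good.cell_mem (H : D.Good c E h g R) (o : Rnd) {q : ℕ} (hq : q < D.nq) :
    D.cell o q ∈ D.G.cells (D.cls q) :=
  H.geo.route_mem _ (cls_lt hq) _ (Nat.mod_lt _ H.ν_pos)

theorem slot_eq (o : Rnd) {q : ℕ} (hq : q < D.nq) :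
    D.slot o q = ((range q).filter fun q' => D.cell o q' = D.cell o q).card := by
  rw [slot, min_eq_left hq.le, length_filter_range]

theorem slot_lt_slot (o : Rnd) {q q' : ℕ} (hq : q < q') (hq' : q' < D.nq)
    (e : D.cell o q = D.cell o q') : D.slot o q < D.slot o q' := by
  rw [slot_eq o hq', slot_eq o (hq.trans hq'), e]
  refine card_lt_card ⟨filter_subset_filter _ (range_mono hq.le), fun hh => ?_⟩
  have := hh (mem_filter.2 ⟨mem_range.2 hq, e⟩)
  simp at this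

theorem slot_inj (o : Rnd) {q q' : ℕ} (hq : q < D.nq) (hq' : q' < D.nq)
    (e : D.cell o q = D.cell o q') (e' : D.slot o q = D.slot o q') : q = q' := by
  rcases lt_trichotomy q q' with hh | hh | hh
  · exact absurd e' (slot_lt_slot o hh hq' e).ne
  · exact hh
  · exact absurd e' (slot_lt_slot o hh hq e.symm).ne'

theorem Good.slot_lt (H : D.Good c E h g R) {o : Rnd} (hL : D.Load o) {q : ℕ} (hq : q < D.nq) :
    D.slot o q < D.G.t * D.cap := by
  rw [slot_eq o hq]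
  refine lt_of_lt_of_le (b := ((range D.nq).filter fun q' => D.cell o q' = D.cell o q).card)
    (card_lt_card ⟨filter_subset_filter _ (range_mono hq.le), fun hh => ?_⟩) ?_
  · have := hh (mem_filter.2 ⟨mem_range.2 hq, rfl⟩)
    simp at this
  · refine le_trans (Finset.card_le_mul_card_image_of_maps_to (f := D.cls)
      (t := (range D.G.k).filter fun i => D.cell o q ∈ D.G.cells i) (fun q' hq' => ?_) D.cap
      fun i hi => ?_) ?_
    · obtain ⟨h1, h2⟩ := mem_filter.1 hq'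
      exact mem_filter.2 ⟨mem_range.2 (cls_lt (mem_range.1 h1)),
        h2 ▸ H.cell_mem o (mem_range.1 h1)⟩
    · refine le_trans (card_le_card fun q' hq' => ?_)
        (hL i (mem_range.1 (mem_filter.1 hi).1) (D.cell o q))
      simp only [mem_filter] at hq' ⊢
      tauto
    · rw [mul_comm]
      exact Nat.mul_le_mul_right _ (H.geo.deg _)

theorem Good.tcap_lt (H : D.Good c E h g R) : D.G.t * D.cap < D.G.β * D.s0 :=
  Nat.lt_mul_div_succ _ H.code.β_pos

/-- The free parts of the honest labels. -/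
abbrev Fr (D : Dat) : Type := Fin D.G.ν → Fin D.s0 → Fin D.G.β → Bool

/-- The honest labels. -/
theorem Good.honest (H : D.Good c E h g R) {o : Rnd} (hL : D.Load o) (a : ℕ → Bool)
    (ha : ∀ j < D.m, ∃ p < 3, a (D.var j p) = D.sgn j p) :
    ∃ (lb sy : ℕ → D.Fr → ℕ), (∀ i z, lb i z < D.M) ∧
      (∀ i < D.G.k, ∀ z, D.Valid o i (lb i z)) ∧
      (∀ i < D.G.k, ∀ m ∈ D.G.cells i, ∀ z, D.G.symN D.s i m (lb i z) = sy m z) ∧
      ∀ i < D.G.k, ∀ z z', lb i z = lb i z' → ∀ m : Fin D.G.ν, (m : ℕ) ∈ D.G.cells i →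
        z m = z' m := by
  classical
  obtain ⟨lab, sym, h1, h2, h3⟩ := H.code.honest
  let z0 : ℕ → ℕ → Bool := fun m p => decide (∃ q < D.nq, D.cell o q = m ∧ D.slot o q = p ∧
    a (D.uu (o.o1 (q / 3)) (q % 3)) = true)
  have hz0 : ∀ q < D.nq, z0 (D.cell o q) (D.slot o q) = a (D.uu (o.o1 (q / 3)) (q % 3)) := by
    intro q hq
    rw [Bool.eq_iff_iff]
    simp only [z0, decide_eq_true_eq]
    refine ⟨?_, fun hh => ⟨q, hq, rfl, rfl, hh⟩⟩
    rintro ⟨q', hq', e1, e2, e3⟩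
    rwa [slot_inj o hq' hq e1 e2] at e3
  let row : D.Fr → ℕ → ℕ → ℕ → Bool := fun z j m l =>
    if j < D.s0 then z0 m (D.G.β * j + l) else xt (xt (xt z m) (j - D.s0)) l
  have hs : ∀ i < D.G.k, ∀ m ∈ D.G.cells i, ∀ z,
      D.G.symN D.s i m (pack D.G.QA D.s fun j => lab i (row z j)) =
        pack D.G.QS D.s fun j => sym m (row z j) := by
    intro i hi m hm z
    exact pack_congr fun j hj => by rw [dig_pack (fun _ _ => h1 _ _) hj, h2 i hi m hm]
  have hrd : ∀ i < D.G.k, ∀ z, ∀ q < D.nq, D.cell o q ∈ D.G.cells i →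
      D.rd o i (pack D.G.QA D.s fun j => lab i (row z j)) q =
        a (D.uu (o.o1 (q / 3)) (q % 3)) := by
    intro i hi z q hq hm
    have e1 : D.slot o q / D.G.β < D.s0 := by
      rw [Nat.div_lt_iff_lt_mul H.code.β_pos, mul_comm]
      exact (H.slot_lt hL hq).trans H.tcap_lt
    rw [rd, hs i hi _ hm, bit, dig_pack (fun j _ => by
      rw [← h2 i hi _ hm]; exact H.code.ev_lt _ _ _) (by unfold s; omega),
      h3 _ (mem_range.1 (mem_filter.1 hm).1) _ _ (Nat.mod_lt _ H.code.β_pos)]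
    simp only [row, if_pos e1, Nat.div_add_mod]
    exact hz0 q hq
  refine ⟨fun i z => pack D.G.QA D.s fun j => lab i (row z j),
    fun m z => pack D.G.QS D.s fun j => sym m (row z j), fun i z => pack_lt fun _ _ => h1 _ _,
    fun i hi z => ⟨fun b hb e => ?_, fun q hq q' hq' e1 e2 e3 => ?_⟩, hs,
    fun i hi z z' e m hm => ?_⟩
  · obtain ⟨p, hp, hp'⟩ := ha (D.cl (o.o1 b)) (Nat.mod_lt _ H.wf.m_pos)
    have hq : 3 * b + p < D.nq := by unfold nq; omega
    have e1 : (3 * b + p) / 3 = b := by omega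
    have e2 : (3 * b + p) % 3 = p := by omega
    refine ⟨p, hp, ?_⟩
    rw [hrd i hi z _ hq (by
      have := H.cell_mem o hq
      rwa [cls, e1, e] at this), e1, e2]
    exact hp'
  · have hlt : ∀ q < D.nq, D.cell o q ∈ range D.G.ν := fun q hq =>
      (mem_filter.1 (H.cell_mem o hq)).1
    rw [hrd i hi z q hq (mem_filter.2 ⟨hlt q hq, e1⟩),
      hrd i hi z q' hq' (mem_filter.2 ⟨hlt q' hq', e2⟩),
      uu_eq_of_yy_eq H.wf (Nat.mod_lt _ (by norm_num)) (Nat.mod_lt _ (by norm_num)) e3]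
  · funext j l
    have hj : D.s0 + j < D.s := by have := j.2; unfold s; omega
    have e1 := congrArg (dig D.G.QA D.s (D.s0 + j)) e
    simp only [dig_pack (fun _ _ => h1 _ _) hj] at e1
    have e2 := h3 m m.2 (row z (D.s0 + j)) l l.2
    rw [← h2 i hi m hm, e1, h2 i hi m hm, h3 m m.2 _ l l.2] at e2
    simpa [row, xt_val] using e2.symm

theorem b1_le (D : Dat) : 2 * D.G.t * D.b1 ≤ D.G.β * D.G.w * D.s0 :=
  Nat.mul_div_le _ _

theorem Good.free_big (H : D.Good c E h g R) : 1600 * D.G.ν ^ 2 ≤ D.G.β * D.s0 := by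
  have h1 := H.tcap_lt
  have h2 := H.big
  have h3 : D.cap ≤ D.G.t * D.cap := Nat.le_mul_of_pos_left _ H.geo.t_pos
  have h4 : D.G.ν ^ 2 ≤ (D.G.k + D.G.ν) ^ 2 := Nat.pow_le_pow_left (by omega) 2
  unfold cap at h1 h3
  omega

theorem div_vertex {M i l : ℕ} (hl : l < M) : (i * M + l) / M = i := by
  rw [mul_comm, Nat.mul_add_div (by omega), Nat.div_eq_of_lt hl, add_zero]

theorem mod_vertex {M i l : ℕ} (hl : l < M) : (i * M + l) % M = l := by
  rw [mul_comm, Nat.mul_add_mod, Nat.mod_eq_of_lt hl]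

theorem vertex_lt {M k i l : ℕ} (hi : i < k) (hl : l < M) : i * M + l < k * M := by nlinarith

theorem Good.pr_kept (H : D.Good c E h g R) (lb : ℕ → D.Fr → ℕ) (h1 : ∀ i z, lb i z < D.M)
    (h2 : ∀ i < D.G.k, ∀ z z', lb i z = lb i z' → ∀ m : Fin D.G.ν, (m : ℕ) ∈ D.G.cells i →
      z m = z' m) :
    pr (fun ω : D.Ω2 => ∀ z, ¬ ∀ i < D.G.k, nx ω (i * D.M + lb i z) % 2 ^ D.b1 = 0) ≤ 1 / 20 := by
  classical
  let F : D.Fr → Finset ℕ := fun z => (range D.G.k).image fun i => i * D.M + lb i z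
  have hp : pr (fun x : Fin (2 ^ D.W) => (x : ℕ) % 2 ^ D.b1 = 0) = 1 / 2 ^ D.b1 :=
    pr_mod_pow (by unfold W; omega)
  have key := second_moment (N := D.G.k * D.M) F D.G.k (fun z j hj => by
      obtain ⟨i, hi, rfl⟩ := mem_image.1 hj
      exact vertex_lt (mem_range.1 hi) (h1 _ _))
    (fun z => by
      rw [card_image_of_injOn, card_range]
      intro i _ i' _ e
      have := congrArg (· / D.M) e
      simpa only [div_vertex (h1 _ _)] using this)
    (fun x : Fin (2 ^ D.W) => (x : ℕ) % 2 ^ D.b1 = 0) (by rw [hp]; positivity)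
  refine le_trans (le_of_eq (pr_congr fun ω => ?_)) (key.trans ?_)
  · simp [F, nx]
  rw [hp, one_div_one_div]
  set θ : ℝ := √(2 ^ (D.G.β * D.s0)) with hθ
  have hθ2 : θ ^ 2 = 2 ^ (D.G.β * D.s0) := Real.sq_sqrt (by positivity)
  have hν : (0 : ℝ) < D.G.ν := by exact_mod_cast H.ν_pos
  have hθ3 : 40 * (D.G.ν : ℝ) ≤ θ := by
    refine Real.le_sqrt_of_sq_le ?_
    have := H.free_big.trans (Nat.lt_two_pow_self (n := D.G.β * D.s0)).le
    have h' : ((1600 * D.G.ν ^ 2 : ℕ) : ℝ) ≤ ((2 ^ (D.G.β * D.s0) : ℕ) : ℝ) := by exact_mod_cast this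
    push_cast at h'
    nlinarith
  have hν1 : (1 : ℝ) ≤ D.G.ν := by exact_mod_cast H.ν_pos
  have h3 := ex_agree (Y := Fin D.s0 → Fin D.G.β → Bool) D.G.ν θ (by linarith)
    (by rw [hθ2]; simp [pow_mul])
  have h4 : Real.exp (D.G.ν / θ) ≤ 1 + 1 / 20 := by
    have h5 : D.G.ν / θ ≤ 1 / 40 := by
      rw [div_le_div_iff₀ (by linarith) (by norm_num)]; linarith
    refine (Real.exp_le_exp.2 h5).trans ?_
    have := Real.exp_bound_div_one_sub_of_interval' (x := 1 / 40) (by norm_num) (by norm_num)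
    linarith [show (1 : ℝ) / (1 - 1 / 40) ≤ 1 + 1 / 20 by norm_num]
  refine le_trans (sub_le_sub_right ((ex_mono fun z => ?_).trans (h3.trans h4)) 1) (by norm_num)
  let J := (range D.G.k).filter fun i => lb i z.1 = lb i z.2
  let U := univ.filter fun m : Fin D.G.ν => z.1 m = z.2 m
  have e1 : (F z.1 ∩ F z.2).card ≤ J.card := by
    refine le_trans (card_le_card fun u hu => ?_) (card_image_le (f := fun i => i * D.M + lb i z.1))
    obtain ⟨hu1, hu2⟩ := mem_inter.1 hu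
    obtain ⟨i, hi, rfl⟩ := mem_image.1 hu1
    obtain ⟨i', hi', e⟩ := mem_image.1 hu2
    have e' := congrArg (· / D.M) e
    simp only [div_vertex (h1 _ _)] at e'
    subst e'
    exact mem_image.2 ⟨i', mem_filter.2 ⟨hi, (Nat.add_left_cancel e).symm⟩, rfl⟩
  have e2 : D.G.w * J.card ≤ D.G.t * U.card := by
    rw [← card_map (s := U) Fin.valEmbedding]
    refine H.geo.mul_card_le J _ (fun i hi => mem_range.1 (mem_filter.1 hi).1) fun i hi m hm => ?_
    have hm' : m < D.G.ν := mem_range.1 (mem_filter.1 hm).1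
    exact mem_map.2 ⟨⟨m, hm'⟩, mem_filter.2 ⟨mem_univ _, h2 i (mem_range.1 (mem_filter.1 hi).1) _ _
      (mem_filter.1 hi).2 ⟨m, hm'⟩ hm⟩, rfl⟩
  have e3 : D.b1 * (F z.1 ∩ F z.2).card * 2 ≤ D.G.β * D.s0 * U.card := by
    refine Nat.le_of_mul_le_mul_left ?_ H.geo.t_pos
    have := D.b1_le
    calc D.G.t * (D.b1 * (F z.1 ∩ F z.2).card * 2) = 2 * D.G.t * D.b1 * (F z.1 ∩ F z.2).card := by
          ring
      _ ≤ D.G.β * D.G.w * D.s0 * J.card := Nat.mul_le_mul this e1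
      _ = D.G.β * D.s0 * (D.G.w * J.card) := by ring
      _ ≤ D.G.β * D.s0 * (D.G.t * U.card) := Nat.mul_le_mul_left _ e2
      _ = _ := by ring
  refine (sq_le_sq₀ (by positivity) (by positivity)).1 ?_
  rw [← pow_mul θ, mul_comm _ 2, pow_mul θ, hθ2, ← pow_mul, ← pow_mul, ← pow_mul]
  exact pow_le_pow_right₀ (by norm_num) (by rw [← mul_assoc]; convert e3)

open Classical in
theorem pr_right (D : Dat) (T : Finset ℕ) (h1 : ∀ p ∈ T, p < D.G.ν * D.MS)
    (h2 : T.card ≤ D.G.ν) :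
    pr (fun ω : D.Ω3 => (((range D.Rn).filter fun v =>
      ∀ p ∈ T, nx (xt ω v) p % 2 ^ D.b = 0).card : ℝ) ≤ D.G.k) ≤ 1 / 20 := by
  have hp : pr (fun x : Fin (2 ^ D.W) => (x : ℕ) % 2 ^ D.b = 0) = 1 / 2 ^ D.b :=
    pr_mod_pow (by unfold W; omega)
  have key := tail_lo (N := D.Rn) (range D.Rn) (fun j hj => mem_range.1 hj)
    (fun _ (x : Fin (D.G.ν * D.MS) → Fin (2 ^ D.W)) => ∀ p ∈ T, nx x p % 2 ^ D.b = 0)
    ((1 / 2 ^ D.b) ^ D.G.ν) D.G.k (fun _ _ => by
      have := pr_all (N := D.G.ν * D.MS) T h1 (fun _ (x : Fin (2 ^ D.W)) => (x : ℕ) % 2 ^ D.b = 0)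
      rw [Finset.prod_const, hp] at this
      refine le_trans ?_ (le_of_eq this.symm)
      exact pow_le_pow_of_le_one (by positivity)
        (by rw [div_le_one (by positivity)]; exact one_le_pow₀ (by norm_num)) h2)
  refine le_trans (le_of_eq (by congr!)) (key.trans ?_)
  have e : (D.G.k : ℝ) - (1 / 2 ^ D.b) ^ D.G.ν * (range D.Rn).card / 2 = -3 := by
    rw [card_range, Rn]
    push_cast
    rw [pow_mul, one_div, inv_pow]
    field_simp
    ring
  rw [e, Real.exp_neg, inv_eq_one_div]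
  refine one_div_le_one_div_of_le (by norm_num) ?_
  have h3 := Real.exp_one_gt_d9
  rw [show (3 : ℝ) = (3 : ℕ) * 1 by norm_num, Real.exp_nat_mul]
  refine le_trans (by norm_num) (pow_le_pow_left₀ (by norm_num) h3.le 3)

theorem yes (H : D.Good c E h g R) (a : ℕ → Bool)
    (ha : ∀ j < D.m, ∃ p < 3, a (D.var j p) = D.sgn j p) :
    pr (fun ω : D.Ω1 × D.Ω2 × D.Ω3 => ¬ D.HasK (D.mk3 ω.1 ω.2.1 ω.2.2) D.G.k) ≤ 3 / 20 := by
  classical
  refine (pr_prod_le (fun ω1 : D.Ω1 => ¬ D.Load (D.mk3 ω1 default default)) _ (1 / 20 + 1 / 20)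
    (by norm_num) fun ω1 hL => ?_).trans (by linarith [pr_not_load H default default])
  obtain ⟨lb, sy, h1, h2, h3, h4⟩ := H.honest (not_not.1 hL) a ha
  refine (pr_prod_le _ _ (1 / 20) (by norm_num) fun ω2 hω => ?_).trans
    (add_le_add_left (H.pr_kept lb h1 h4) _)
  obtain ⟨z, hz⟩ := not_forall.1 hω
  rw [not_not] at hz
  refine le_trans (pr_mono fun ω3 hn => ?_)
    (D.pr_right ((range D.G.ν).image fun m => m * D.MS + sy m z % D.MS) (fun p hp => ?_)
      (card_image_le.trans (card_range _).le))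
  · by_contra hlt
    rw [not_le, Nat.cast_lt] at hlt
    obtain ⟨B, hB1, hB2⟩ := Finset.exists_subset_card_eq hlt.le
    refine hn ⟨(range D.G.k).image fun i => i * D.M + lb i z, B, ?_, hB2, fun u hu => ?_,
      fun v hv => mem_range.1 (mem_filter.1 (hB1 hv)).1, fun u hu v hv => ?_⟩
    · rw [card_image_of_injOn, card_range]
      intro i _ i' _ e
      have := congrArg (· / D.M) e
      simpa only [div_vertex (h1 _ _)] using this
    · obtain ⟨i, hi, rfl⟩ := mem_image.1 hu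
      exact vertex_lt (mem_range.1 hi) (h1 _ _)
    · obtain ⟨i, hi, rfl⟩ := mem_image.1 hu
      rw [mem_range] at hi
      unfold AdjLR tok
      rw [div_vertex (h1 _ _), mod_vertex (h1 _ _)]
      refine ⟨h2 i hi z, hz i hi, fun m hm hi' => ?_⟩
      have e := h3 i hi m (mem_filter.2 ⟨mem_range.2 hm, hi'⟩) z
      refine (mem_filter.1 (hB1 hv)).2 _ (mem_image.2 ⟨m, mem_range.2 hm, ?_⟩)
      rw [← e, Nat.mod_eq_of_lt (H.symN_lt _ _ _)]
  · obtain ⟨m, hm, rfl⟩ := mem_image.1 hp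
    exact vertex_lt (mem_range.1 hm) (Nat.mod_lt _ H.MS_pos)

end Dat

end Pool.Agent.MP_a2da35_lc
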